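import Mathlib

set_option autoImplicit false

namespace Pool.Agent.H20.Dyad

open Topology Filter

/-- The index set, of size continuum. -/
abbrev Idx : Type := ℕ → Bool

/-- The Cantor cube of weight continuum. -/
abbrev Cube : Type := Idx → Bool

/-- The space of continuous real functions with the topology of pointwise convergence. -/
abbrev Cp (X : Type) [TopologicalSpace X] : Type := {f : X → ℝ // Continuous f}

open Classical in
/-- change one coordinate -/
noncomputable def flp (α : Idx) (x : Cube) : Cube := Function.update x α (!(x α))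

theorem flp_same (α : Idx) (x : Cube) : flp α x α = !(x α) := by
  classical
  simp [flp]

theorem flp_ne (α γ : Idx) (x : Cube) (h : γ ≠ α) : flp α x γ = x γ := by
  classical
  simp [flp, Function.update_of_ne h]

/-- dependence on a finite set up to an error -/
def Dep (f : Cube → ℝ) (T : Finset Idx) (η : ℝ) : Prop :=
  ∀ x y : Cube, (∀ α ∈ T, x α = y α) → |f x - f y| ≤ η

theorem exists_dep (f : Cube → ℝ) (hf : Continuous f) (η : ℝ) (hη : 0 < η) :
    ∃ T : Finset Idx, Dep f T η := by
  classical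
  have h1 : ∀ x : Cube, ∃ T : Finset Idx, ∀ y : Cube, (∀ α ∈ T, y α = x α) →
      |f y - f x| < η / 2 := by
    intro x
    have ho : IsOpen {y : Cube | |f y - f x| < η / 2} :=
      isOpen_lt ((hf.sub continuous_const).abs) continuous_const
    rw [isOpen_pi_iff] at ho
    obtain ⟨T, u, hu, hsub⟩ := ho x (by
      show |f x - f x| < η / 2
      rw [sub_self, abs_zero]
      linarith)
    refine ⟨T, fun y hy => hsub ?_⟩
    intro α hα
    rw [hy α hα]
    exact (hu α hα).2
  choose T hT using h1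
  obtain ⟨t, _, ht⟩ := isCompact_univ.elim_nhds_subcover
    (fun x : Cube => {y : Cube | ∀ α ∈ T x, y α = x α}) (by
      intro x _
      have : IsOpen ((T x : Set Idx).pi fun α => ({x α} : Set Bool)) :=
        isOpen_set_pi (Finset.finite_toSet _) fun α _ => isOpen_discrete _
      exact this.mem_nhds fun α _ => rfl)
  refine ⟨t.biUnion T, ?_⟩
  intro x y hxy
  obtain ⟨x0, hx0, hx⟩ := Set.mem_iUnion₂.mp (ht (Set.mem_univ x))
  have hx' : ∀ α ∈ T x0, x α = x0 α := hx
  have h2 := hT x0 x hx'
  have h3 := hT x0 y (fun α hα => by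
    rw [← hxy α (Finset.mem_biUnion.mpr ⟨x0, hx0, hα⟩)]
    exact hx' α hα)
  rw [abs_lt] at h2 h3
  rw [abs_le]
  constructor <;> linarith

theorem Dep.mono {f : Cube → ℝ} {T T' : Finset Idx} {η : ℝ} (h : Dep f T η) (hT : T ⊆ T') :
    Dep f T' η := fun x y hxy => h x y fun α hα => hxy α (hT hα)

theorem exists_min_dep (f : Cube → ℝ) (hf : Continuous f) (η : ℝ) (hη : 0 < η) :
    ∃ T : Finset Idx, Dep f T η ∧ ∀ α ∈ T, ∃ z, f z ≠ f (flp α z) := by
  classical
  have hex : ∃ k, ∃ T : Finset Idx, T.card = k ∧ Dep f T η := by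
    obtain ⟨T, hT⟩ := exists_dep f hf η hη
    exact ⟨_, T, rfl, hT⟩
  obtain ⟨T, hTc, hT⟩ := Nat.find_spec hex
  refine ⟨T, hT, ?_⟩
  intro α hα
  by_contra hcon
  push Not at hcon
  have hlt : (T.erase α).card < Nat.find hex := by
    rw [← hTc]
    exact Finset.card_erase_lt_of_mem hα
  apply Nat.find_min hex hlt
  refine ⟨T.erase α, rfl, ?_⟩
  intro x y hxy
  by_cases hα' : x α = y α
  · apply hT
    intro γ hγ
    by_cases hγα : γ = α
    · rw [hγα]; exact hα'
    · exact hxy γ (Finset.mem_erase.mpr ⟨hγα, hγ⟩)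
  · rw [hcon y]
    apply hT
    intro γ hγ
    by_cases hγα : γ = α
    · rw [hγα, flp_same]
      exact Bool.eq_not_of_ne hα'
    · rw [flp_ne _ _ _ hγα]
      exact hxy γ (Finset.mem_erase.mpr ⟨hγα, hγ⟩)

theorem exists_pos_le' {ι : Type*} (s : Finset ι) (d : ι → ℝ) (hd : ∀ i ∈ s, 0 < d i) :
    ∃ p : ℝ, 0 < p ∧ ∀ i ∈ s, p ≤ d i := by
  classical
  induction s using Finset.induction_on with
  | empty => exact ⟨1, one_pos, by simp⟩
  | insert a s _ ih =>
    obtain ⟨p, hp, h⟩ := ih fun i hi => hd i (Finset.mem_insert_of_mem hi)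
    refine ⟨min p (d a), lt_min hp (hd a (Finset.mem_insert_self _ _)), ?_⟩
    intro i hi
    rcases Finset.mem_insert.mp hi with rfl | hi
    · exact min_le_right _ _
    · exact (min_le_left _ _).trans (h i hi)

theorem exists_pos_le {ι : Type} (s : Finset ι) (d : ι → ℝ) (hd : ∀ i ∈ s, 0 < d i) :
    ∃ p : ℝ, 0 < p ∧ ∀ i ∈ s, p ≤ d i := by
  classical
  induction s using Finset.induction_on with
  | empty => exact ⟨1, one_pos, by simp⟩
  | insert a s _ ih =>
    obtain ⟨p, hp, h⟩ := ih fun i hi => hd i (Finset.mem_insert_of_mem hi)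
    refine ⟨min p (d a), lt_min hp (hd a (Finset.mem_insert_self _ _)), ?_⟩
    intro i hi
    rcases Finset.mem_insert.mp hi with rfl | hi
    · exact min_le_right _ _
    · exact (min_le_left _ _).trans (h i hi)

theorem exists_lt_bound {ι : Type} (s : Finset ι) (P : ι → Prop) (c : ι → ℝ) (p q : ℝ)
    (hq : q < p) (hc : ∀ i ∈ s, P i → c i < p) :
    ∃ r : ℝ, q ≤ r ∧ r < p ∧ ∀ i ∈ s, P i → c i ≤ r := by
  classical
  induction s using Finset.induction_on with
  | empty => exact ⟨q, le_refl _, hq, by simp⟩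
  | insert a s _ ih =>
    obtain ⟨r, hr, hrp, h⟩ := ih fun i hi => hc i (Finset.mem_insert_of_mem hi)
    by_cases ha : P a
    · refine ⟨max r (c a), hr.trans (le_max_left _ _),
        max_lt hrp (hc a (Finset.mem_insert_self _ _) ha), ?_⟩
      intro i hi hPi
      rcases Finset.mem_insert.mp hi with rfl | hi
      · exact le_max_right _ _
      · exact (h i hi hPi).trans (le_max_left _ _)
    · refine ⟨r, hr, hrp, ?_⟩
      intro i hi hPi
      rcases Finset.mem_insert.mp hi with rfl | hi
      · exact absurd hPi ha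
      · exact h i hi hPi

theorem cont_flp (α : Idx) : Continuous (flp α) := by
  apply continuous_pi
  intro γ
  by_cases h : γ = α
  · have : (fun x : Cube => flp α x γ) = fun x => !(x α) := by
      funext x
      rw [h, flp_same]
    rw [this]
    exact (continuous_of_discreteTopology (f := fun b : Bool => !b)).comp (continuous_apply α)
  · have : (fun x : Cube => flp α x γ) = fun x => x γ := by
      funext x
      rw [flp_ne _ _ _ h]
    rw [this]
    exact continuous_apply γ

theorem exists_gap (f : Cube → ℝ) (hf : Continuous f) (ε : ℝ) (hε : 0 < ε) :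
    ∃ (S : Finset Idx) (p q : ℚ), 0 ≤ q ∧ q < p ∧ Dep f S ε ∧
      (∀ α ∈ S, ∃ z, (p : ℝ) ≤ |f z - f (flp α z)|) ∧
      (∀ α, α ∉ S → ∀ z, |f z - f (flp α z)| ≤ q) := by
  classical
  obtain ⟨S0, hS0, hS0'⟩ := exists_min_dep f hf ε hε
  choose! z hz using hS0'
  obtain ⟨p0, hp0, hp0'⟩ := exists_pos_le S0 (fun α => |f (z α) - f (flp α (z α))|)
    (fun α hα => abs_pos.mpr (sub_ne_zero.mpr (hz α hα)))
  obtain ⟨T, hT⟩ := exists_dep f hf (p0 / 4) (by linarith)
  have hout : ∀ α, α ∉ T → ∀ z, |f z - f (flp α z)| ≤ p0 / 4 := by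
    intro α hα z
    apply hT
    intro γ hγ
    have : γ ≠ α := fun e => hα (e ▸ hγ)
    rw [flp_ne _ _ _ this]
  -- maxima of the oscillations
  have hmax : ∀ α, ∃ z, ∀ y, |f y - f (flp α y)| ≤ |f z - f (flp α z)| := by
    intro α
    have hc : Continuous fun y => |f y - f (flp α y)| := (hf.sub (hf.comp (cont_flp α))).abs
    obtain ⟨z, _, hz⟩ := isCompact_univ.exists_isMaxOn Set.univ_nonempty hc.continuousOn
    exact ⟨z, fun y => hz (Set.mem_univ y)⟩
  choose m hm using hmax
  obtain ⟨r, hr, hrp, hr'⟩ := exists_lt_bound T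
    (fun α => |f (m α) - f (flp α (m α))| < p0) (fun α => |f (m α) - f (flp α (m α))|) p0 (p0 / 4)
    (by linarith) (fun _ _ h => h)
  obtain ⟨q, hq1, hq2⟩ := exists_rat_btwn hrp
  obtain ⟨p, hp1, hp2⟩ := exists_rat_btwn hq2
  refine ⟨T.filter fun α => p0 ≤ |f (m α) - f (flp α (m α))|, p, q, ?_, ?_, ?_, ?_, ?_⟩
  · have : (0 : ℝ) ≤ q := by linarith
    exact_mod_cast this
  · exact_mod_cast hp1
  · apply hS0.mono
    intro α hα
    have h1 := hp0' α hα
    have h2 := hm α (z α)
    refine Finset.mem_filter.mpr ⟨?_, h1.trans h2⟩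
    by_contra hcon
    have h3 := hout α hcon (z α)
    linarith
  · intro α hα
    exact ⟨m α, hp2.le.trans (Finset.mem_filter.mp hα).2⟩
  · intro α hα y
    by_cases hαT : α ∈ T
    · have h1 : |f (m α) - f (flp α (m α))| < p0 := by
        by_contra hcon
        exact hα (Finset.mem_filter.mpr ⟨hαT, not_lt.mp hcon⟩)
      have h2 := hr' α hαT h1
      have h3 := hm α y
      linarith
    · have := hout α hαT y
      linarith

theorem exists_approx (f : Cube → ℝ) (T : Finset Idx) (ε δ : ℝ) (hδ : 0 < δ) (hT : Dep f T ε)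
    (n : ℕ) (t : Fin n → Idx) (ht : Function.Injective t) (P : Finset (Fin n))
    (hP : ∀ α ∈ T, ∃ j ∈ P, t j = α) :
    ∃ β : (Fin n → Bool) → ℚ, (∀ w w', (∀ j ∈ P, w j = w' j) → β w = β w') ∧
      ∀ x : Cube, |f x - β (fun j => x (t j))| ≤ ε + δ := by
  classical
  have h1 : ∀ x : Cube, ∃ r : ℚ, f x < r ∧ (r : ℝ) < f x + δ := fun x =>
    exists_rat_btwn (by linarith)
  choose g hg1 hg2 using h1
  let X : (Fin n → Bool) → Cube := fun w γ => if h : ∃ j ∈ P, t j = γ then w h.choose else false
  have hX : ∀ w, ∀ j ∈ P, X w (t j) = w j := by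
    intro w j hj
    have h : ∃ i ∈ P, t i = t j := ⟨j, hj, rfl⟩
    show (if h : ∃ i ∈ P, t i = t j then w h.choose else false) = w j
    rw [dif_pos h]
    congr 1
    exact ht h.choose_spec.2
  refine ⟨fun w => g (X w), ?_, ?_⟩
  · intro w w' hw
    have : X w = X w' := by
      funext γ
      show (if h : ∃ j ∈ P, t j = γ then w h.choose else false) =
        (if h : ∃ j ∈ P, t j = γ then w' h.choose else false)
      by_cases h : ∃ j ∈ P, t j = γ
      · rw [dif_pos h, dif_pos h]
        exact hw _ h.choose_spec.1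
      · rw [dif_neg h, dif_neg h]
    show g (X w) = g (X w')
    rw [this]
  · intro x
    have h2 : |f x - f (X fun j => x (t j))| ≤ ε := by
      apply hT
      intro α hα
      obtain ⟨j, hj, rfl⟩ := hP α hα
      exact (hX (fun j => x (t j)) j hj).symm
    have h3 := hg1 (X fun j => x (t j))
    have h4 := hg2 (X fun j => x (t j))
    rw [abs_le] at h2 ⊢
    constructor <;> linarith

end Pool.Agent.H20.Dyad
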