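import Pool.Agent.H20.DyadA

set_option autoImplicit false

namespace Pool.Agent.H20.Dyad

open Topology Filter

/-- `h` belongs to the piece with parameters and coordinates `t`. -/
def Good (N n : ℕ) (σ : Fin n → (Fin N → Bool)) (P : Finset (Fin n))
    (β β' : (Fin n → Bool) → ℚ) (p q ε : ℚ) (t : Fin n → Idx) (h : Cube → ℝ) : Prop :=
  Function.Injective σ ∧ 0 ≤ q ∧ q < p ∧ (∀ w w', (∀ j ∈ P, w j = w' j) → β w = β w') ∧
  (∀ j, (fun i : Fin N => t j i) = σ j) ∧
  (∀ x : Cube, |h x - β' (fun j => x (t j))| ≤ ((p : ℝ) - q) / 16) ∧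
  (∀ x : Cube, |h x - β (fun j => x (t j))| ≤ ε) ∧
  (∀ j ∈ P, ∃ z, (p : ℝ) ≤ |h z - h (flp (t j) z)|) ∧
  (∀ α, (∀ j ∈ P, t j ≠ α) → ∀ z, |h z - h (flp α z)| ≤ q)

open Classical in
/-- test points -/
noncomputable def tp (T : Finset Idx) (N : ℕ) (y : (T → Bool) × ((Fin N → Bool) → Bool)) : Cube :=
  fun α => if h : α ∈ T then y.1 ⟨α, h⟩ else y.2 fun i => α i

theorem tp_mem (T : Finset Idx) (N : ℕ) (y : (T → Bool) × ((Fin N → Bool) → Bool)) (α : Idx)
    (h : α ∈ T) : tp T N y α = y.1 ⟨α, h⟩ := by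
  classical
  simp [tp, h]

theorem tp_notMem (T : Finset Idx) (N : ℕ) (y : (T → Bool) × ((Fin N → Bool) → Bool)) (α : Idx)
    (h : α ∉ T) : tp T N y α = y.2 fun i => α i := by
  classical
  simp [tp, h]

theorem local_unique (f : Cp Cube) (N n : ℕ) (σ : Fin n → (Fin N → Bool)) (P : Finset (Fin n))
    (β β' : (Fin n → Bool) → ℚ) (p q ε : ℚ) :
    ∃ V : Set (Cp Cube), IsOpen V ∧ f ∈ V ∧ ∀ h1 ∈ V, ∀ h2 ∈ V, ∀ t1 t2 : Fin n → Idx,
      Good N n σ P β β' p q ε t1 h1.1 → Good N n σ P β β' p q ε t2 h2.1 →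
      ∀ j ∈ P, t1 j = t2 j := by
  classical
  by_cases hpq : 0 ≤ q ∧ q < p ∧ Function.Injective σ
  swap
  · refine ⟨Set.univ, isOpen_univ, Set.mem_univ _, ?_⟩
    intro h1 _ h2 _ t1 t2 hg1
    exact absurd ⟨hg1.2.1, hg1.2.2.1, hg1.1⟩ hpq
  obtain ⟨hq0, hqp, hσ⟩ := hpq
  have hq0' : (0 : ℝ) ≤ q := by exact_mod_cast hq0
  have hqp' : (q : ℝ) < p := by exact_mod_cast hqp
  set η : ℝ := ((p : ℝ) - q) / 16 with hη
  have hη0 : 0 < η := by rw [hη]; linarith
  obtain ⟨T, hT⟩ := exists_dep f.1 f.2 η hη0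
  let V : Set (Cp Cube) := ⋂ y : (T → Bool) × ((Fin N → Bool) → Bool),
    {h : Cp Cube | |h.1 (tp T N y) - f.1 (tp T N y)| < η}
  have hVo : IsOpen V := by
    apply isOpen_iInter_of_finite
    intro y
    refine isOpen_lt ?_ continuous_const
    exact (((continuous_apply (tp T N y)).comp continuous_subtype_val).sub continuous_const).abs
  have hVf : f ∈ V := by
    rw [Set.mem_iInter]
    intro y
    show |f.1 (tp T N y) - f.1 (tp T N y)| < η
    rw [sub_self, abs_zero]
    exact hη0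
  have hVtest : ∀ h ∈ V, ∀ y, |h.1 (tp T N y) - f.1 (tp T N y)| < η := by
    intro h hh y
    exact Set.mem_iInter.mp hh y
  -- injectivity of the coordinates
  have hinj : ∀ t : Fin n → Idx, (∀ j, (fun i : Fin N => t j i) = σ j) → Function.Injective t := by
    intro t ht i j hij
    apply hσ
    rw [← ht i, ← ht j, hij]
  -- choice of the test point reproducing a given pattern
  have hrho : ∀ w : Fin n → Bool, ∃ ρ : (Fin N → Bool) → Bool, ∀ j, ρ (σ j) = w j := by
    intro w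
    refine ⟨fun τ => if h : ∃ j, σ j = τ then w h.choose else false, ?_⟩
    intro j
    have h : ∃ i, σ i = σ j := ⟨j, rfl⟩
    show (if h : ∃ i, σ i = σ j then w h.choose else false) = w j
    rw [dif_pos h]
    congr 1
    exact hσ h.choose_spec
  -- step 1: the important coordinates lie in T
  have step1 : ∀ h ∈ V, ∀ t : Fin n → Idx, Good N n σ P β β' p q ε t h.1 →
      ∀ j ∈ P, t j ∈ T := by
    intro h hV t hg j hj
    obtain ⟨_, _, _, _, htσ, hβ', _, hosc, _⟩ := hg
    by_contra hcon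
    obtain ⟨z, hz⟩ := hosc j hj
    have htinj := hinj t htσ
    obtain ⟨ρ, hρ⟩ := hrho fun i => z (t i)
    obtain ⟨ρ', hρ'⟩ := hrho fun i => (flp (t j) z) (t i)
    let x := tp T N (fun γ => z γ, ρ)
    let x' := tp T N (fun γ => z γ, ρ')
    have hx : (fun i => x (t i)) = fun i => z (t i) := by
      funext i
      by_cases hi : t i ∈ T
      · exact tp_mem T N _ _ hi
      · show tp T N _ (t i) = _
        rw [tp_notMem T N _ _ hi]
        show ρ (fun k : Fin N => t i k) = z (t i)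
        rw [htσ i, hρ]
    have hx' : (fun i => x' (t i)) = fun i => (flp (t j) z) (t i) := by
      funext i
      by_cases hi : t i ∈ T
      · show tp T N _ (t i) = _
        rw [tp_mem T N _ _ hi, flp_ne]
        intro e
        exact hcon (e ▸ hi)
      · show tp T N _ (t i) = _
        rw [tp_notMem T N _ _ hi]
        show ρ' (fun k : Fin N => t i k) = _
        rw [htσ i, hρ']
    have e1 := hβ' x
    have e2 := hβ' x'
    have e3 := hβ' z
    have e4 := hβ' (flp (t j) z)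
    rw [hx] at e1
    rw [hx'] at e2
    have e5 := hVtest h hV (fun γ => z γ, ρ)
    have e6 := hVtest h hV (fun γ => z γ, ρ')
    have e7 : |f.1 x - f.1 x'| ≤ η := by
      apply hT
      intro α hα
      show tp T N _ α = tp T N _ α
      rw [tp_mem T N _ _ hα, tp_mem T N _ _ hα]
    change |h.1 x - f.1 x| < η at e5
    change |h.1 x' - f.1 x'| < η at e6
    rw [abs_le] at e1 e2 e3 e4 e7
    rw [abs_lt] at e5 e6
    rcases le_abs.mp hz with hz | hz <;> linarith
  refine ⟨V, hVo, hVf, ?_⟩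
  intro h1 hV1 h2 hV2 t1 t2 hg1 hg2 j hj
  by_contra hne
  have hjT := step1 h1 hV1 t1 hg1 j hj
  obtain ⟨_, _, _, _, htσ, hβ', _, hosc, _⟩ := hg1
  obtain ⟨_, _, _, _, htσ2, _, _, _, hout⟩ := hg2
  obtain ⟨z, hz⟩ := hosc j hj
  have htinj := hinj t1 htσ
  obtain ⟨ρ, hρ⟩ := hrho fun i => z (t1 i)
  let x := tp T N (fun γ => z γ, ρ)
  let x' := tp T N (fun γ => flp (t1 j) z γ, ρ)
  have hx : (fun i => x (t1 i)) = fun i => z (t1 i) := by
    funext i
    by_cases hi : t1 i ∈ T
    · exact tp_mem T N _ _ hi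
    · show tp T N _ (t1 i) = _
      rw [tp_notMem T N _ _ hi]
      show ρ (fun k : Fin N => t1 i k) = z (t1 i)
      rw [htσ i, hρ]
  have hx'eq : x' = flp (t1 j) x := by
    funext α
    by_cases hα : α ∈ T
    · show tp T N _ α = _
      rw [tp_mem T N _ _ hα]
      by_cases hαj : α = t1 j
      · show flp (t1 j) z α = _
        rw [hαj, flp_same, flp_same]
        have : x (t1 j) = z (t1 j) := tp_mem T N _ _ hjT
        rw [this]
      · show flp (t1 j) z α = _
        rw [flp_ne _ _ _ hαj, flp_ne _ _ _ hαj]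
        exact (tp_mem T N (fun γ => z γ, ρ) α hα).symm
    · show tp T N _ α = _
      have hαj : α ≠ t1 j := fun e => hα (e ▸ hjT)
      rw [tp_notMem T N _ _ hα, flp_ne _ _ _ hαj]
      exact (tp_notMem T N (fun γ => z γ, ρ) α hα).symm
  have hx' : (fun i => x' (t1 i)) = fun i => (flp (t1 j) z) (t1 i) := by
    funext i
    rw [hx'eq]
    by_cases hi : i = j
    · rw [hi, flp_same, flp_same]
      have this : x (t1 j) = z (t1 j) := congrFun hx j
      rw [this]
    · have hne' : t1 i ≠ t1 j := fun e => hi (htinj e)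
      rw [flp_ne _ _ _ hne', flp_ne _ _ _ hne']
      exact congrFun hx i
  have e1 := hβ' x
  have e2 := hβ' x'
  have e3 := hβ' z
  have e4 := hβ' (flp (t1 j) z)
  rw [hx] at e1
  rw [hx'] at e2
  have e5 := hVtest h1 hV1 (fun γ => z γ, ρ)
  have e6 := hVtest h1 hV1 (fun γ => flp (t1 j) z γ, ρ)
  have e7 := hVtest h2 hV2 (fun γ => z γ, ρ)
  have e8 := hVtest h2 hV2 (fun γ => flp (t1 j) z γ, ρ)
  change |h1.1 x - f.1 x| < η at e5
  change |h1.1 x' - f.1 x'| < η at e6
  change |h2.1 x - f.1 x| < η at e7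
  change |h2.1 x' - f.1 x'| < η at e8
  have e9 : |h2.1 x - h2.1 x'| ≤ q := by
    rw [hx'eq]
    apply hout
    intro i hi e
    by_cases hij : i = j
    · exact hne (by rw [← e, hij])
    · apply hij
      apply hσ
      rw [← htσ2 i, ← htσ j, e]
  rw [abs_le] at e1 e2 e3 e4 e9
  rw [abs_lt] at e5 e6 e7 e8
  rcases le_abs.mp hz with hz | hz <;> linarith

end Pool.Agent.H20.Dyad
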