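import Pool.Agent.H20.DyadB

set_option autoImplicit false

namespace Pool.Agent.H20.Dyad

open Topology Filter

theorem exists_level (n : ℕ) (t : Fin n → Idx) (ht : Function.Injective t) :
    ∃ N : ℕ, Function.Injective fun (j : Fin n) (i : Fin N) => t j i := by
  classical
  have h : ∀ p : Fin n × Fin n, ∃ k : ℕ, p.1 ≠ p.2 → t p.1 k ≠ t p.2 k := by
    intro p
    by_cases hp : p.1 = p.2
    · exact ⟨0, fun h => absurd hp h⟩
    · obtain ⟨k, hk⟩ := Function.ne_iff.mp (fun e => hp (ht e) : t p.1 ≠ t p.2)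
      exact ⟨k, fun _ => hk⟩
  choose k hk using h
  refine ⟨(Finset.univ.sup k) + 1, ?_⟩
  intro i j hij
  by_contra hne
  apply hk (i, j) hne
  have hlt : k (i, j) < Finset.univ.sup k + 1 :=
    Nat.lt_succ_of_le (Finset.le_sup (f := k) (Finset.mem_univ (i, j)))
  exact congrFun hij ⟨k (i, j), hlt⟩

theorem exists_good (f : Cp Cube) (ε : ℚ) (hε : 0 < ε) :
    ∃ (N n : ℕ) (σ : Fin n → (Fin N → Bool)) (P : Finset (Fin n))
      (β β' : (Fin n → Bool) → ℚ) (p q : ℚ) (t : Fin n → Idx),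
      Good N n σ P β β' p q ε t f.1 := by
  classical
  have hε' : (0 : ℝ) < ε := by exact_mod_cast hε
  obtain ⟨S, p, q, hq0, hqp, hS, hS1, hS2⟩ := exists_gap f.1 f.2 ((ε : ℝ) / 2) (by linarith)
  have hqp' : (q : ℝ) < p := by exact_mod_cast hqp
  have hη : (0 : ℝ) < ((p : ℝ) - q) / 32 := by linarith
  obtain ⟨T, hT⟩ := exists_dep f.1 f.2 (((p : ℝ) - q) / 32) hη
  let S' : Finset Idx := S ∪ T
  let t : Fin S'.card → Idx := fun i => (S'.equivFin.symm i).1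
  have ht : Function.Injective t := by
    intro i j hij
    exact S'.equivFin.symm.injective (Subtype.ext hij)
  have hts : ∀ α ∈ S', ∃ j, t j = α := by
    intro α hα
    refine ⟨S'.equivFin ⟨α, hα⟩, ?_⟩
    show (S'.equivFin.symm (S'.equivFin ⟨α, hα⟩)).1 = α
    rw [Equiv.symm_apply_apply]
  let P : Finset (Fin S'.card) := Finset.univ.filter fun j => t j ∈ S
  obtain ⟨N, hN⟩ := exists_level _ t ht
  obtain ⟨β, hβ1, hβ2⟩ := exists_approx f.1 S ((ε : ℝ) / 2) ((ε : ℝ) / 2) (by linarith) hS _ t ht P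
    (by
      intro α hα
      obtain ⟨j, hj⟩ := hts α (Finset.mem_union_left _ hα)
      exact ⟨j, Finset.mem_filter.mpr ⟨Finset.mem_univ _, by rw [hj]; exact hα⟩, hj⟩)
  obtain ⟨β', _, hβ'2⟩ := exists_approx f.1 T (((p : ℝ) - q) / 32) (((p : ℝ) - q) / 32) hη hT _ t ht
    Finset.univ (by
      intro α hα
      obtain ⟨j, hj⟩ := hts α (Finset.mem_union_right _ hα)
      exact ⟨j, Finset.mem_univ _, hj⟩)
  refine ⟨N, S'.card, fun j i => t j i, P, β, β', p, q, t, hN, hq0, hqp, hβ1, fun _ => rfl,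
    ?_, ?_, ?_, ?_⟩
  · intro x
    have := hβ'2 x
    have e : ((p : ℝ) - q) / 32 + ((p : ℝ) - q) / 32 = ((p : ℝ) - q) / 16 := by ring
    rwa [e] at this
  · intro x
    have := hβ2 x
    have e : (ε : ℝ) / 2 + (ε : ℝ) / 2 = ε := by ring
    rwa [e] at this
  · intro j hj
    exact hS1 (t j) (Finset.mem_filter.mp hj).2
  · intro α hα z
    apply hS2
    intro hαS
    obtain ⟨j, hj⟩ := hts α (Finset.mem_union_left _ hαS)
    exact hα j (Finset.mem_filter.mpr ⟨Finset.mem_univ _, by rw [hj]; exact hαS⟩) hj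

/-- the countable set of parameters -/
abbrev Par : Type := Σ N : ℕ, Σ n : ℕ, (Fin n → Fin N → Bool) × Finset (Fin n) ×
  ((Fin n → Bool) → ℚ) × ((Fin n → Bool) → ℚ) × ℚ × ℚ × ℚ

instance : Countable Par := inferInstance

instance : Nonempty Par :=
  ⟨⟨0, 0, fun i => i.elim0, ∅, fun _ => 0, fun _ => 0, 0, 0, 0⟩⟩

/-- the piece with given parameters and given important coordinates -/
def Pc (π : Par) (s : Fin π.2.1 → Idx) : Set (Cp Cube) :=
  {h | ∃ t, Good π.1 π.2.1 π.2.2.1 π.2.2.2.1 π.2.2.2.2.1 π.2.2.2.2.2.1 π.2.2.2.2.2.2.1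
    π.2.2.2.2.2.2.2.1 π.2.2.2.2.2.2.2.2 t h.1 ∧ ∀ j ∈ π.2.2.2.1, t j = s j}

theorem Pc_congr (π : Par) (s s' : Fin π.2.1 → Idx) (h : ∀ j ∈ π.2.2.2.1, s j = s' j) :
    Pc π s = Pc π s' := by
  ext g
  constructor
  · rintro ⟨t, h1, h2⟩
    exact ⟨t, h1, fun j hj => (h2 j hj).trans (h j hj)⟩
  · rintro ⟨t, h1, h2⟩
    exact ⟨t, h1, fun j hj => (h2 j hj).trans (h j hj).symm⟩

theorem cont_eval (x : Cube) : Continuous fun h : Cp Cube => h.1 x :=
  (continuous_apply x).comp continuous_subtype_val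

theorem Pc_small (π : Par) (s : Fin π.2.1 → Idx) (g h : Cp Cube) (hg : g ∈ closure (Pc π s))
    (hh : h ∈ closure (Pc π s)) (x : Cube) : |g.1 x - h.1 x| ≤ 2 * π.2.2.2.2.2.2.2.2 := by
  have hne : (Pc π s).Nonempty := by
    by_contra hcon
    rw [Set.not_nonempty_iff_eq_empty] at hcon
    rw [hcon, closure_empty] at hg
    exact hg
  obtain ⟨g0, t0, hg0, ht0⟩ := hne
  have hsub : Pc π s ⊆ {k : Cp Cube | |k.1 x - π.2.2.2.2.1 (fun j => x (t0 j))| ≤
      π.2.2.2.2.2.2.2.2} := by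
    rintro k ⟨t, hk, ht⟩
    have h1 := hk.2.2.2.2.2.2.1 x
    have h2 : π.2.2.2.2.1 (fun j => x (t j)) = π.2.2.2.2.1 (fun j => x (t0 j)) := by
      apply hk.2.2.2.1
      intro j hj
      rw [ht j hj, ht0 j hj]
    rw [h2] at h1
    exact h1
  have hcl : IsClosed {k : Cp Cube | |k.1 x - π.2.2.2.2.1 (fun j => x (t0 j))| ≤
      π.2.2.2.2.2.2.2.2} :=
    isClosed_le ((cont_eval x).sub continuous_const).abs continuous_const
  have h1 := closure_minimal hsub hcl hg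
  have h2 := closure_minimal hsub hcl hh
  simp only [Set.mem_setOf_eq] at h1 h2
  rw [abs_le] at h1 h2 ⊢
  constructor <;> linarith

/-- a family of sets is discrete: every point has a neighbourhood meeting at most one member -/
def DiscreteFamily {Z : Type} [TopologicalSpace Z] (F : Set (Set Z)) : Prop :=
  ∀ z : Z, ∃ V ∈ 𝓝 z, ∀ A ∈ F, ∀ B ∈ F, (A ∩ V).Nonempty → (B ∩ V).Nonempty → A = B

/-- a space is subparacompact: every open cover has a closed refinement that is the union of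
countably many discrete families -/
def Subparacompact (Z : Type) [TopologicalSpace Z] : Prop :=
  ∀ U : Set (Set Z), (∀ A ∈ U, IsOpen A) → (∀ z : Z, ∃ A ∈ U, z ∈ A) →
    ∃ F : ℕ → Set (Set Z), (∀ n, DiscreteFamily (F n)) ∧
      (∀ n, ∀ B ∈ F n, IsClosed B ∧ ∃ A ∈ U, B ⊆ A) ∧ ∀ z : Z, ∃ n, ∃ B ∈ F n, z ∈ B

theorem exists_small (f : Cp Cube) (W : Set (Cp Cube)) (hW : IsOpen W) (hf : f ∈ W) :
    ∃ (π : Par) (s : Fin π.2.1 → Idx), f ∈ Pc π s ∧ closure (Pc π s) ⊆ W := by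
  classical
  obtain ⟨W', hW', rfl⟩ := isOpen_induced_iff.mp hW
  rw [isOpen_pi_iff] at hW'
  obtain ⟨Q, u, hu, hsub⟩ := hW' f.1 hf
  have h1 : ∀ x, ∃ δ : ℝ, 0 < δ ∧ (x ∈ Q → Metric.ball (f.1 x) δ ⊆ u x) := by
    intro x
    by_cases hx : x ∈ Q
    · obtain ⟨δ, hδ, h⟩ := Metric.isOpen_iff.mp (hu x hx).1 _ (hu x hx).2
      exact ⟨δ, hδ, fun _ => h⟩
    · exact ⟨1, one_pos, fun h => absurd h hx⟩
  choose δ hδ hball using h1
  obtain ⟨p, hp, hp'⟩ := exists_pos_le' Q δ (fun x _ => hδ x)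
  obtain ⟨ε, hε0, hε⟩ := exists_rat_btwn (show (0 : ℝ) < p / 2 by linarith)
  obtain ⟨N, n, σ, P, β, β', a, b, t, hg⟩ := exists_good f ε (by exact_mod_cast hε0)
  refine ⟨⟨N, n, σ, P, β, β', a, b, ε⟩, t, ⟨t, hg, fun _ _ => rfl⟩, ?_⟩
  intro h hh
  apply hsub
  intro x hx
  apply hball x hx
  have h2 := Pc_small ⟨N, n, σ, P, β, β', a, b, ε⟩ t h f hh
    (subset_closure ⟨t, hg, fun _ _ => rfl⟩) x
  rw [Metric.mem_ball, Real.dist_eq]
  have h3 := hp' x hx
  simp only at h2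
  linarith

end Pool.Agent.H20.Dyad
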