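import Pool.Agent.H20.DyadC

set_option autoImplicit false

namespace Pool.Agent.H20.Dyad

open Topology Filter

theorem subpara (Y : Set (Cp Cube)) : Subparacompact Y := by
  classical
  intro U hU hcov
  obtain ⟨e, he⟩ := exists_surjective_nat Par
  refine ⟨fun n => {B : Set Y | ∃ s, B = Subtype.val ⁻¹' closure (Pc (e n) s) ∧ ∃ A ∈ U, B ⊆ A},
    ?_, ?_, ?_⟩
  · intro n z
    obtain ⟨V, hVo, hzV, hV⟩ := local_unique z.1 (e n).1 (e n).2.1 (e n).2.2.1 (e n).2.2.2.1
      (e n).2.2.2.2.1 (e n).2.2.2.2.2.1 (e n).2.2.2.2.2.2.1 (e n).2.2.2.2.2.2.2.1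
      (e n).2.2.2.2.2.2.2.2
    refine ⟨Subtype.val ⁻¹' V, (hVo.preimage continuous_subtype_val).mem_nhds hzV, ?_⟩
    rintro A ⟨s, rfl, _⟩ B ⟨s', rfl, _⟩ ⟨y, hy, hyV⟩ ⟨y', hy', hyV'⟩
    obtain ⟨h1, hh1V, t1, hg1, ht1⟩ := mem_closure_iff.mp hy V hVo hyV
    obtain ⟨h2, hh2V, t2, hg2, ht2⟩ := mem_closure_iff.mp hy' V hVo hyV'
    rw [Pc_congr (e n) s s']
    intro j hj
    rw [← ht1 j hj, ← ht2 j hj]
    exact hV h1 hh1V h2 hh2V t1 t2 hg1 hg2 j hj
  · rintro n B ⟨s, rfl, A, hA, hBA⟩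
    exact ⟨isClosed_closure.preimage continuous_subtype_val, A, hA, hBA⟩
  · intro z
    obtain ⟨A, hA, hzA⟩ := hcov z
    obtain ⟨W, hW, hWA⟩ := isOpen_induced_iff.mp (hU A hA)
    have hzW : z.1 ∈ W := by
      have : z ∈ Subtype.val ⁻¹' W := by rw [hWA]; exact hzA
      exact this
    obtain ⟨π, s, h1, h2⟩ := exists_small z.1 W hW hzW
    obtain ⟨n, hn⟩ := he π
    subst hn
    refine ⟨n, _, ⟨s, rfl, A, hA, ?_⟩, subset_closure h1⟩
    intro y hy
    rw [← hWA]
    exact h2 hy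

theorem not_metrizable : ¬ TopologicalSpace.MetrizableSpace Cube := by
  classical
  intro hm
  let x0 : Cube := fun _ => false
  obtain ⟨B, hB⟩ := (𝓝 x0).exists_antitone_basis
  have h1 : ∀ n, ∃ T : Finset Idx, ∀ y : Cube, (∀ α ∈ T, y α = false) → y ∈ B n := by
    intro n
    obtain ⟨W, hWB, hW, hx0⟩ := mem_nhds_iff.mp (hB.toHasBasis.mem_of_mem (i := n) trivial)
    rw [isOpen_pi_iff] at hW
    obtain ⟨T, u, hu, hsub⟩ := hW x0 hx0
    refine ⟨T, fun y hy => hWB (hsub ?_)⟩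
    intro α hα
    rw [hy α hα]
    exact (hu α hα).2
  choose T hT using h1
  have hc : (⋃ n, (T n : Set Idx)).Countable :=
    Set.countable_iUnion fun n => (T n).countable_toSet
  have hne : ∃ α : Idx, α ∉ ⋃ n, (T n : Set Idx) := by
    by_contra hcon
    push Not at hcon
    have : (Set.univ : Set Idx).Countable := hc.mono fun α _ => hcon α
    have h2 : Countable Idx := Set.countable_univ_iff.mp this
    obtain ⟨g, hg⟩ := exists_surjective_nat Idx
    obtain ⟨k, hk⟩ := hg fun n => !(g n n)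
    have h3 : g k k = !(g k k) := congrFun hk k
    cases h4 : g k k <;> rw [h4] at h3 <;> exact absurd h3 (by decide)
  obtain ⟨α, hα⟩ := hne
  have hV : {y : Cube | y α = false} ∈ 𝓝 x0 := by
    have hc : Continuous fun y : Cube => y α := continuous_apply α
    have : IsOpen {y : Cube | y α = false} :=
      (isOpen_discrete ({false} : Set Bool)).preimage hc
    exact this.mem_nhds rfl
  obtain ⟨n, _, hn⟩ := hB.toHasBasis.mem_iff.mp hV
  have h3 : Function.update x0 α true ∈ B n := by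
    apply hT n
    intro γ hγ
    have : γ ≠ α := by
      intro e
      exact hα (Set.mem_iUnion.mpr ⟨n, e ▸ hγ⟩)
    rw [Function.update_of_ne this]
  have h4 : Function.update x0 α true α = false := hn h3
  rw [Function.update_self] at h4
  exact absurd h4 (by decide)

end Pool.Agent.H20.Dyad
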