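import Mathlib

set_option autoImplicit false

namespace Pool.Agent.H20.EqLines

open Module Polynomial

theorem sq_sum_swap {ι κ : Type} [Fintype ι] [Fintype κ] (x : ι → κ → ℝ) :
    ∑ k, ∑ l, (∑ i, x i k * x i l) ^ 2 = ∑ i, ∑ j, (∑ k, x i k * x j k) ^ 2 := by
  have h1 : ∀ k l, (∑ i, x i k * x i l) ^ 2 = ∑ i, ∑ j, (x i k * x i l) * (x j k * x j l) := by
    intro k l
    rw [sq, Finset.sum_mul_sum]
  have h2 : ∀ i j, (∑ k, x i k * x j k) ^ 2 = ∑ k, ∑ l, (x i k * x j k) * (x i l * x j l) := by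
    intro i j
    rw [sq, Finset.sum_mul_sum]
  simp_rw [h1, h2]
  calc ∑ k, ∑ l, ∑ i, ∑ j, (x i k * x i l) * (x j k * x j l)
      = ∑ k, ∑ i, ∑ l, ∑ j, (x i k * x i l) * (x j k * x j l) := by
        refine Finset.sum_congr rfl fun k _ => Finset.sum_comm
    _ = ∑ i, ∑ k, ∑ l, ∑ j, (x i k * x i l) * (x j k * x j l) := Finset.sum_comm
    _ = ∑ i, ∑ k, ∑ j, ∑ l, (x i k * x i l) * (x j k * x j l) := by
        refine Finset.sum_congr rfl fun i _ => Finset.sum_congr rfl fun k _ => Finset.sum_comm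
    _ = ∑ i, ∑ j, ∑ k, ∑ l, (x i k * x i l) * (x j k * x j l) := by
        refine Finset.sum_congr rfl fun i _ => Finset.sum_comm
    _ = _ := by
        refine Finset.sum_congr rfl fun i _ => Finset.sum_congr rfl fun j _ =>
          Finset.sum_congr rfl fun k _ => Finset.sum_congr rfl fun l _ => by ring

theorem rel_bound {E : Type} [NormedAddCommGroup E] [InnerProductSpace ℝ E]
    [FiniteDimensional ℝ E] {ι : Type} [Fintype ι] (v : ι → E) :
    (∑ i, ‖v i‖ ^ 2) ^ 2 ≤ (finrank ℝ E : ℝ) * ∑ i, ∑ j, (@inner ℝ _ _ (v i) (v j)) ^ 2 := by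
  let b := stdOrthonormalBasis ℝ E
  let x : ι → Fin (finrank ℝ E) → ℝ := fun i k => @inner ℝ _ _ (v i) (b k)
  have hin : ∀ i j, @inner ℝ _ _ (v i) (v j) = ∑ k, x i k * x j k := by
    intro i j
    rw [← b.sum_inner_mul_inner (v i) (v j)]
    refine Finset.sum_congr rfl fun k _ => ?_
    simp only [x]
    rw [real_inner_comm (b k) (v j)]
  have hno : ∀ i, ‖v i‖ ^ 2 = ∑ k, x i k * x i k := by
    intro i
    rw [← hin i i, real_inner_self_eq_norm_sq]
  have h1 : ∑ i, ‖v i‖ ^ 2 = ∑ k, ∑ i, x i k * x i k := by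
    simp_rw [hno]
    exact Finset.sum_comm
  have h2 : (∑ k, ∑ i, x i k * x i k) ^ 2 ≤
      (finrank ℝ E : ℝ) * ∑ k, (∑ i, x i k * x i k) ^ 2 := by
    have := sq_sum_le_card_mul_sum_sq (s := (Finset.univ : Finset (Fin (finrank ℝ E))))
      (f := fun k => ∑ i, x i k * x i k)
    simpa using this
  have h3 : ∑ k, (∑ i, x i k * x i k) ^ 2 ≤ ∑ k, ∑ l, (∑ i, x i k * x i l) ^ 2 := by
    refine Finset.sum_le_sum fun k _ => ?_
    exact Finset.single_le_sum (f := fun l => (∑ i, x i k * x i l) ^ 2)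
      (fun l _ => sq_nonneg _) (Finset.mem_univ k)
  rw [sq_sum_swap x] at h3
  simp_rw [← hin] at h3
  rw [h1]
  refine h2.trans ?_
  exact mul_le_mul_of_nonneg_left h3 (Nat.cast_nonneg _)

theorem rootMult_pow (q : ℝ[X]) (hq : q ≠ 0) (c : ℝ) (j : ℕ) :
    rootMultiplicity c (q ^ j) = j * rootMultiplicity c q := by
  induction j with
  | zero => simp
  | succ j ih =>
    rw [pow_succ, rootMultiplicity_mul (mul_ne_zero (pow_ne_zero _ hq) hq), ih]
    ring

/-- A real root of a monic integer polynomial of degree `n` of multiplicity more than `n/2` is an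
integer. -/
theorem root_integer (p : ℤ[X]) (hp : p.Monic) (c : ℝ) (k : ℕ)
    (hdvd : (X - C c) ^ k ∣ p.map (Int.castRingHom ℝ)) (hk : p.natDegree < 2 * k) :
    ∃ z : ℤ, (z : ℝ) = c := by
  have hk0 : 0 < k := by omega
  have hroot : (p.map (Int.castRingHom ℝ)).eval c = 0 := by
    obtain ⟨q, hq⟩ := hdvd
    rw [hq]
    simp [hk0.ne']
  have hint : IsIntegral ℤ c := by
    refine ⟨p, hp, ?_⟩
    rw [← hroot, eval_map]
    rfl
  have hintQ : IsIntegral ℚ c := hint.tower_top
  set q := minpoly ℚ c with hq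
  set P : ℚ[X] := p.map (Int.castRingHom ℚ) with hP
  have hPR : P.map (algebraMap ℚ ℝ) = p.map (Int.castRingHom ℝ) := by
    rw [hP, Polynomial.map_map]
    congr 1
  have hPm : P.Monic := hp.map _
  have hqirr : Irreducible q := minpoly.irreducible hintQ
  have hsep : (q.map (algebraMap ℚ ℝ)).Separable := hqirr.separable.map
  have hqne : q.map (algebraMap ℚ ℝ) ≠ 0 :=
    (Polynomial.map_ne_zero_iff (algebraMap ℚ ℝ).injective).mpr hqirr.ne_zero
  have hone : rootMultiplicity c (q.map (algebraMap ℚ ℝ)) ≤ 1 :=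
    rootMultiplicity_le_one_of_separable hsep c
  have hPRne : P.map (algebraMap ℚ ℝ) ≠ 0 := (hPm.map _).ne_zero
  have hmul : k ≤ rootMultiplicity c (P.map (algebraMap ℚ ℝ)) := by
    rw [hPR] at hPRne ⊢
    exact (le_rootMultiplicity_iff hPRne).mpr hdvd
  have key : ∀ j : ℕ, j ≤ k → q ^ j ∣ P := by
    intro j
    induction j with
    | zero => intro _; simp
    | succ j ih =>
      intro hj
      obtain ⟨R, hR⟩ := ih (by omega)
      have hRne : R.map (algebraMap ℚ ℝ) ≠ 0 := by
        intro h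
        apply hPRne
        rw [hR, Polynomial.map_mul, h, mul_zero]
      have h1 : rootMultiplicity c (P.map (algebraMap ℚ ℝ)) =
          j * rootMultiplicity c (q.map (algebraMap ℚ ℝ)) +
          rootMultiplicity c (R.map (algebraMap ℚ ℝ)) := by
        rw [hR, Polynomial.map_mul, Polynomial.map_pow, rootMultiplicity_mul
          (mul_ne_zero (pow_ne_zero _ hqne) hRne)]
        congr 1
        exact rootMult_pow _ hqne _ _
      have h2 : 0 < rootMultiplicity c (R.map (algebraMap ℚ ℝ)) := by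
        have : j * rootMultiplicity c (q.map (algebraMap ℚ ℝ)) ≤ j * 1 :=
          Nat.mul_le_mul_left _ hone
        omega
      have h3 : IsRoot (R.map (algebraMap ℚ ℝ)) c := (rootMultiplicity_pos hRne).mp h2
      have h4 : q ∣ R := by
        apply minpoly.dvd
        rw [IsRoot.def, eval_map] at h3
        rw [aeval_def]
        exact h3
      rw [hR, pow_succ]
      exact mul_dvd_mul_left _ h4
  have hdeg : (q ^ k).natDegree ≤ P.natDegree := natDegree_le_of_dvd (key k le_rfl) hPm.ne_zero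
  rw [natDegree_pow, hP, hp.natDegree_map] at hdeg
  have hpos : 0 < q.natDegree := minpoly.natDegree_pos hintQ
  have hq1 : q.natDegree = 1 := by
    by_contra h
    have h2 : 2 ≤ q.natDegree := by omega
    have : k * 2 ≤ k * q.natDegree := Nat.mul_le_mul_left _ h2
    omega
  obtain ⟨y, hy⟩ := minpoly.natDegree_eq_one_iff.mp hq1
  have hy' : (algebraMap ℚ ℝ) y = c := hy
  have hyint : IsIntegral ℤ y := by
    rw [← hy'] at hint
    exact (isIntegral_algebraMap_iff (algebraMap ℚ ℝ).injective).mp hint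
  obtain ⟨z, hz⟩ := IsIntegrallyClosed.isIntegral_iff.mp hyint
  refine ⟨z, ?_⟩
  rw [← hy', ← hz]
  simp

end Pool.Agent.H20.EqLines
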