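import Pool.Agent.H20.EqLinesA

set_option autoImplicit false

namespace Pool.Agent.H20.EqLines

open Module Polynomial

/-- sign matrix of an equiangular system -/
noncomputable def signMat {n r : ℕ} (v : Fin n → EuclideanSpace ℝ (Fin r)) :
    Matrix (Fin n) (Fin n) ℤ :=
  fun i j => if i = j then 0 else if 0 ≤ @inner ℝ _ _ (v i) (v j) then 1 else -1

theorem signMat_spec {n r : ℕ} (v : Fin n → EuclideanSpace ℝ (Fin r)) (c : ℝ) (hc : 0 < c)
    (h1 : ∀ i, ‖v i‖ = 1) (h2 : ∀ i j, i ≠ j → |@inner ℝ _ _ (v i) (v j)| = c) (i j : Fin n) :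
    ((signMat v i j : ℤ) : ℝ) = c⁻¹ * @inner ℝ _ _ (v i) (v j) - if i = j then c⁻¹ else 0 := by
  unfold signMat
  by_cases hij : i = j
  · subst hij
    simp [h1]
  · rw [if_neg hij, if_neg hij]
    have h := h2 i j hij
    split_ifs with h0
    · rw [abs_of_nonneg h0] at h
      rw [h]
      simp [hc.ne']
    · rw [abs_of_neg (not_le.mp h0)] at h
      have : @inner ℝ _ _ (v i) (v j) = -c := by linarith
      rw [this]
      simp [hc.ne']

theorem inv_integer {n r : ℕ} (hnr : 2 * r < n) (v : Fin n → EuclideanSpace ℝ (Fin r)) (c : ℝ)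
    (hc : 0 < c) (h1 : ∀ i, ‖v i‖ = 1)
    (h2 : ∀ i j, i ≠ j → |@inner ℝ _ _ (v i) (v j)| = c) : ∃ z : ℤ, (z : ℝ) = c⁻¹ := by
  let A : Matrix (Fin n) (Fin r) ℝ := fun i k => c⁻¹ * v i k
  let B : Matrix (Fin r) (Fin n) ℝ := fun k j => v j k
  have hS : (signMat v).map (Int.castRingHom ℝ) = A * B - Matrix.scalar (Fin n) c⁻¹ := by
    ext i j
    rw [Matrix.map_apply, Matrix.sub_apply, Matrix.mul_apply]
    have := signMat_spec v c hc h1 h2 i j
    simp only [eq_intCast]
    rw [this]
    congr 1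
    rw [PiLp.inner_apply, Finset.mul_sum]
    refine Finset.sum_congr rfl fun k _ => ?_
    simp only [A, B]
    simp
    ring
  have hch : ((signMat v).charpoly).map (Int.castRingHom ℝ) =
      (X + C c⁻¹) ^ (n - r) * (B * A).charpoly.comp (X + C c⁻¹) := by
    rw [← Matrix.charpoly_map, hS, Matrix.charpoly_sub_scalar,
      Matrix.charpoly_mul_comm_of_le A B (by simp; omega)]
    simp
  obtain ⟨z, hz⟩ := root_integer (signMat v).charpoly (Matrix.charpoly_monic _) (-c⁻¹) (n - r)
    (by
      rw [hch]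
      have h3 : (X - C (-c⁻¹) : ℝ[X]) = X + C c⁻¹ := by simp
      rw [h3]
      exact dvd_mul_right _ _) (by
      rw [Matrix.charpoly_natDegree_eq_dim]
      simp
      omega)
  refine ⟨-z, ?_⟩
  push_cast
  rw [hz]
  ring

def M14 : Matrix (Fin 14) (Fin 14) (ZMod 2) := fun i j => if i = j then 0 else 1

theorem M14_sq : M14 * M14 = 1 := by
  decide +kernel

theorem inv_odd {n : ℕ} (hn : 14 ≤ n) (v : Fin n → EuclideanSpace ℝ (Fin 13)) (c : ℝ)
    (hc : 0 < c) (h1 : ∀ i, ‖v i‖ = 1)
    (h2 : ∀ i j, i ≠ j → |@inner ℝ _ _ (v i) (v j)| = c) (z : ℤ) (hz : (z : ℝ) = c⁻¹) :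
    ¬ (2 ∣ z) := by
  intro hdvd
  let w : Fin 14 → EuclideanSpace ℝ (Fin 13) := fun i => v (Fin.castLE hn i)
  have hw1 : ∀ i, ‖w i‖ = 1 := fun i => h1 _
  have hw2 : ∀ i j, i ≠ j → |@inner ℝ _ _ (w i) (w j)| = c := by
    intro i j hij
    exact h2 _ _ fun h => hij (Fin.castLE_injective hn h)
  let D : Matrix (Fin 14) (Fin 14) ℤ := fun i j => signMat w i j + if i = j then z else 0
  have hD : ∀ i j, ((D i j : ℤ) : ℝ) = c⁻¹ * @inner ℝ _ _ (w i) (w j) := by
    intro i j
    simp only [D]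
    push_cast
    rw [signMat_spec w c hc hw1 hw2 i j]
    by_cases h : i = j
    · simp only [h, if_true]
      rw [hz]
      ring
    · simp only [h, if_false]
      simp
  have hdep : ¬ LinearIndependent ℝ w := by
    intro h
    have := h.fintype_card_le_finrank
    simp at this
  rw [Fintype.not_linearIndependent_iff] at hdep
  obtain ⟨g, hg, i0, hi0⟩ := hdep
  have hdet : (D.map (Int.castRingHom ℝ)).det = 0 := by
    rw [← Matrix.exists_mulVec_eq_zero_iff]
    refine ⟨g, fun h => hi0 (by rw [h]; rfl), ?_⟩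
    ext i
    rw [Matrix.mulVec, dotProduct]
    have h3 : ∀ j, (D.map (Int.castRingHom ℝ)) i j * g j =
        c⁻¹ * @inner ℝ _ _ (w i) (g j • w j) := by
      intro j
      rw [Matrix.map_apply, inner_smul_right]
      simp only [eq_intCast]
      rw [hD i j]
      ring
    simp_rw [h3]
    rw [← Finset.mul_sum, ← inner_sum, hg]
    simp
  have hdetZ : D.det = 0 := by
    have h4 : (Int.castRingHom ℝ) D.det = (D.map (Int.castRingHom ℝ)).det := by
      rw [RingHom.map_det]
      rfl
    rw [hdet] at h4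
    simpa using h4
  have hmod : D.map (Int.castRingHom (ZMod 2)) = M14 := by
    ext i j
    rw [Matrix.map_apply]
    simp only [D, M14, signMat]
    have hz2 : ((z : ℤ) : ZMod 2) = 0 := by
      rw [ZMod.intCast_zmod_eq_zero_iff_dvd]
      exact_mod_cast hdvd
    by_cases h : i = j
    · simp only [h, if_true]
      simp [hz2]
    · simp only [h, if_false]
      split_ifs
      · simp
      · simp
  have h5 : M14.det = 0 := by
    rw [← hmod]
    have h4 : (Int.castRingHom (ZMod 2)) D.det = (D.map (Int.castRingHom (ZMod 2))).det := by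
      rw [RingHom.map_det]
      rfl
    rw [← h4, hdetZ]
    simp
  have h6 := congrArg Matrix.det M14_sq
  rw [Matrix.det_mul, h5, Matrix.det_one] at h6
  simp at h6

end Pool.Agent.H20.EqLines
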