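import Mathlib

set_option autoImplicit false

namespace Pool.Agent.H20.EqLines

open Module

variable {E : Type} [NormedAddCommGroup E] [InnerProductSpace ℝ E]


theorem frame_bound {ι : Type} [DecidableEq ι] (T : Finset ι) (c : ι → E)
    (h1 : ∀ x ∈ T, (@inner ℝ _ _ (c x) (c x)) = 2 / 3)
    (h2 : ∀ x ∈ T, ∀ y ∈ T, x ≠ y → (@inner ℝ _ _ (c x) (c y)) = 0 ∨ (@inner ℝ _ _ (c x) (c y)) = -(2 / 3)) (u : E) :
    ∑ x ∈ T, (@inner ℝ _ _ (u) (c x)) ^ 2 ≤ 4 / 3 * ‖u‖ ^ 2 := by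
  set a : ι → ℝ := fun x => (@inner ℝ _ _ (u) (c x)) with ha
  set z : E := ∑ x ∈ T, a x • c x with hz
  have huz : (@inner ℝ _ _ (u) (z)) = ∑ x ∈ T, a x ^ 2 := by
    rw [hz, inner_sum]
    refine Finset.sum_congr rfl fun x _ => ?_
    rw [inner_smul_right, sq]
  have hopp : ∀ x ∈ T, ∀ y ∈ T, (@inner ℝ _ _ (c x) (c y)) = -(2 / 3) → c y = - c x := by
    intro x hx y hy h
    have h3 : ‖c y + c x‖ ^ 2 = 0 := by
      rw [← real_inner_self_eq_norm_sq, inner_add_left, inner_add_right, inner_add_right,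
        h1 x hx, h1 y hy, h, real_inner_comm, h]
      norm_num
    have h4 : c y + c x = 0 := by
      rw [← norm_eq_zero]
      exact pow_eq_zero_iff (two_ne_zero) |>.mp h3
    exact eq_neg_of_add_eq_zero_left h4
  have hzz : (@inner ℝ _ _ (z) (z)) ≤ 4 / 3 * ∑ x ∈ T, a x ^ 2 := by
    have e1 : (@inner ℝ _ _ (z) (z)) = ∑ x ∈ T, ∑ y ∈ T, a x * (a y * (@inner ℝ _ _ (c x) (c y))) := by
      rw [hz, sum_inner]
      refine Finset.sum_congr rfl fun x _ => ?_
      rw [inner_sum]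
      refine Finset.sum_congr rfl fun y _ => ?_
      rw [inner_smul_left, inner_smul_right]
      rfl
    rw [e1, Finset.mul_sum]
    refine Finset.sum_le_sum fun x hx => ?_
    rw [← Finset.add_sum_erase T _ hx, h1 x hx]
    by_cases hex : ∃ y ∈ T, y ≠ x ∧ (@inner ℝ _ _ (c x) (c y)) = -(2 / 3)
    · obtain ⟨y, hy, hyx, hxy⟩ := hex
      have hcy := hopp x hx y hy hxy
      rw [Finset.sum_eq_single y]
      · rw [hxy]
        have : a y = - a x := by
          simp only [ha]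
          rw [hcy, inner_neg_right]
        rw [this]
        apply le_of_eq
        ring
      · intro y' hy' hne
        have hy'T := Finset.mem_of_mem_erase hy'
        have hy'x := Finset.ne_of_mem_erase hy'
        rcases h2 x hx y' hy'T (Ne.symm hy'x) with h | h
        · rw [h]; ring
        · exfalso
          have hcy' := hopp x hx y' hy'T h
          have h5 : (@inner ℝ _ _ (c y) (c y')) = 2 / 3 := by
            rw [hcy', ← hcy]
            exact h1 y hy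
          rcases h2 y hy y' hy'T (Ne.symm hne) with h6 | h6
          · rw [h5] at h6; norm_num at h6
          · rw [h5] at h6; norm_num at h6
      · intro h
        exact absurd (Finset.mem_erase.mpr ⟨hyx, hy⟩) h
    · rw [Finset.sum_eq_zero]
      · nlinarith [sq_nonneg (a x)]
      · intro y hy
        have hyT := Finset.mem_of_mem_erase hy
        have hyx := Finset.ne_of_mem_erase hy
        rcases h2 x hx y hyT (Ne.symm hyx) with h | h
        · rw [h]; ring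
        · exact absurd ⟨y, hyT, hyx, h⟩ hex
  have hcs : (@inner ℝ _ _ (u) (z)) ^ 2 ≤ ‖u‖ ^ 2 * (@inner ℝ _ _ (z) (z)) := by
    have := real_inner_mul_inner_self_le u z
    rw [real_inner_self_eq_norm_sq u] at this
    rw [sq]
    exact this
  rw [huz] at hcs
  have hnn : 0 ≤ ∑ x ∈ T, a x ^ 2 := Finset.sum_nonneg fun x _ => sq_nonneg _
  rcases hnn.eq_or_lt with h0 | h0
  · rw [← h0]
    positivity
  · have h7 : (∑ x ∈ T, a x ^ 2) ^ 2 ≤ ‖u‖ ^ 2 * (4 / 3 * ∑ x ∈ T, a x ^ 2) :=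
      hcs.trans (mul_le_mul_of_nonneg_left hzz (sq_nonneg _))
    have h8 : (∑ x ∈ T, a x ^ 2) * (∑ x ∈ T, a x ^ 2) ≤
        (4 / 3 * ‖u‖ ^ 2) * (∑ x ∈ T, a x ^ 2) := by nlinarith
    exact le_of_mul_le_mul_right h8 h0

theorem count_dim [FiniteDimensional ℝ E] {ι : Type} [DecidableEq ι] (T : Finset ι) (c : ι → E)
    (h1 : ∀ x ∈ T, (@inner ℝ _ _ (c x) (c x)) = 2 / 3)
    (h2 : ∀ x ∈ T, ∀ y ∈ T, x ≠ y → (@inner ℝ _ _ (c x) (c y)) = 0 ∨ (@inner ℝ _ _ (c x) (c y)) = -(2 / 3)) :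
    T.card ≤ 2 * finrank ℝ E := by
  let b := stdOrthonormalBasis ℝ E
  have h3 : ∀ x ∈ T, ∑ k, (@inner ℝ _ _ (b k) (c x)) ^ 2 = 2 / 3 := by
    intro x hx
    rw [← h1 x hx, ← b.sum_inner_mul_inner (c x) (c x)]
    refine Finset.sum_congr rfl fun k _ => ?_
    rw [sq, real_inner_comm (b k) (c x)]
  have h4 : ∑ k, ∑ x ∈ T, (@inner ℝ _ _ (b k) (c x)) ^ 2 = (T.card : ℝ) * (2 / 3) := by
    rw [Finset.sum_comm, Finset.sum_congr rfl h3, Finset.sum_const, nsmul_eq_mul]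
  have h5 : ∑ k, ∑ x ∈ T, (@inner ℝ _ _ (b k) (c x)) ^ 2 ≤ ∑ k : Fin (finrank ℝ E), (4 / 3 : ℝ) := by
    refine Finset.sum_le_sum fun k _ => ?_
    have := frame_bound T c h1 h2 (b k)
    have hn : ‖b k‖ = 1 := b.orthonormal.1 k
    rw [hn] at this
    linarith
  rw [h4] at h5
  simp only [Finset.sum_const, Finset.card_univ, Fintype.card_fin, nsmul_eq_mul] at h5
  have h6 : (T.card : ℝ) ≤ ((2 * finrank ℝ E : ℕ) : ℝ) := by
    push_cast
    linarith
  exact_mod_cast h6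

theorem count_eight {ι : Type} [DecidableEq ι] (T : Finset ι) (c : ι → E)
    (h1 : ∀ x ∈ T, (@inner ℝ _ _ (c x) (c x)) = 2 / 3)
    (h2 : ∀ x ∈ T, ∀ y ∈ T, x ≠ y → (@inner ℝ _ _ (c x) (c y)) = 0 ∨ (@inner ℝ _ _ (c x) (c y)) = -(2 / 3)) (u : E)
    (hu : ‖u‖ ^ 2 = 2 / 3) (h3 : ∀ x ∈ T, (@inner ℝ _ _ (u) (c x)) ^ 2 = 1 / 9) : T.card ≤ 8 := by
  have h4 := frame_bound T c h1 h2 u
  rw [Finset.sum_congr rfl h3, Finset.sum_const, nsmul_eq_mul, hu] at h4
  have h6 : (T.card : ℝ) ≤ ((8 : ℕ) : ℝ) := by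
    push_cast
    linarith
  exact_mod_cast h6

/-- The pillar argument. -/
theorem pillars [FiniteDimensional ℝ E] {ι : Type} [DecidableEq ι] (U : Finset ι) (w : ι → E)
    (h : Fin 3 → E) (τ : ι → Fin 3)
    (hw1 : ∀ x ∈ U, (@inner ℝ _ _ (w x) (w x)) = 1)
    (hw2 : ∀ x ∈ U, ∀ y ∈ U, x ≠ y → (@inner ℝ _ _ (w x) (w y)) = 1 / 3 ∨ (@inner ℝ _ _ (w x) (w y)) = -(1 / 3))
    (hh : ∀ s t, (@inner ℝ _ _ (h s) (h t)) = if s = t then 1 / 3 else 0)
    (hwh : ∀ x ∈ U, ∀ t, (@inner ℝ _ _ (w x) (h t)) = if τ x = t then 1 / 3 else 0) :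
    U.card ≤ max 24 (2 * finrank ℝ E) := by
  set c : ι → E := fun x => w x - h (τ x) with hc
  have hcc : ∀ x ∈ U, ∀ y ∈ U, (@inner ℝ _ _ (c x) (c y)) = (@inner ℝ _ _ (w x) (w y)) - if τ x = τ y then 1 / 3 else 0 := by
    intro x hx y hy
    simp only [hc]
    rw [inner_sub_left, inner_sub_right, inner_sub_right, hwh x hx, hh,
      real_inner_comm (w y) (h (τ x)), hwh y hy]
    by_cases hxy : τ x = τ y
    · simp only [hxy, if_true]
      ring
    · have hyx : ¬ (τ y = τ x) := fun h => hxy h.symm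
      simp only [hxy, hyx, if_false]
      ring
  have hself : ∀ x ∈ U, (@inner ℝ _ _ (c x) (c x)) = 2 / 3 := by
    intro x hx
    rw [hcc x hx x hx, hw1 x hx, if_pos rfl]
    norm_num
  let S : Fin 3 → Finset ι := fun t => U.filter fun x => τ x = t
  have hS1 : ∀ t, ∀ x ∈ S t, (@inner ℝ _ _ (c x) (c x)) = 2 / 3 := fun t x hx =>
    hself x (Finset.mem_filter.mp hx).1
  have hS2 : ∀ t, ∀ x ∈ S t, ∀ y ∈ S t, x ≠ y → (@inner ℝ _ _ (c x) (c y)) = 0 ∨ (@inner ℝ _ _ (c x) (c y)) = -(2 / 3) := by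
    intro t x hx y hy hxy
    obtain ⟨hxU, hxt⟩ := Finset.mem_filter.mp hx
    obtain ⟨hyU, hyt⟩ := Finset.mem_filter.mp hy
    rw [hcc x hxU y hyU, if_pos (hxt.trans hyt.symm)]
    rcases hw2 x hxU y hyU hxy with h' | h' <;> rw [h']
    · left; norm_num
    · right; norm_num
  have hb : ∀ t, (S t).card ≤ 2 * finrank ℝ E := fun t => count_dim (S t) c (hS1 t) (hS2 t)
  have hb8 : ∀ s t, s ≠ t → (S s).Nonempty → (S t).card ≤ 8 := by
    rintro s t hst ⟨y, hy⟩
    obtain ⟨hyU, hyt⟩ := Finset.mem_filter.mp hy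
    refine count_eight (S t) c (hS1 t) (hS2 t) (c y) ?_ ?_
    · rw [← real_inner_self_eq_norm_sq]
      exact hself y hyU
    · intro x hx
      obtain ⟨hxU, hxt⟩ := Finset.mem_filter.mp hx
      have hne : τ y ≠ τ x := by
        rw [hyt, hxt]
        exact hst
      have hyx : y ≠ x := fun h' => hne (by rw [h'])
      rw [hcc y hyU x hxU, if_neg hne]
      rcases hw2 y hyU x hxU hyx with h' | h' <;> rw [h'] <;> norm_num
  have hsum : U.card = (S 0).card + (S 1).card + (S 2).card := by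
    have : U.card = ∑ t : Fin 3, (S t).card := by
      rw [Finset.card_eq_sum_card_fiberwise (f := τ) (t := Finset.univ)
        (fun x _ => Finset.mem_coe.mpr (Finset.mem_univ _))]
    rw [this, Fin.sum_univ_three]
  rw [hsum]
  by_cases h0 : (S 0).Nonempty <;> by_cases h1 : (S 1).Nonempty <;>
    by_cases h2 : (S 2).Nonempty
  all_goals
    try have a01 := hb8 0 1 (by decide) h0
    try have a02 := hb8 0 2 (by decide) h0
    try have a10 := hb8 1 0 (by decide) h1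
    try have a12 := hb8 1 2 (by decide) h1
    try have a20 := hb8 2 0 (by decide) h2
    try have a21 := hb8 2 1 (by decide) h2
    try rw [Finset.not_nonempty_iff_eq_empty] at h0
    try rw [Finset.not_nonempty_iff_eq_empty] at h1
    try rw [Finset.not_nonempty_iff_eq_empty] at h2
    try have e0 : (S 0).card = 0 := by rw [h0]; rfl
    try have e1 : (S 1).card = 0 := by rw [h1]; rfl
    try have e2 : (S 2).card = 0 := by rw [h2]; rfl
    have b0 := hb 0
    have b1 := hb 1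
    have b2 := hb 2
    omega

end Pool.Agent.H20.EqLines
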