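import Pool.Agent.H20.EqLinesB
import Pool.Agent.H20.EqLinesC

set_option autoImplicit false

namespace Pool.Agent.H20.EqLines

open Module

variable {E : Type} [NormedAddCommGroup E] [InnerProductSpace ℝ E]

theorem third_cases {t : ℝ} (h : |t| = 1 / 3) : t = 1 / 3 ∨ t = -(1 / 3) := by
  rcases abs_cases t with ⟨h1, _⟩ | ⟨h1, _⟩
  · left; linarith
  · right; linarith

theorem mul_self_third {t : ℝ} (h : |t| = 1 / 3) : t * t = 1 / 9 := by
  rcases third_cases h with h | h <;> rw [h] <;> norm_num

/-- There is a negative triple among 33 equiangular lines with cosine 1/3 in small dimension. -/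
theorem exists_neg_triple [FiniteDimensional ℝ E] {n : ℕ} (hn : finrank ℝ E < n)
    (i0 : Fin n) (v : Fin n → E) (h1 : ∀ i, (@inner ℝ _ _ (v i) (v i)) = 1)
    (h2 : ∀ i j, i ≠ j → |(@inner ℝ _ _ (v i) (v j))| = 1 / 3) :
    ∃ j k, j ≠ i0 ∧ k ≠ i0 ∧ j ≠ k ∧ (@inner ℝ _ _ (v i0) (v j)) * (@inner ℝ _ _ (v i0) (v k)) * (@inner ℝ _ _ (v j) (v k)) < 0 := by
  by_contra hcon
  push Not at hcon
  let s : Fin n → ℝ := fun i => if i = i0 then 1 else 3 * (@inner ℝ _ _ (v i0) (v i))
  let w : Fin n → E := fun i => s i • v i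
  have hss : ∀ i, s i * s i = 1 := by
    intro i
    simp only [s]
    split_ifs with h
    · norm_num
    · have := mul_self_third (h2 i0 i (Ne.symm h))
      linarith
  have hww : ∀ i, (@inner ℝ _ _ (w i) (w i)) = 1 := by
    intro i
    simp only [w]
    rw [real_inner_smul_left, real_inner_smul_right, h1, mul_one, hss]
  have hwij : ∀ i j, i ≠ j → (@inner ℝ _ _ (w i) (w j)) = 1 / 3 := by
    intro i j hij
    simp only [w]
    rw [real_inner_smul_left, real_inner_smul_right]
    simp only [s]
    by_cases hi : i = i0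
    · have hj : j ≠ i0 := fun h => hij (hi.trans h.symm)
      rw [if_pos hi, if_neg hj, hi]
      have := mul_self_third (h2 i0 j (Ne.symm hj))
      linarith
    · by_cases hj : j = i0
      · rw [if_neg hi, if_pos hj, hj, real_inner_comm (v i0) (v i)]
        have := mul_self_third (h2 i0 i (Ne.symm hi))
        linarith
      · rw [if_neg hi, if_neg hj]
        have hc := hcon i j hi hj hij
        rcases third_cases (h2 i0 i (Ne.symm hi)) with h3 | h3 <;>
        rcases third_cases (h2 i0 j (Ne.symm hj)) with h4 | h4 <;>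
        rcases third_cases (h2 i j hij) with h5 | h5 <;>
        rw [h3, h4, h5] at hc ⊢ <;> first | (norm_num; done) | (exfalso; norm_num at hc; done)
  have hli : LinearIndependent ℝ w := by
    rw [Fintype.linearIndependent_iff]
    intro g hg
    have h3 : ∀ j, 1 / 3 * ∑ i, g i + 2 / 3 * g j = 0 := by
      intro j
      have h4 : (@inner ℝ _ _ (w j) (∑ i, g i • w i)) = 0 := by
        rw [hg, inner_zero_right]
      rw [inner_sum] at h4
      have h5 : ∀ i, (@inner ℝ _ _ (w j) (g i • w i)) = 1 / 3 * g i + if i = j then 2 / 3 * g j else 0 := by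
        intro i
        rw [real_inner_smul_right]
        by_cases hij : i = j
        · subst hij
          rw [hww, if_pos rfl]
          ring
        · rw [hwij j i (Ne.symm hij), if_neg hij]
          ring
      rw [Finset.sum_congr rfl (fun i _ => h5 i), Finset.sum_add_distrib, ← Finset.mul_sum,
        Finset.sum_ite_eq' Finset.univ j, if_pos (Finset.mem_univ j)] at h4
      exact h4
    have h6 : ∑ j : Fin n, (1 / 3 * ∑ i, g i + 2 / 3 * g j) = 0 :=
      Finset.sum_eq_zero fun j _ => h3 j
    rw [Finset.sum_add_distrib, Finset.sum_const, ← Finset.mul_sum, Finset.card_univ,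
      Fintype.card_fin, nsmul_eq_mul] at h6
    have h7 : ((n : ℝ) * (1 / 3) + 2 / 3) * ∑ i, g i = 0 := by linarith
    have h8 : (n : ℝ) * (1 / 3) + 2 / 3 ≠ 0 := by positivity
    have h9 : ∑ i, g i = 0 := by
      rcases mul_eq_zero.mp h7 with h | h
      · exact absurd h h8
      · exact h
    intro j
    have := h3 j
    rw [h9] at this
    linarith
  have := hli.fintype_card_le_finrank
  rw [Fintype.card_fin] at this
  omega

theorem no_third [FiniteDimensional ℝ E] {n : ℕ} (hn : finrank ℝ E < n)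
    (hn2 : max 24 (2 * finrank ℝ E) + 4 < n) (v : Fin n → E) (h1 : ∀ i, (@inner ℝ _ _ (v i) (v i)) = 1)
    (h2 : ∀ i j, i ≠ j → |(@inner ℝ _ _ (v i) (v j))| = 1 / 3) : False := by
  classical
  have hpos : 0 < n := by omega
  obtain ⟨j, k, hji, hki, hjk, hneg⟩ := exists_neg_triple hn ⟨0, hpos⟩ v h1 h2
  generalize (⟨0, hpos⟩ : Fin n) = i at hji hki hneg
  set p1 : E := v i with hp1
  set p2 : E := (-3 * (@inner ℝ _ _ (v i) (v j))) • v j with hp2
  set p3 : E := (-3 * (@inner ℝ _ _ (v i) (v k))) • v k with hp3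
  have s12 := mul_self_third (h2 i j (Ne.symm hji))
  have s13 := mul_self_third (h2 i k (Ne.symm hki))
  have e11 : (@inner ℝ _ _ (p1) (p1)) = 1 := h1 i
  have e22 : (@inner ℝ _ _ (p2) (p2)) = 1 := by
    rw [hp2, real_inner_smul_left, real_inner_smul_right, h1]
    linarith
  have e33 : (@inner ℝ _ _ (p3) (p3)) = 1 := by
    rw [hp3, real_inner_smul_left, real_inner_smul_right, h1]
    linarith
  have e12 : (@inner ℝ _ _ (p1) (p2)) = -(1 / 3) := by
    rw [hp2, real_inner_smul_right]
    linarith
  have e13 : (@inner ℝ _ _ (p1) (p3)) = -(1 / 3) := by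
    rw [hp3, real_inner_smul_right]
    linarith
  have e23 : (@inner ℝ _ _ (p2) (p3)) = -(1 / 3) := by
    rw [hp2, hp3, real_inner_smul_left, real_inner_smul_right]
    rcases third_cases (h2 i j (Ne.symm hji)) with h3 | h3 <;>
    rcases third_cases (h2 i k (Ne.symm hki)) with h4 | h4 <;>
    rcases third_cases (h2 j k hjk) with h5 | h5 <;>
    rw [h3, h4, h5] at hneg ⊢ <;> first | (norm_num; done) | (exfalso; norm_num at hneg; done)
  have e21 : (@inner ℝ _ _ (p2) (p1)) = -(1 / 3) := by rw [real_inner_comm]; exact e12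
  have e31 : (@inner ℝ _ _ (p3) (p1)) = -(1 / 3) := by rw [real_inner_comm]; exact e13
  have e32 : (@inner ℝ _ _ (p3) (p2)) = -(1 / 3) := by rw [real_inner_comm]; exact e23
  let w : Fin n → E := fun x => (3 * (@inner ℝ _ _ (v i) (v x))) • v x
  let T : Finset (Fin n) := Finset.univ \ {i, j, k}
  have hT : ∀ x ∈ T, x ≠ i ∧ x ≠ j ∧ x ≠ k := by
    intro x hx
    have := (Finset.mem_sdiff.mp hx).2
    simp only [Finset.mem_insert, Finset.mem_singleton, not_or] at this
    exact this
  have hTcard : n ≤ T.card + 3 := by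
    have ha : (Finset.univ : Finset (Fin n)).card - ({i, j, k} : Finset (Fin n)).card ≤ T.card :=
      Finset.le_card_sdiff _ _
    have hb : ({i, j, k} : Finset (Fin n)).card ≤ 3 := Finset.card_le_three
    rw [Finset.card_univ, Fintype.card_fin] at ha
    omega
  have hsx : ∀ x ∈ T, (@inner ℝ _ _ (v i) (v x)) * (@inner ℝ _ _ (v i) (v x)) = 1 / 9 := fun x hx =>
    mul_self_third (h2 i x (Ne.symm (hT x hx).1))
  have hw1 : ∀ x ∈ T, (@inner ℝ _ _ (w x) (w x)) = 1 := by
    intro x hx
    have := hsx x hx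
    simp only [w]
    rw [real_inner_smul_left, real_inner_smul_right, h1]
    linarith
  have hw2 : ∀ x ∈ T, ∀ y ∈ T, x ≠ y → (@inner ℝ _ _ (w x) (w y)) = 1 / 3 ∨ (@inner ℝ _ _ (w x) (w y)) = -(1 / 3) := by
    intro x hx y hy hxy
    simp only [w]
    rw [real_inner_smul_left, real_inner_smul_right]
    rcases third_cases (h2 i x (Ne.symm (hT x hx).1)) with h3 | h3 <;>
    rcases third_cases (h2 i y (Ne.symm (hT y hy).1)) with h4 | h4 <;>
    rcases third_cases (h2 x y hxy) with h5 | h5 <;>
    rw [h3, h4, h5] <;> norm_num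
  have hwp1 : ∀ x ∈ T, (@inner ℝ _ _ (w x) (p1)) = 1 / 3 := by
    intro x hx
    have := hsx x hx
    simp only [w]
    rw [real_inner_smul_left, hp1, real_inner_comm (v i) (v x)]
    linarith
  have hwp2 : ∀ x ∈ T, (@inner ℝ _ _ (w x) (p2)) = 1 / 3 ∨ (@inner ℝ _ _ (w x) (p2)) = -(1 / 3) := by
    intro x hx
    simp only [w]
    rw [hp2, real_inner_smul_left, real_inner_smul_right]
    rcases third_cases (h2 i x (Ne.symm (hT x hx).1)) with h3 | h3 <;>
    rcases third_cases (h2 i j (Ne.symm hji)) with h4 | h4 <;>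
    rcases third_cases (h2 x j (hT x hx).2.1) with h5 | h5 <;>
    rw [h3, h4, h5] <;> norm_num
  have hwp3 : ∀ x ∈ T, (@inner ℝ _ _ (w x) (p3)) = 1 / 3 ∨ (@inner ℝ _ _ (w x) (p3)) = -(1 / 3) := by
    intro x hx
    simp only [w]
    rw [hp3, real_inner_smul_left, real_inner_smul_right]
    rcases third_cases (h2 i x (Ne.symm (hT x hx).1)) with h3 | h3 <;>
    rcases third_cases (h2 i k (Ne.symm hki)) with h4 | h4 <;>
    rcases third_cases (h2 x k (hT x hx).2.2) with h5 | h5 <;>
    rw [h3, h4, h5] <;> norm_num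
  let D : Finset (Fin n) := T.filter fun x => (@inner ℝ _ _ (w x) (p2)) = 1 / 3 ∧ (@inner ℝ _ _ (w x) (p3)) = 1 / 3
  have hD : D.card ≤ 1 := by
    rw [Finset.card_le_one]
    have hq : ∀ x ∈ D, w x = p1 + p2 + p3 := by
      intro x hx
      obtain ⟨hxT, hx2, hx3⟩ := Finset.mem_filter.mp hx
      have h3 : ‖w x - (p1 + p2 + p3)‖ ^ 2 = 0 := by
        rw [← real_inner_self_eq_norm_sq]
        simp only [inner_sub_left, inner_sub_right, inner_add_left, inner_add_right]
        rw [real_inner_comm (w x) p1, real_inner_comm (w x) p2, real_inner_comm (w x) p3,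
          hw1 x hxT, hwp1 x hxT, hx2, hx3, e11, e12, e13, e21, e22, e23, e31, e32, e33]
        norm_num
      have h4 : w x - (p1 + p2 + p3) = 0 := by
        rw [← norm_eq_zero]
        exact pow_eq_zero_iff (two_ne_zero) |>.mp h3
      exact sub_eq_zero.mp h4
    intro x hx y hy
    by_contra hxy
    have h5 : (@inner ℝ _ _ (w x) (w y)) = 1 := by
      rw [hq y hy, ← hq x hx]
      exact hw1 x (Finset.mem_filter.mp hx).1
    rcases hw2 x (Finset.mem_filter.mp hx).1 y (Finset.mem_filter.mp hy).1 hxy with h6 | h6 <;>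
    rw [h5] at h6 <;> norm_num at h6
  let U : Finset (Fin n) := T \ D
  have hU : T.card ≤ U.card + 1 := by
    have := Finset.le_card_sdiff D T
    have h3 : T.card - D.card ≤ U.card := this
    omega
  let h : Fin 3 → E := ![(1 / 2 : ℝ) • (p1 + p2), (1 / 2 : ℝ) • (p1 + p3),
    (-(1 / 2) : ℝ) • (p2 + p3)]
  let τ : Fin n → Fin 3 := fun x => if (@inner ℝ _ _ (w x) (p2)) = 1 / 3 then 0 else
    if (@inner ℝ _ _ (w x) (p3)) = 1 / 3 then 1 else 2
  have hUT : ∀ x ∈ U, x ∈ T := fun x hx => (Finset.mem_sdiff.mp hx).1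
  have hpil := pillars U w h τ (fun x hx => hw1 x (hUT x hx))
    (fun x hx y hy hxy => hw2 x (hUT x hx) y (hUT y hy) hxy) (by
      intro s t
      fin_cases s <;> fin_cases t <;>
      simp only [h, Fin.zero_eta, Fin.mk_one, Fin.reduceFinMk, Matrix.cons_val_zero,
        Matrix.cons_val_one, Matrix.cons_val, real_inner_smul_left, real_inner_smul_right,
        inner_add_left, inner_add_right, e11, e12, e13, e21, e22, e23, e31, e32, e33] <;>
      norm_num <;> decide) (by
      intro x hx t
      have hxT := hUT x hx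
      have hxD : ¬ ((@inner ℝ _ _ (w x) (p2)) = 1 / 3 ∧ (@inner ℝ _ _ (w x) (p3)) = 1 / 3) := by
        intro hcon
        exact (Finset.mem_sdiff.mp hx).2 (Finset.mem_filter.mpr ⟨hxT, hcon⟩)
      have h31 : ¬ (-(1 / 3 : ℝ) = 1 / 3) := by norm_num
      rcases hwp2 x hxT with h3 | h3 <;> rcases hwp3 x hxT with h4 | h4
      · exact absurd ⟨h3, h4⟩ hxD
      · have hτ : τ x = 0 := by
          simp only [τ]
          rw [if_pos h3]
        rw [hτ]
        fin_cases t <;>
        simp only [h, Fin.zero_eta, Fin.mk_one, Fin.reduceFinMk, Matrix.cons_val_zero,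
          Matrix.cons_val_one, Matrix.cons_val, real_inner_smul_right,
          inner_add_right, hwp1 x hxT, h3, h4] <;>
        norm_num <;> decide
      · have hτ : τ x = 1 := by
          simp only [τ]
          rw [if_neg (by rw [h3]; exact h31), if_pos h4]
        rw [hτ]
        fin_cases t <;>
        simp only [h, Fin.zero_eta, Fin.mk_one, Fin.reduceFinMk, Matrix.cons_val_zero,
          Matrix.cons_val_one, Matrix.cons_val, real_inner_smul_right,
          inner_add_right, hwp1 x hxT, h3, h4] <;>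
        norm_num <;> decide
      · have hτ : τ x = 2 := by
          simp only [τ]
          rw [if_neg (by rw [h3]; exact h31), if_neg (by rw [h4]; exact h31)]
        rw [hτ]
        fin_cases t <;>
        simp only [h, Fin.zero_eta, Fin.mk_one, Fin.reduceFinMk, Matrix.cons_val_zero,
          Matrix.cons_val_one, Matrix.cons_val, real_inner_smul_right,
          inner_add_right, hwp1 x hxT, h3, h4] <;>
        norm_num <;> decide)
  omega

/-- There are no 33 equiangular lines in Euclidean 13-space. -/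
theorem no_33 (v : Fin 33 → EuclideanSpace ℝ (Fin 13)) (c : ℝ) (hc1 : c < 1)
    (h1 : ∀ i, ‖v i‖ = 1) (h2 : ∀ i j, i ≠ j → |(@inner ℝ _ _ (v i) (v j))| = c) : False := by
  have hrel := rel_bound v
  have hs : ∀ i j, (@inner ℝ _ _ (v i) (v j)) ^ 2 = c ^ 2 + if i = j then (1 - c ^ 2) else 0 := by
    intro i j
    by_cases hij : i = j
    · subst hij
      rw [if_pos rfl, real_inner_self_eq_norm_sq, h1]
      ring
    · rw [if_neg hij, ← h2 i j hij, sq_abs]
      ring
  have hsum : ∑ i, ∑ j, (@inner ℝ _ _ (v i) (v j)) ^ 2 = 33 * 33 * c ^ 2 + 33 * (1 - c ^ 2) := by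
    simp_rw [hs]
    simp only [Finset.sum_add_distrib, Finset.sum_const, Finset.card_univ, Fintype.card_fin,
      Finset.sum_ite_eq, Finset.mem_univ, if_true, nsmul_eq_mul]
    push_cast
    ring
  rw [hsum] at hrel
  simp only [h1] at hrel
  simp only [one_pow, Finset.sum_const, Finset.card_univ, Fintype.card_fin, nsmul_eq_mul,
    finrank_euclideanSpace] at hrel
  push_cast at hrel
  have hc0 : 0 ≤ c := by
    rw [← h2 0 1 (by decide)]
    exact abs_nonneg _
  have hc2 : 5 / 104 ≤ c ^ 2 := by nlinarith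
  have hcpos : 0 < c := by
    rcases hc0.eq_or_lt with h | h
    · rw [← h] at hc2
      norm_num at hc2
    · exact h
  obtain ⟨z, hz⟩ := inv_integer (by norm_num) v c hcpos h1 h2
  have hodd := inv_odd (by norm_num) v c hcpos h1 h2 z hz
  have hzc : (z : ℝ) * c = 1 := by
    rw [hz]
    exact inv_mul_cancel₀ hcpos.ne'
  have hz1 : 1 < z := by
    have : (1 : ℝ) < z := by
      by_contra hcon
      push Not at hcon
      nlinarith
    exact_mod_cast this
  have hz5 : z < 5 := by
    by_contra hcon
    push Not at hcon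
    have h5 : (5 : ℝ) ≤ z := by exact_mod_cast hcon
    have h6 : 5 * c ≤ 1 := by nlinarith
    nlinarith
  have hz3 : z = 3 := by
    interval_cases z
    · exact absurd (dvd_refl 2) hodd
    · rfl
    · exact absurd (by norm_num) hodd
  have hc3 : c = 1 / 3 := by
    rw [hz3] at hzc
    push_cast at hzc
    linarith
  refine no_third (by rw [finrank_euclideanSpace]; norm_num)
    (by rw [finrank_euclideanSpace]; norm_num) v (fun i => ?_) (fun i j hij => ?_)
  · rw [real_inner_self_eq_norm_sq, h1]
    norm_num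
  · rw [h2 i j hij, hc3]

end Pool.Agent.H20.EqLines
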