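import Pool.Agent.H20.EqLinesD

set_option autoImplicit false

namespace Pool.Agent.H20.EqLines

open Module

def tabL : List (List Int) :=
 [[1, 1, 1, 0, 0, 0, 0, 0, 0, 0, 0, 0, 0],
  [1, 1, -1, 0, 0, 0, 0, 0, 0, 0, 0, 0, 0],
  [1, -1, 1, 0, 0, 0, 0, 0, 0, 0, 0, 0, 0],
  [1, -1, -1, 0, 0, 0, 0, 0, 0, 0, 0, 0, 0],
  [1, 0, 0, 1, 1, 0, 0, 0, 0, 0, 0, 0, 0],
  [1, 0, 0, 1, -1, 0, 0, 0, 0, 0, 0, 0, 0],
  [1, 0, 0, -1, 1, 0, 0, 0, 0, 0, 0, 0, 0],
  [1, 0, 0, -1, -1, 0, 0, 0, 0, 0, 0, 0, 0],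
  [0, 1, 0, 1, 0, 1, 0, 0, 0, 0, 0, 0, 0],
  [0, 1, 0, 1, 0, -1, 0, 0, 0, 0, 0, 0, 0],
  [0, 1, 0, -1, 0, 1, 0, 0, 0, 0, 0, 0, 0],
  [0, 1, 0, -1, 0, -1, 0, 0, 0, 0, 0, 0, 0],
  [0, 0, 1, 0, 1, 1, 0, 0, 0, 0, 0, 0, 0],
  [0, 0, 1, 0, 1, -1, 0, 0, 0, 0, 0, 0, 0],
  [0, 0, 1, 0, -1, 1, 0, 0, 0, 0, 0, 0, 0],
  [0, 0, 1, 0, -1, -1, 0, 0, 0, 0, 0, 0, 0],
  [0, 0, 0, 0, 0, 0, 0, 0, 0, 0, 0, 0, 0]]

def tabR : List (List Int) :=
 [[0, 0, 0, 0, 0, 0, 1, 1, 1, 0, 0, 0, 0],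
  [0, 0, 0, 0, 0, 0, 1, 1, -1, 0, 0, 0, 0],
  [0, 0, 0, 0, 0, 0, 1, -1, 1, 0, 0, 0, 0],
  [0, 0, 0, 0, 0, 0, 1, -1, -1, 0, 0, 0, 0],
  [0, 0, 0, 0, 0, 0, 1, 0, 0, 1, 1, 0, 0],
  [0, 0, 0, 0, 0, 0, 1, 0, 0, 1, -1, 0, 0],
  [0, 0, 0, 0, 0, 0, 1, 0, 0, -1, 1, 0, 0],
  [0, 0, 0, 0, 0, 0, 1, 0, 0, -1, -1, 0, 0],
  [0, 0, 0, 0, 0, 0, 1, 0, 0, 0, 0, 1, 1],
  [0, 0, 0, 0, 0, 0, 1, 0, 0, 0, 0, 1, -1],
  [0, 0, 0, 0, 0, 0, 1, 0, 0, 0, 0, -1, 1],
  [0, 0, 0, 0, 0, 0, 1, 0, 0, 0, 0, -1, -1],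
  [0, 0, 0, 0, 0, 0, 0, 1, 0, 1, 0, 1, 0],
  [0, 0, 0, 0, 0, 0, 0, 1, 0, 1, 0, -1, 0],
  [0, 0, 0, 0, 0, 0, 0, 1, 0, -1, 0, 1, 0],
  [0, 0, 0, 0, 0, 0, 0, 1, 0, -1, 0, -1, 0],
  [0, 0, 0, 0, 0, 0, 0, 1, 0, 0, 1, 0, 1]]

def vL (i : Fin 17) (k : Fin 13) : Int := (tabL.getD i.val []).getD k.val 0
def vR (i : Fin 17) (k : Fin 13) : Int := (tabR.getD i.val []).getD k.val 0

theorem vL_self : ∀ i : Fin 17, i ≠ 16 → ∑ k, vL i k * vL i k = 3 := by decide +kernel
theorem vL_ne : ∀ i j : Fin 17, i ≠ 16 → j ≠ 16 → i ≠ j → |∑ k, vL i k * vL j k| = 1 := by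
  decide +kernel
theorem vR_self : ∀ i : Fin 17, ∑ k, vR i k * vR i k = 3 := by decide +kernel
theorem vR_ne : ∀ i j : Fin 17, i ≠ j → |∑ k, vR i k * vR j k| = 1 := by
  decide +kernel
theorem vLR : ∀ i j : Fin 17, ∑ k, vL i k * vR j k = 0 := by decide +kernel
theorem vRL : ∀ i j : Fin 17, ∑ k, vR i k * vL j k = 0 := by decide +kernel

def MM : Type := Fin 2 × Fin 17

instance : DecidableEq MM := inferInstanceAs (DecidableEq (Fin 2 × Fin 17))
instance : Fintype MM := inferInstanceAs (Fintype (Fin 2 × Fin 17))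

def mkM (b : Fin 2) (i : Fin 17) : MM := (b, i)

theorem card_MM : Fintype.card MM = 34 := by decide +kernel

noncomputable def dM (x y : MM) : ℝ :=
  if x = y then 0 else if x.1 = y.1 then Real.arccos (1 / 3) else Real.pi / 2

theorem th_lo : Real.pi / 4 ≤ Real.arccos (1 / 3) := by
  have h1 : Real.arccos (√2 / 2) = Real.pi / 4 := by
    rw [← Real.cos_pi_div_four]
    exact Real.arccos_cos (by positivity) (by linarith [Real.pi_pos])
  rw [← h1]
  apply Real.arccos_le_arccos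
  have : (1 : ℝ) ≤ √2 := by
    rw [Real.one_le_sqrt]
    norm_num
  linarith

theorem th_hi : Real.arccos (1 / 3) ≤ Real.pi / 2 := by
  rw [Real.arccos_le_pi_div_two]
  norm_num

theorem dM_cases (x y : MM) (h : x ≠ y) : Real.pi / 4 ≤ dM x y ∧ dM x y ≤ Real.pi / 2 := by
  unfold dM
  rw [if_neg h]
  split_ifs
  · exact ⟨th_lo, th_hi⟩
  · exact ⟨by linarith [Real.pi_pos], le_rfl⟩

@[reducible] noncomputable def metM : MetricSpace MM where
  dist := dM
  dist_self x := by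
    show dM x x = 0
    unfold dM
    rw [if_pos rfl]
  dist_comm x y := by
    show dM x y = dM y x
    unfold dM
    by_cases h : x = y
    · rw [if_pos h, if_pos h.symm]
    · rw [if_neg h, if_neg (Ne.symm h)]
      by_cases h1 : x.1 = y.1
      · rw [if_pos h1, if_pos h1.symm]
      · rw [if_neg h1, if_neg (Ne.symm h1)]
  dist_triangle x y z := by
    show dM x z ≤ dM x y + dM y z
    by_cases hxy : x = y
    · subst hxy
      have : dM x x = 0 := by unfold dM; rw [if_pos rfl]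
      linarith
    · by_cases hyz : y = z
      · subst hyz
        have : dM y y = 0 := by unfold dM; rw [if_pos rfl]
        linarith
      · have h1 := dM_cases x y hxy
        have h2 := dM_cases y z hyz
        by_cases hxz : x = z
        · have : dM x z = 0 := by unfold dM; rw [if_pos hxz]
          linarith [Real.pi_pos]
        · have h3 := dM_cases x z hxz
          linarith
  eq_of_dist_eq_zero := by
    intro x y h
    by_contra hxy
    have h1 : dM x y = 0 := h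
    have := dM_cases x y hxy
    linarith [Real.pi_pos]

theorem span_dim {E : Type} [NormedAddCommGroup E] [InnerProductSpace ℝ E]
    [FiniteDimensional ℝ E] (v : Fin 17 → E) (h1 : ∀ i, ‖v i‖ = 1)
    (h2 : ∀ i j, i ≠ j → |(@inner ℝ _ _ (v i) (v j))| = 1 / 3) :
    7 ≤ finrank ℝ (Submodule.span ℝ (Set.range v)) := by
  let V := Submodule.span ℝ (Set.range v)
  let w : Fin 17 → V := fun i => ⟨v i, Submodule.subset_span ⟨i, rfl⟩⟩
  have hrel := rel_bound w
  have hs : ∀ i j, (@inner ℝ _ _ (w i) (w j)) ^ 2 = 1 / 9 + if i = j then 8 / 9 else 0 := by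
    intro i j
    have hw : (@inner ℝ _ _ (w i) (w j)) = (@inner ℝ _ _ (v i) (v j)) := rfl
    rw [hw]
    by_cases hij : i = j
    · subst hij
      rw [if_pos rfl, real_inner_self_eq_norm_sq, h1]
      norm_num
    · rw [if_neg hij, ← sq_abs, h2 i j hij]
      norm_num
  have hn : ∀ i, ‖w i‖ = 1 := fun i => h1 i
  have hsum : ∑ i, ∑ j, (@inner ℝ _ _ (w i) (w j)) ^ 2 = 17 * 17 * (1 / 9) + 17 * (8 / 9) := by
    simp_rw [hs]
    simp only [Finset.sum_add_distrib, Finset.sum_const, Finset.card_univ, Fintype.card_fin,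
      Finset.sum_ite_eq, Finset.mem_univ, if_true, nsmul_eq_mul]
    push_cast
    ring
  rw [hsum] at hrel
  simp only [hn] at hrel
  simp only [one_pow, Finset.sum_const, Finset.card_univ, Fintype.card_fin,
    nsmul_eq_mul] at hrel
  push_cast at hrel
  by_contra hcon
  push Not at hcon
  have h6 : finrank ℝ V ≤ 6 := by
    have : finrank ℝ V < 7 := hcon
    omega
  have h7 : (finrank ℝ V : ℝ) ≤ 6 := by exact_mod_cast h6
  nlinarith

theorem not_embed (f : MM → EuclideanSpace ℝ (Fin 13)) (h1 : ∀ x, ‖f x‖ = 1)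
    (h2 : ∀ x y, Real.arccos |(@inner ℝ _ _ (f x) (f y))| = dM x y) : False := by
  have hle : ∀ x y, |(@inner ℝ _ _ (f x) (f y))| ≤ 1 := by
    intro x y
    have := abs_real_inner_le_norm (f x) (f y)
    rw [h1, h1] at this
    linarith
  have hin : ∀ (b : Fin 2) (i j : Fin 17), i ≠ j →
      |(@inner ℝ _ _ (f (mkM b i)) (f (mkM b j)))| = 1 / 3 := by
    intro b i j hij
    have h3 := h2 (mkM b i) (mkM b j)
    have h4 : dM (mkM b i) (mkM b j) = Real.arccos (1 / 3) := by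
      unfold dM
      have h5 : ¬ ((mkM b i) = (mkM b j)) := by
        intro h
        exact hij (Prod.ext_iff.mp h).2
      rw [if_neg h5]
      exact if_pos rfl
    rw [h4] at h3
    have h6 := abs_nonneg ((@inner ℝ _ _ (f (mkM b i)) (f (mkM b j))))
    exact Real.arccos_injOn ⟨by linarith, hle _ _⟩ ⟨by norm_num, by norm_num⟩ h3
  have hout : ∀ i j : Fin 17,
      (@inner ℝ _ _ (f (mkM 0 i)) (f (mkM 1 j))) = 0 := by
    intro i j
    have h3 := h2 (mkM 0 i) (mkM 1 j)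
    have h4 : dM (mkM 0 i) (mkM 1 j) = Real.pi / 2 := by
      unfold dM
      have h5 : ¬ ((mkM 0 i) = (mkM 1 j)) := by
        intro h
        have h7 : (0 : Fin 2) = 1 := (Prod.ext_iff.mp h).1
        exact absurd h7 (by decide)
      have h6 : ¬ ((mkM 0 i).1 = (mkM 1 j).1) := by
        show ¬ ((0 : Fin 2) = 1)
        decide
      rw [if_neg h5]
      exact if_neg h6
    rw [h4, Real.arccos_eq_pi_div_two] at h3
    exact abs_eq_zero.mp h3
  have d0 := span_dim (fun i => f (mkM 0 i)) (fun i => h1 _) (hin 0)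
  have d1 := span_dim (fun i => f (mkM 1 i)) (fun i => h1 _) (hin 1)
  have hort : Submodule.IsOrtho
      (Submodule.span ℝ (Set.range fun i : Fin 17 => f (mkM 0 i)))
      (Submodule.span ℝ (Set.range fun i : Fin 17 => f (mkM 1 i))) := by
    rw [Submodule.isOrtho_span]
    rintro _ ⟨i, rfl⟩ _ ⟨j, rfl⟩
    exact hout i j
  have hfin := Submodule.finrank_add_finrank_le_of_disjoint hort.disjoint
  rw [finrank_euclideanSpace, Fintype.card_fin] at hfin
  omega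

noncomputable def emb (b0 : Fin 2) (i0 : Fin 17) (x : MM) : EuclideanSpace ℝ (Fin 13) :=
  (√3)⁻¹ • WithLp.toLp 2 (fun k => (((if x.1 = b0 then vL (Equiv.swap i0 16 x.2) k
    else vR x.2 k) : Int) : ℝ))

theorem emb_inner (b0 : Fin 2) (i0 : Fin 17) (x y : MM) :
    (@inner ℝ _ _ (emb b0 i0 x) (emb b0 i0 y)) = 1 / 3 * (((∑ k, (if x.1 = b0 then vL (Equiv.swap i0 16 x.2) k
    else vR x.2 k) * (if y.1 = b0 then vL (Equiv.swap i0 16 y.2) k
    else vR y.2 k) : Int)) : ℝ) := by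
  unfold emb
  rw [real_inner_smul_left, real_inner_smul_right, PiLp.inner_apply]
  have h3 : (√3)⁻¹ * ((√3)⁻¹ * 1) = (1 / 3 : ℝ) := by
    rw [mul_one, ← mul_inv, Real.mul_self_sqrt (by norm_num)]
    norm_num
  rw [← mul_assoc]
  congr 1
  · rw [← h3]
    ring
  · rw [Int.cast_sum]
    refine Finset.sum_congr rfl fun k _ => ?_
    by_cases hx : x.1 = b0 <;> by_cases hy : y.1 = b0 <;> simp [hx, hy, mul_comm]

theorem emb_norm (b0 : Fin 2) (i0 : Fin 17) (x : MM) (hx : ¬ (x.1 = b0 ∧ x.2 = i0)) :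
    ‖emb b0 i0 x‖ = 1 := by
  have h : ‖emb b0 i0 x‖ ^ 2 = 1 := by
    rw [← real_inner_self_eq_norm_sq, emb_inner]
    by_cases hb : x.1 = b0
    · simp only [if_pos hb]
      rw [vL_self]
      · norm_num
      · intro h
        apply hx
        refine ⟨hb, ?_⟩
        have := congrArg (Equiv.swap i0 16) h
        rw [Equiv.swap_apply_self, Equiv.swap_apply_right] at this
        exact this
    · simp only [if_neg hb]
      rw [vR_self]
      norm_num
  have h0 := norm_nonneg (emb b0 i0 x)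
  nlinarith

theorem emb_dist (b0 : Fin 2) (i0 : Fin 17) (x y : MM) (hx : ¬ (x.1 = b0 ∧ x.2 = i0))
    (hy : ¬ (y.1 = b0 ∧ y.2 = i0)) :
    Real.arccos |(@inner ℝ _ _ (emb b0 i0 x) (emb b0 i0 y))| = dM x y := by
  have hsw : ∀ i : Fin 17, i ≠ i0 → Equiv.swap i0 16 i ≠ 16 := by
    intro i hi h
    have := congrArg (Equiv.swap i0 16) h
    rw [Equiv.swap_apply_self, Equiv.swap_apply_right] at this
    exact hi this
  by_cases hxy : x = y
  · subst hxy
    rw [real_inner_self_eq_norm_sq, emb_norm b0 i0 x hx]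
    unfold dM
    rw [if_pos rfl]
    norm_num
  · unfold dM
    rw [if_neg hxy, emb_inner]
    by_cases h1 : x.1 = y.1
    · have h2 : x.2 ≠ y.2 := fun h => hxy (Prod.ext h1 h)
      rw [if_pos h1]
      by_cases hb : x.1 = b0
      · have hb' : y.1 = b0 := h1 ▸ hb
        simp only [if_pos hb, if_pos hb']
        have h3 := vL_ne (Equiv.swap i0 16 x.2) (Equiv.swap i0 16 y.2)
          (hsw _ fun h => hx ⟨hb, h⟩) (hsw _ fun h => hy ⟨hb', h⟩)
          (fun h => h2 ((Equiv.swap i0 16).injective h))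
        rw [abs_mul, ← Int.cast_abs, h3]
        norm_num
      · have hb' : ¬ (y.1 = b0) := h1 ▸ hb
        simp only [if_neg hb, if_neg hb']
        have h3 := vR_ne x.2 y.2 h2
        rw [abs_mul, ← Int.cast_abs, h3]
        norm_num
    · rw [if_neg h1]
      by_cases hb : x.1 = b0
      · have hb' : ¬ (y.1 = b0) := fun h => h1 (hb.trans h.symm)
        simp only [if_pos hb, if_neg hb']
        rw [vLR]
        simp
      · have hb' : y.1 = b0 := by
          have : ∀ a b c : Fin 2, ¬ (a = b) → ¬ (a = c) → b = c := by decide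
          exact this x.1 y.1 b0 h1 hb
        simp only [if_neg hb, if_pos hb']
        rw [vRL]
        simp

theorem sub_embed (s : Finset MM) (hs : s.card ≤ 33) :
    ∃ f : MM → EuclideanSpace ℝ (Fin 13), (∀ x ∈ s, ‖f x‖ = 1) ∧
      ∀ x ∈ s, ∀ y ∈ s, Real.arccos |(@inner ℝ _ _ (f x) (f y))| = dM x y := by
  have hex : ∃ z : MM, z ∉ s := by
    by_contra hcon
    push Not at hcon
    have : s = Finset.univ := Finset.eq_univ_iff_forall.mpr hcon
    rw [this, Finset.card_univ, card_MM] at hs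
    omega
  obtain ⟨z, hz⟩ := hex
  have hne : ∀ x ∈ s, ¬ (x.1 = z.1 ∧ x.2 = z.2) := by
    rintro x hx ⟨h1, h2⟩
    exact hz (by rwa [show z = x from (Prod.ext h1 h2).symm])
  exact ⟨emb z.1 z.2, fun x hx => emb_norm _ _ x (hne x hx),
    fun x hx y hy => emb_dist _ _ x y (hne x hx) (hne y hy)⟩

end Pool.Agent.H20.EqLines
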