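import Mathlib

set_option autoImplicit false

namespace Pool.Agent.H20.FinLin

/-- weights -/
noncomputable def W (j : ℕ) : ℝ := (1 / 4) * (1 / 2) ^ j / (j + 2).factorial

theorem W_pos (j : ℕ) : 0 < W j := by
  unfold W
  positivity

theorem part (k n : ℕ) : ∑ i ∈ Finset.range n, (((i + k : ℕ) : ℝ) + 1) * W (i + k) ≤
    (1 / 4) * (1 / 2) ^ k * (1 / ((k + 1).factorial : ℝ) - 1 / ((n + k + 1).factorial : ℝ)) := by
  induction n with
  | zero => simp
  | succ n ih =>
    rw [Finset.sum_range_succ]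
    have hstep : (((n + k : ℕ) : ℝ) + 1) * W (n + k) ≤ (1 / 4) * (1 / 2) ^ k *
        (1 / ((n + k + 1).factorial : ℝ) - 1 / ((n + 1 + k + 1).factorial : ℝ)) := by
      unfold W
      have hf : ((n + 1 + k + 1).factorial : ℝ) = ((n + k : ℕ) + 2 : ℝ) *
          ((n + k + 1).factorial : ℝ) := by
        have : n + 1 + k + 1 = (n + k + 1) + 1 := by ring
        rw [this, Nat.factorial_succ]
        push_cast
        ring
      have hf2 : ((n + k + 2).factorial : ℝ) = ((n + k : ℕ) + 2 : ℝ) *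
          ((n + k + 1).factorial : ℝ) := by
        rw [show n + k + 2 = (n + k + 1) + 1 from rfl, Nat.factorial_succ]
        push_cast
        ring
      have hpos : (0 : ℝ) < ((n + k + 1).factorial : ℝ) := by positivity
      have hpos2 : (0 : ℝ) < ((n + k : ℕ) + 2 : ℝ) := by positivity
      have h12 : ((1 : ℝ) / 2) ^ (n + k) ≤ (1 / 2) ^ k := by
        apply pow_le_pow_of_le_one (by norm_num) (by norm_num)
        omega
      have hpk : (0 : ℝ) < (1 / 2 : ℝ) ^ k := by positivity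
      have e1 : (1 / ((n + k + 1).factorial : ℝ) - 1 / ((n + 1 + k + 1).factorial : ℝ)) =
          (((n + k : ℕ) : ℝ) + 1) / (((n + k : ℕ) + 2 : ℝ) * ((n + k + 1).factorial : ℝ)) := by
        rw [hf]
        field_simp
        ring
      rw [e1, hf2]
      have e2 : (((n + k : ℕ) : ℝ) + 1) * ((1 / 4) * (1 / 2) ^ (n + k) /
          (((n + k : ℕ) + 2 : ℝ) * ((n + k + 1).factorial : ℝ))) =
          (1 / 4) * (1 / 2) ^ (n + k) * ((((n + k : ℕ) : ℝ) + 1) /
          (((n + k : ℕ) + 2 : ℝ) * ((n + k + 1).factorial : ℝ))) := by ring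
      rw [e2]
      apply mul_le_mul_of_nonneg_right _ (by positivity)
      linarith
    have e3 : (1 / 4 : ℝ) * (1 / 2) ^ k * (1 / ((k + 1).factorial : ℝ) -
        1 / ((n + 1 + k + 1).factorial : ℝ)) =
        (1 / 4) * (1 / 2) ^ k * (1 / ((k + 1).factorial : ℝ) - 1 / ((n + k + 1).factorial : ℝ)) +
        (1 / 4) * (1 / 2) ^ k * (1 / ((n + k + 1).factorial : ℝ) -
        1 / ((n + 1 + k + 1).factorial : ℝ)) := by ring
    rw [e3]
    exact add_le_add ih hstep

theorem part_le (k n : ℕ) : ∑ i ∈ Finset.range n, (((i + k : ℕ) : ℝ) + 1) * W (i + k) ≤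
    (1 / 4) * (1 / 2) ^ k * (1 / ((k + 1).factorial : ℝ)) := by
  refine (part k n).trans ?_
  apply mul_le_mul_of_nonneg_left _ (by positivity)
  have : (0 : ℝ) < 1 / ((n + k + 1).factorial : ℝ) := by positivity
  linarith

theorem term_nonneg (j : ℕ) : 0 ≤ ((j : ℝ) + 1) * W j := by
  have := W_pos j
  positivity

theorem summ : Summable fun j : ℕ => ((j : ℝ) + 1) * W j := by
  apply summable_of_sum_range_le (c := (1 / 4) * (1 / 2) ^ 0 * (1 / ((0 + 1).factorial : ℝ)))
    term_nonneg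
  intro n
  simpa using part_le 0 n

theorem total_le : ∑' j : ℕ, ((j : ℝ) + 1) * W j ≤ 1 / 4 := by
  apply Real.tsum_le_of_sum_range_le term_nonneg
  intro n
  have := part_le 0 n
  simpa using this

/-- tail sum bound -/
theorem tail_le (k : ℕ) : ∑' i : ℕ, (((i + (k + 1) : ℕ) : ℝ) + 1) * W (i + (k + 1)) ≤ W k / 2 := by
  apply Real.tsum_le_of_sum_range_le
  · intro i
    exact term_nonneg _
  · intro n
    refine (part_le (k + 1) n).trans (le_of_eq ?_)
    unfold W
    rw [pow_succ]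
    ring

/-- encoding of a bounded sequence -/
noncomputable def En (x : ℕ → ℕ) : ℝ := ∑' j, (x j : ℝ) * W j

theorem summ_x (x : ℕ → ℕ) (hx : ∀ j, x j ≤ j + 1) : Summable fun j => (x j : ℝ) * W j := by
  apply Summable.of_nonneg_of_le _ _ summ
  · intro j
    have := W_pos j
    positivity
  · intro j
    apply mul_le_mul_of_nonneg_right _ (W_pos j).le
    have := hx j
    exact_mod_cast this

theorem En_nonneg (x : ℕ → ℕ) : 0 ≤ En x := by
  apply tsum_nonneg
  intro j
  have := W_pos j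
  positivity

theorem En_le (x : ℕ → ℕ) (hx : ∀ j, x j ≤ j + 1) : En x ≤ 1 / 4 := by
  refine le_trans ?_ total_le
  apply Summable.tsum_le_tsum _ (summ_x x hx) summ
  intro j
  apply mul_le_mul_of_nonneg_right _ (W_pos j).le
  have := hx j
  exact_mod_cast this

/-- lexicographic monotonicity -/
theorem En_lt (x y : ℕ → ℕ) (hx : ∀ j, x j ≤ j + 1) (hy : ∀ j, y j ≤ j + 1) (k : ℕ)
    (hag : ∀ j < k, x j = y j) (hk : x k < y k) : En x < En y := by
  have hsx := summ_x x hx
  have hsy := summ_x y hy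
  have hs : Summable fun j => (y j : ℝ) * W j - (x j : ℝ) * W j := hsy.sub hsx
  have h1 : En y - En x = ∑' j, ((y j : ℝ) * W j - (x j : ℝ) * W j) := by
    unfold En
    rw [hsy.tsum_sub hsx]
  have h2 := hs.sum_add_tsum_nat_add (k + 1)
  have h3 : ∑ j ∈ Finset.range (k + 1), ((y j : ℝ) * W j - (x j : ℝ) * W j) =
      (y k : ℝ) * W k - (x k : ℝ) * W k := by
    rw [Finset.sum_range_succ, Finset.sum_eq_zero, zero_add]
    intro j hj
    rw [hag j (Finset.mem_range.mp hj), sub_self]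
  have h4 : W k ≤ (y k : ℝ) * W k - (x k : ℝ) * W k := by
    have h5 : (x k : ℝ) + 1 ≤ y k := by exact_mod_cast hk
    have := W_pos k
    nlinarith
  have h6 : -(W k / 2) ≤ ∑' i, ((y (i + (k + 1)) : ℝ) * W (i + (k + 1)) -
      (x (i + (k + 1)) : ℝ) * W (i + (k + 1))) := by
    have hs2 : Summable fun i : ℕ => (((i + (k + 1) : ℕ) : ℝ) + 1) * W (i + (k + 1)) :=
      (summable_nat_add_iff (k + 1)).mpr summ
    have hs3 : Summable fun i => ((y (i + (k + 1)) : ℝ) * W (i + (k + 1)) -
      (x (i + (k + 1)) : ℝ) * W (i + (k + 1))) := (summable_nat_add_iff (k + 1)).mpr hs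
    have h7 : -∑' i : ℕ, (((i + (k + 1) : ℕ) : ℝ) + 1) * W (i + (k + 1)) ≤
        ∑' i, ((y (i + (k + 1)) : ℝ) * W (i + (k + 1)) -
      (x (i + (k + 1)) : ℝ) * W (i + (k + 1))) := by
      rw [← tsum_neg]
      apply Summable.tsum_le_tsum _ hs2.neg hs3
      intro i
      have h8 : (x (i + (k + 1)) : ℝ) ≤ ((i + (k + 1) : ℕ) : ℝ) + 1 := by
        exact_mod_cast hx _
      have h9 : (0 : ℝ) ≤ y (i + (k + 1)) := Nat.cast_nonneg _
      have := W_pos (i + (k + 1))
      nlinarith
    have := tail_le k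
    linarith
  rw [h3, ← h1] at h2
  have := W_pos k
  linarith

theorem En_inj (x y : ℕ → ℕ) (hx : ∀ j, x j ≤ j + 1) (hy : ∀ j, y j ≤ j + 1)
    (h : En x = En y) : x = y := by
  by_contra hne
  have hex : ∃ k, x k ≠ y k := by
    by_contra hcon
    push Not at hcon
    exact hne (funext hcon)
  classical
  have h1 := Nat.find_spec hex
  have h2 : ∀ j < Nat.find hex, x j = y j := fun j hj => not_not.mp (Nat.find_min hex hj)
  rcases lt_or_gt_of_ne h1 with h3 | h3
  · exact absurd h (En_lt x y hx hy _ h2 h3).ne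
  · exact absurd h.symm (En_lt y x hy hx _ (fun j hj => (h2 j hj).symm) h3).ne

end Pool.Agent.H20.FinLin
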