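import Pool.Agent.H20.FinLinA

set_option autoImplicit false

namespace Pool.Agent.H20.FinLin

open Topology

/-- The Cantor space of digit sequences. -/
abbrev Dg : Type := (n : ℕ) → Fin (n + 1)

/-- reading order -/
def sg (n j : ℕ) : ℕ := if j % 2 = n % 2 then j + 1 else j - 1

theorem sg_le (n j : ℕ) : sg n j ≤ j + 1 := by
  unfold sg
  split_ifs <;> omega

theorem sg_lt (n r j : ℕ) (hr : r % 2 = n % 2) (hj : j < r) : sg n j < r := by
  unfold sg
  split_ifs <;> omega

theorem sg_same (n r : ℕ) (hr : r % 2 = n % 2) : sg n r = r + 1 := by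
  unfold sg
  rw [if_pos hr]

theorem sg_succ (n r : ℕ) (hr : r % 2 = n % 2) : sg n (r + 1) = r := by
  unfold sg
  rw [if_neg (by omega)]
  omega

theorem sg_surj (n i : ℕ) : ∃ j, sg n j = i := by
  by_cases h : i % 2 = n % 2
  · exact ⟨i + 1, sg_succ n i h⟩
  · rcases Nat.eq_zero_or_pos i with h0 | h0
    · refine ⟨0, ?_⟩
      unfold sg
      rw [if_neg (by omega)]
      omega
    · refine ⟨i - 1, ?_⟩
      unfold sg
      rw [if_pos (by omega)]
      omega

/-- the sequence read in the order of side `n` -/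
def rd (n : ℕ) (c : Dg) (j : ℕ) : ℕ := (c (sg n j)).val

theorem rd_le (n : ℕ) (c : Dg) (j : ℕ) : rd n c j ≤ j + 1 := by
  have h1 := (c (sg n j)).2
  have h2 := sg_le n j
  unfold rd
  omega

/-- position of the digit sequence on side `n` -/
noncomputable def pos (n : ℕ) (c : Dg) : ℝ := (if n % 2 = 1 then 0 else 2 / 3) + En (rd n c)

theorem pos_mem (n : ℕ) (c : Dg) : pos n c ∈ Set.Icc (0 : ℝ) 1 := by
  have h1 := En_nonneg (rd n c)
  have h2 := En_le (rd n c) (rd_le n c)
  unfold pos
  split_ifs
  · constructor <;> linarith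
  · constructor <;> linarith

theorem pos_parity (n m : ℕ) (h : n % 2 = m % 2) (c : Dg) : pos n c = pos m c := by
  unfold pos
  have : rd n c = rd m c := by
    funext j
    unfold rd sg
    rw [h]
  rw [this, h]

theorem pos_inj (n : ℕ) : Function.Injective (pos n) := by
  intro c c' h
  unfold pos at h
  have h1 : En (rd n c) = En (rd n c') := by linarith
  have h2 := En_inj _ _ (rd_le n c) (rd_le n c') h1
  funext i
  obtain ⟨j, hj⟩ := sg_surj n i
  have h3 := congrFun h2 j
  unfold rd at h3
  rw [hj] at h3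
  exact Fin.ext h3

theorem pos_sep (c c' : Dg) : pos 1 c ≠ pos 0 c' := by
  have h2 := En_le (rd 1 c) (rd_le 1 c)
  have h1 := En_nonneg (rd 0 c')
  unfold pos
  norm_num
  intro h
  linarith

theorem pos_cont (n : ℕ) : Continuous (pos n) := by
  unfold pos
  apply continuous_const.add
  unfold En
  apply continuous_tsum (u := fun j : ℕ => ((j : ℝ) + 1) * W j) _ summ
  · intro j c
    rw [Real.norm_eq_abs, abs_of_nonneg]
    · apply mul_le_mul_of_nonneg_right _ (W_pos j).le
      have := rd_le n c j
      exact_mod_cast this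
    · have := W_pos j
      positivity
  · intro j
    apply Continuous.mul _ continuous_const
    have h1 : Continuous fun c : Dg => c (sg n j) := continuous_apply _
    have h2 : Continuous fun a : Fin (sg n j + 1) => ((a.val : ℕ) : ℝ) :=
      continuous_of_discreteTopology
    exact h2.comp h1

/-- order on side `n`: in a block of level `r`, digit `r+1` is compared first -/
theorem pos_lt_first (n r : ℕ) (hr : r % 2 = n % 2) (c c' : Dg) (hag : ∀ j < r, c j = c' j)
    (h : (c (r + 1)).val < (c' (r + 1)).val) : pos n c < pos n c' := by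
  unfold pos
  have : En (rd n c) < En (rd n c') := by
    apply En_lt _ _ (rd_le n c) (rd_le n c') r
    · intro j hj
      unfold rd
      rw [hag _ (sg_lt n r j hr hj)]
    · unfold rd
      rw [sg_same n r hr]
      exact h
  linarith

theorem pos_lt_second (n r : ℕ) (hr : r % 2 = n % 2) (c c' : Dg) (hag : ∀ j < r, c j = c' j)
    (h1 : c (r + 1) = c' (r + 1)) (h : (c r).val < (c' r).val) : pos n c < pos n c' := by
  unfold pos
  have : En (rd n c) < En (rd n c') := by
    apply En_lt _ _ (rd_le n c) (rd_le n c') (r + 1)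
    · intro j hj
      rcases Nat.lt_succ_iff_lt_or_eq.mp hj with h2 | h2
      · unfold rd
        rw [hag _ (sg_lt n r j hr h2)]
      · unfold rd
        rw [h2, sg_same n r hr, h1]
    · unfold rd
      rw [sg_succ n r hr]
      exact h
  linarith

/-- cylinders -/
theorem exists_cyl (U : Set Dg) (hU : IsOpen U) (x : Dg) (hx : x ∈ U) :
    ∃ l, {y : Dg | ∀ i < l, y i = x i} ⊆ U := by
  rw [isOpen_pi_iff] at hU
  obtain ⟨I, u, hu, hsub⟩ := hU x hx
  refine ⟨I.sup id + 1, ?_⟩
  intro y hy
  apply hsub
  rw [Set.mem_pi]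
  intro i hi
  have : i ≤ I.sup id := Finset.le_sup (f := id) hi
  rw [hy i (by omega)]
  exact (hu i hi).2

/-- points differing at a given digit are uniformly separated -/
theorem separation (n q : ℕ) : ∃ δ > 0, ∀ c c' : Dg, c q ≠ c' q →
    δ ≤ |pos n c - pos n c'| := by
  let S : Set (Dg × Dg) := {p | p.1 q ≠ p.2 q}
  have hS : IsCompact S := by
    apply IsClosed.isCompact
    have h1 : Continuous fun p : Dg × Dg => (p.1 q, p.2 q) :=
      ((continuous_apply q).comp continuous_fst).prodMk ((continuous_apply q).comp continuous_snd)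
    exact (isClosed_discrete {a : Fin (q + 1) × Fin (q + 1) | a.1 ≠ a.2}).preimage h1
  have hc : ContinuousOn (fun p : Dg × Dg => |pos n p.1 - pos n p.2|) S := by
    apply Continuous.continuousOn
    exact (((pos_cont n).comp continuous_fst).sub ((pos_cont n).comp continuous_snd)).abs
  rcases S.eq_empty_or_nonempty with he | hne
  · refine ⟨1, one_pos, ?_⟩
    intro c c' h
    have : (c, c') ∈ S := h
    rw [he] at this
    exact absurd this (Set.notMem_empty _)
  · obtain ⟨p, hp, hmin⟩ := hS.exists_isMinOn hne hc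
    refine ⟨|pos n p.1 - pos n p.2|, ?_, ?_⟩
    · rw [gt_iff_lt, abs_pos, sub_ne_zero]
      intro h
      have := pos_inj n h
      exact hp (by rw [this])
    · intro c c' h
      exact hmin (show (c, c') ∈ S from h)

/-- the map -/
theorem exists_map : ∃ f : ℝ → ℝ × ℝ × ℝ, Continuous f ∧
    (∀ c, f (pos 0 c) = f (pos 1 c)) ∧
    (∀ y, {x : ℝ | x ∈ Set.Icc (0 : ℝ) 1 ∧ f x = y}.encard ≤ 2) := by
  let e : Dg ⊕ Dg → ℝ := Sum.elim (pos 1) (pos 0)
  have he : Continuous e := (pos_cont 1).sumElim (pos_cont 0)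
  have hinj : Function.Injective e := by
    rintro (a | a) (b | b) h
    · exact congrArg _ (pos_inj 1 h)
    · exact absurd h (pos_sep a b)
    · exact absurd h.symm (pos_sep b a)
    · exact congrArg _ (pos_inj 0 h)
  have hemb : IsClosedEmbedding e := he.isClosedEmbedding hinj
  let g : C(Dg ⊕ Dg, ℝ) := ⟨Sum.elim (pos 1) (pos 1), (pos_cont 1).sumElim (pos_cont 1)⟩
  obtain ⟨G, hG⟩ := ContinuousMap.exists_extension' hemb g
  have hG1 : ∀ c, G (pos 1 c) = pos 1 c := fun c => congrFun hG (Sum.inl c)
  have hG0 : ∀ c, G (pos 0 c) = pos 1 c := fun c => congrFun hG (Sum.inr c)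
  let C : Set ℝ := Set.range e
  have hCc : IsClosed C := hemb.isClosed_range
  have hCne : C.Nonempty := ⟨_, Sum.inl (fun n => 0), rfl⟩
  let D : ℝ → ℝ := fun t => Metric.infDist t C
  have hD : Continuous D := Metric.continuous_infDist_pt C
  have hD0 : ∀ t ∈ C, D t = 0 := fun t ht => Metric.infDist_zero_of_mem ht
  have hD0' : ∀ t, D t = 0 → t ∈ C := fun t ht =>
    (hCc.mem_iff_infDist_zero hCne).mpr ht
  refine ⟨fun t => (G t, D t, D t * t), ?_, ?_, ?_⟩
  · exact G.continuous.prodMk (hD.prodMk (hD.mul continuous_id))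
  · intro c
    have h1 : D (pos 0 c) = 0 := hD0 _ ⟨Sum.inr c, rfl⟩
    have h2 : D (pos 1 c) = 0 := hD0 _ ⟨Sum.inl c, rfl⟩
    show (G (pos 0 c), D (pos 0 c), D (pos 0 c) * pos 0 c) =
      (G (pos 1 c), D (pos 1 c), D (pos 1 c) * pos 1 c)
    rw [h1, h2, hG0, hG1, zero_mul, zero_mul]
  · intro y
    by_cases hne : ∃ x0, (G x0, D x0, D x0 * x0) = y
    · obtain ⟨x0, hx0⟩ := hne
      by_cases hd : D x0 = 0
      · obtain ⟨s, hs⟩ := hD0' x0 hd
        obtain ⟨c, hc⟩ : ∃ c : Dg, G x0 = pos 1 c := by
          rw [← hs]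
          rcases s with s | s
          · exact ⟨s, hG1 s⟩
          · exact ⟨s, hG0 s⟩
        have hsub : {x : ℝ | x ∈ Set.Icc (0 : ℝ) 1 ∧ (G x, D x, D x * x) = y} ⊆
            {pos 1 c, pos 0 c} := by
          rintro x ⟨_, hx⟩
          rw [← hx0] at hx
          have h1 : G x = G x0 := congrArg Prod.fst hx
          have h2 : D x = D x0 := congrArg (fun p => p.2.1) hx
          rw [hd] at h2
          obtain ⟨s', hs'⟩ := hD0' x h2
          rw [hc, ← hs'] at h1
          rcases s' with s' | s'
          · have h3 : G (pos 1 s') = pos 1 c := h1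
            rw [hG1] at h3
            have h4 := pos_inj 1 h3
            left
            rw [← hs', h4]
            rfl
          · have h3 : G (pos 0 s') = pos 1 c := h1
            rw [hG0] at h3
            have h4 := pos_inj 1 h3
            right
            rw [← hs', h4]
            rfl
        refine (Set.encard_le_encard hsub).trans ?_
        refine (Set.encard_insert_le _ _).trans ?_
        rw [Set.encard_singleton]
        norm_num
      · have hsub : {x : ℝ | x ∈ Set.Icc (0 : ℝ) 1 ∧ (G x, D x, D x * x) = y} ⊆ {x0} := by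
          rintro x ⟨_, hx⟩
          rw [← hx0] at hx
          have h2 : D x = D x0 := congrArg (fun p => p.2.1) hx
          have h3 : D x * x = D x0 * x0 := congrArg (fun p => p.2.2) hx
          rw [h2] at h3
          exact mul_left_cancel₀ hd h3
        refine (Set.encard_le_encard hsub).trans ?_
        rw [Set.encard_singleton]
        norm_num
    · have : {x : ℝ | x ∈ Set.Icc (0 : ℝ) 1 ∧ (G x, D x, D x * x) = y} = ∅ := by
        ext x
        simp only [Set.mem_setOf_eq, Set.mem_empty_iff_false, iff_false]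
        rintro ⟨_, hx⟩
        exact hne ⟨x, hx⟩
      rw [this, Set.encard_empty]
      exact bot_le

end Pool.Agent.H20.FinLin
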