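import Pool.Agent.H20.FinLinB

set_option autoImplicit false

namespace Pool.Agent.H20.FinLin

open Topology

theorem pieces (k : ℕ) (t : ℕ → ℝ) (hk : 0 < k) (h0 : t 0 = 0) (h1 : t k = 1)
    (hlt : ∀ i, i < k → t i < t (i + 1)) (s : ℝ) (hs : s ∈ Set.Icc (0 : ℝ) 1) :
    ∃ i < k, s ∈ Set.Icc (t i) (t (i + 1)) := by
  classical
  have hex : ∃ j, s ≤ t j := ⟨k, by rw [h1]; exact hs.2⟩
  have hspec := Nat.find_spec hex
  have hle : Nat.find hex ≤ k := Nat.find_min' hex (by rw [h1]; exact hs.2)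
  rcases Nat.eq_zero_or_pos (Nat.find hex) with hz | hz
  · refine ⟨0, hk, ?_, ?_⟩
    · rw [h0]; exact hs.1
    · rw [hz] at hspec
      exact hspec.trans (hlt 0 hk).le
  · obtain ⟨j', hj'⟩ : ∃ j', Nat.find hex = j' + 1 := ⟨Nat.find hex - 1, by omega⟩
    refine ⟨j', by omega, ?_, ?_⟩
    · have := Nat.find_min hex (m := j') (by omega)
      push Not at this
      exact this.le
    · rw [← hj']
      exact hspec

theorem f_pos {f : ℝ → ℝ × ℝ × ℝ} (hf : ∀ c, f (pos 0 c) = f (pos 1 c)) (p : ℕ) (c : Dg) :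
    f (pos p c) = f (pos (p + 1) c) := by
  rcases Nat.mod_two_eq_zero_or_one p with h | h
  · rw [pos_parity p 0 (by omega), pos_parity (p + 1) 1 (by omega), hf]
  · rw [pos_parity p 1 (by omega), pos_parity (p + 1) 0 (by omega), hf]

theorem ph {f : ℝ → ℝ × ℝ × ℝ} (hf : ∀ c, f (pos 0 c) = f (pos 1 c)) (m k : ℕ) (t : ℕ → ℝ)
    (hcov : ∀ s ∈ Set.Icc (0 : ℝ) 1, ∃ i < k, s ∈ Set.Icc (t i) (t (i + 1)))
    (hdeg : ∀ i, i < k → {j : ℕ | j < k ∧
      (f '' Set.Icc (t i) (t (i + 1)) ∩ f '' Set.Icc (t j) (t (j + 1))).Nonempty}.encard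
        ≤ (m : ℕ∞))
    (p i : ℕ) (hi : i < k) (N : ℕ) (hN : m < N) (c : Fin N → Dg)
    (hc : ∀ x, pos p (c x) ∈ Set.Icc (t i) (t (i + 1))) :
    ∃ x x', x < x' ∧ ∃ j < k, pos (p + 1) (c x) ∈ Set.Icc (t j) (t (j + 1)) ∧
      pos (p + 1) (c x') ∈ Set.Icc (t j) (t (j + 1)) := by
  classical
  choose J hJk hJ using fun x => hcov (pos (p + 1) (c x)) (pos_mem _ _)
  set S : Set ℕ := {j : ℕ | j < k ∧
      (f '' Set.Icc (t i) (t (i + 1)) ∩ f '' Set.Icc (t j) (t (j + 1))).Nonempty} with hS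
  have hmem : ∀ x, J x ∈ S := by
    intro x
    refine ⟨hJk x, f (pos p (c x)), ⟨_, hc x, rfl⟩, ⟨_, hJ x, ?_⟩⟩
    exact (f_pos hf p (c x)).symm
  have hfin : S.Finite := (Set.finite_lt_nat k).subset (fun j hj => hj.1)
  have hcard : hfin.toFinset.card ≤ m := by
    have := hdeg i hi
    rw [← hS, hfin.encard_eq_coe_toFinset_card] at this
    exact_mod_cast this
  obtain ⟨x, _, x', _, hne, heq⟩ := Finset.exists_ne_map_eq_of_card_lt_of_maps_to
    (s := (Finset.univ : Finset (Fin N))) (t := hfin.toFinset) (f := J)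
    (by rw [Finset.card_univ, Fintype.card_fin]; omega)
    (by intro x _; exact hfin.mem_toFinset.mpr (hmem x))
  rcases lt_or_gt_of_ne hne with h | h
  · exact ⟨x, x', h, J x, hJk x, hJ x, heq ▸ hJ x'⟩
  · exact ⟨x', x, h, J x, hJk x, heq ▸ hJ x', hJ x⟩

/-- the statement propagated down -/
def TT (t : ℕ → ℝ) (k q : ℕ) : Prop := ∃ i < k, ∃ c c' : Dg,
  pos (q + 1) c ∈ Set.Icc (t i) (t (i + 1)) ∧ pos (q + 1) c' ∈ Set.Icc (t i) (t (i + 1)) ∧
  (∀ j < q, c j = c' j) ∧ (c q).val < (c' q).val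

theorem step {f : ℝ → ℝ × ℝ × ℝ} (hf : ∀ c, f (pos 0 c) = f (pos 1 c)) (m k : ℕ) (t : ℕ → ℝ)
    (hcov : ∀ s ∈ Set.Icc (0 : ℝ) 1, ∃ i < k, s ∈ Set.Icc (t i) (t (i + 1)))
    (hdeg : ∀ i, i < k → {j : ℕ | j < k ∧
      (f '' Set.Icc (t i) (t (i + 1)) ∩ f '' Set.Icc (t j) (t (j + 1))).Nonempty}.encard
        ≤ (m : ℕ∞))
    (q : ℕ) (hq : m ≤ q) (h : TT t k (q + 1)) : TT t k q := by
  obtain ⟨i, hi, c, c', h1, h2, hag, hlt⟩ := h
  rw [pos_parity (q + 1 + 1) q (by omega)] at h1 h2
  let d : Fin (q + 1) → Dg := fun x =>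
    if (c q).val ≤ x.val then Function.update c q x else Function.update c' q x
  have hd : ∀ x, pos q (d x) ∈ Set.Icc (t i) (t (i + 1)) := by
    intro x
    have hcq : c q = c' q := hag q (by omega)
    by_cases hx : (c q).val ≤ x.val
    · have e : d x = Function.update c q x := if_pos hx
      rw [e]
      have hA : pos q c ≤ pos q (Function.update c q x) := by
        rcases Nat.eq_or_lt_of_le hx with h3 | h3
        · have : x = c q := Fin.ext h3.symm
          rw [this, Function.update_eq_self]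
        · apply le_of_lt
          apply pos_lt_second q q rfl
          · intro j hj
            rw [Function.update_of_ne (by omega)]
          · rw [Function.update_of_ne (by omega)]
          · rw [Function.update_self]
            exact h3
      have hB : pos q (Function.update c q x) < pos q c' := by
        apply pos_lt_first q q rfl
        · intro j hj
          rw [Function.update_of_ne (by omega)]
          exact hag j (by omega)
        · rw [Function.update_of_ne (by omega)]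
          exact hlt
      exact ⟨h1.1.trans hA, hB.le.trans h2.2⟩
    · have e : d x = Function.update c' q x := if_neg hx
      rw [e]
      have hA : pos q c < pos q (Function.update c' q x) := by
        apply pos_lt_first q q rfl
        · intro j hj
          rw [Function.update_of_ne (by omega)]
          exact hag j (by omega)
        · rw [Function.update_of_ne (by omega)]
          exact hlt
      have hB : pos q (Function.update c' q x) < pos q c' := by
        apply pos_lt_second q q rfl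
        · intro j hj
          rw [Function.update_of_ne (by omega)]
        · rw [Function.update_of_ne (by omega)]
        · rw [Function.update_self, ← hcq]
          omega
      exact ⟨h1.1.trans hA.le, hB.le.trans h2.2⟩
  obtain ⟨x, x', hxx, j, hj, h3, h4⟩ := ph hf m k t hcov hdeg q i hi (q + 1) (by omega) d hd
  refine ⟨j, hj, d x, d x', h3, h4, ?_, ?_⟩
  · have key : ∀ y, ∀ l < q, d y l = c l := by
      intro y l hl
      show (if (c q).val ≤ y.val then Function.update c q y else Function.update c' q y) l = c l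
      split_ifs
      · rw [Function.update_of_ne (by omega)]
      · rw [Function.update_of_ne (by omega)]
        exact (hag l (by omega)).symm
    intro l hl
    rw [key x l hl, key x' l hl]
  · have key : ∀ y, d y q = y := by
      intro y
      show (if (c q).val ≤ y.val then Function.update c q y else Function.update c' q y) q = y
      split_ifs
      · rw [Function.update_self]
      · rw [Function.update_self]
    rw [key, key]
    exact hxx

theorem descend {f : ℝ → ℝ × ℝ × ℝ} (hf : ∀ c, f (pos 0 c) = f (pos 1 c)) (m k : ℕ)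
    (t : ℕ → ℝ)
    (hcov : ∀ s ∈ Set.Icc (0 : ℝ) 1, ∃ i < k, s ∈ Set.Icc (t i) (t (i + 1)))
    (hdeg : ∀ i, i < k → {j : ℕ | j < k ∧
      (f '' Set.Icc (t i) (t (i + 1)) ∩ f '' Set.Icc (t j) (t (j + 1))).Nonempty}.encard
        ≤ (m : ℕ∞))
    (a : ℕ) (h : TT t k (m + a)) : TT t k m := by
  induction a with
  | zero => exact h
  | succ a ih => exact ih (step hf m k t hcov hdeg (m + a) (by omega) h)

theorem start {f : ℝ → ℝ × ℝ × ℝ} (hf : ∀ c, f (pos 0 c) = f (pos 1 c)) (m k : ℕ)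
    (t : ℕ → ℝ)
    (hcov : ∀ s ∈ Set.Icc (0 : ℝ) 1, ∃ i < k, s ∈ Set.Icc (t i) (t (i + 1)))
    (hdeg : ∀ i, i < k → {j : ℕ | j < k ∧
      (f '' Set.Icc (t i) (t (i + 1)) ∩ f '' Set.Icc (t j) (t (j + 1))).Nonempty}.encard
        ≤ (m : ℕ∞)) : ∃ a, TT t k (m + a) := by
  have : Nonempty Dg := ⟨fun n => 0⟩
  have hB := nonempty_interior_of_iUnion_of_closed
    (X := Dg) (ι := Fin k) (f := fun i => {c : Dg | pos 0 c ∈ Set.Icc (t i) (t (i + 1))})
    (fun i => isClosed_Icc.preimage (pos_cont 0))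
    (by
      rw [Set.eq_univ_iff_forall]
      intro c
      obtain ⟨i, hi, h⟩ := hcov (pos 0 c) (pos_mem 0 c)
      exact Set.mem_iUnion.mpr ⟨⟨i, hi⟩, h⟩)
  obtain ⟨i, x, hx⟩ := hB
  obtain ⟨l, hl⟩ := exists_cyl _ isOpen_interior x hx
  have hl2 : ∀ y : Dg, (∀ j < l, y j = x j) → pos 0 y ∈ Set.Icc (t i) (t (i + 1)) := by
    intro y hy
    have h3 := interior_subset (hl hy)
    exact h3
  refine ⟨m + 2 * l, ?_⟩
  have hr : m + (m + 2 * l) = 2 * (m + l) := by ring
  rw [hr]
  set r := 2 * (m + l) with hrdef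
  obtain ⟨y, y', hyy, j, hj, h3, h4⟩ := ph hf m k t hcov hdeg r i i.2 (r + 1) (by omega)
    (fun z => Function.update x r z) (by
      intro z
      rw [pos_parity r 0 (by omega)]
      apply hl2
      intro j hj
      rw [Function.update_of_ne (by omega)])
  refine ⟨j, hj, Function.update x r y, Function.update x r y', h3, h4, ?_, ?_⟩
  · intro j hj
    rw [Function.update_of_ne (by omega), Function.update_of_ne (by omega)]
  · rw [Function.update_self, Function.update_self]
    exact hyy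

theorem final : ∃ (Y : Type) (_ : MetricSpace Y) (f : ℝ → Y) (n : ℕ),
      0 < n ∧ ContinuousOn f (Set.Icc (0:ℝ) 1) ∧
      (∀ y : Y, {x : ℝ | x ∈ Set.Icc (0:ℝ) 1 ∧ f x = y}.encard ≤ (n : ℕ∞)) ∧
      ¬ ∃ m : ℕ, 0 < m ∧ ∀ ε : ℝ, 0 < ε →
        ∃ (k : ℕ) (t : ℕ → ℝ), 0 < k ∧ t 0 = 0 ∧ t k = 1 ∧
          (∀ i, i < k → t i < t (i + 1) ∧ t (i + 1) - t i < ε) ∧
          ∀ i, i < k →
            {j : ℕ | j < k ∧
              (f '' Set.Icc (t i) (t (i + 1)) ∩ f '' Set.Icc (t j) (t (j + 1))).Nonempty}.encard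
              ≤ (m : ℕ∞) := by
  obtain ⟨f, hc, hf, hfib⟩ := exists_map
  refine ⟨ℝ × ℝ × ℝ, inferInstance, f, 2, two_pos, hc.continuousOn, ?_, ?_⟩
  · intro y
    exact_mod_cast hfib y
  · rintro ⟨m, hm, h⟩
    obtain ⟨δ, hδ, hsep⟩ := separation (m + 1) m
    obtain ⟨k, t, hk, h0, h1, hmesh, hdeg⟩ := h δ hδ
    have hcov : ∀ s ∈ Set.Icc (0 : ℝ) 1, ∃ i < k, s ∈ Set.Icc (t i) (t (i + 1)) :=
      pieces k t hk h0 h1 (fun i hi => (hmesh i hi).1)
    obtain ⟨a, ha⟩ := start hf m k t hcov hdeg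
    obtain ⟨i, hi, c, c', h3, h4, _, hne⟩ := descend hf m k t hcov hdeg a ha
    have h5 := hsep c c' (by
      intro e
      rw [e] at hne
      exact lt_irrefl _ hne)
    have h6 := (hmesh i hi).2
    have h7 : |pos (m + 1) c - pos (m + 1) c'| ≤ t (i + 1) - t i := by
      rw [abs_le]
      constructor
      · linarith [h3.1, h4.2]
      · linarith [h3.2, h4.1]
    linarith

end Pool.Agent.H20.FinLin
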