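import Mathlib

set_option autoImplicit false

namespace Pool.Agent.H20.FreePara

open Topology Filter

universe u v

section grp

variable {L : Type u} [AddCommGroup L] [TopologicalSpace L] [IsTopologicalAddGroup L]

theorem nice (W : Set L) (hW : W ∈ 𝓝 (0 : L)) : ∃ V : Set L, IsOpen V ∧ (0 : L) ∈ V ∧
    (∀ v ∈ V, -v ∈ V) ∧ ∀ a ∈ V, ∀ b ∈ V, ∀ c ∈ V, ∀ d ∈ V, a + b + c + d ∈ W := by
  obtain ⟨V, hV, h⟩ := exists_nhds_zero_quarter hW
  refine ⟨interior V ∩ (fun x => -x) ⁻¹' interior V, ?_, ?_, ?_, ?_⟩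
  · exact isOpen_interior.inter (isOpen_interior.preimage continuous_neg)
  · have h0 : (0 : L) ∈ interior V := mem_interior_iff_mem_nhds.mpr hV
    refine ⟨h0, ?_⟩
    show -(0 : L) ∈ interior V
    rw [neg_zero]
    exact h0
  · rintro v ⟨h1, h2⟩
    refine ⟨h2, ?_⟩
    show -(-v) ∈ interior V
    rw [neg_neg]
    exact h1
  · rintro a ⟨ha, _⟩ b ⟨hb, _⟩ c ⟨hc, _⟩ d ⟨hd, _⟩
    exact h (interior_subset ha) (interior_subset hb) (interior_subset hc) (interior_subset hd)

theorem near_of_closure (N V : Set L) (hVo : IsOpen V) (h0 : (0 : L) ∈ V) (x : L)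
    (hx : x ∈ closure N) : ∃ z ∈ N, x - z ∈ V := by
  have hopen : IsOpen {z : L | x - z ∈ V} := hVo.preimage (continuous_const.sub continuous_id)
  have hmem : x ∈ {z : L | x - z ∈ V} := by
    show x - x ∈ V
    rw [sub_self]
    exact h0
  obtain ⟨z, hz1, hz2⟩ := mem_closure_iff.mp hx _ hopen hmem
  exact ⟨z, hz2, hz1⟩

/-- uniform containment -/
def UC (c w : Set L) : Prop := ∃ V ∈ 𝓝 (0 : L), ∀ x ∈ c, ∀ v ∈ V, x + v ∈ w

theorem exists_fun (N W : Set L) (hW : W ∈ 𝓝 (0 : L)) : ∃ f : L → ℝ, Continuous f ∧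
    (∀ x ∈ N, f x = 1) ∧ (∀ x, f x ≠ 0 → ∃ z ∈ N, x - z ∈ W) ∧ ∀ x, 0 ≤ f x := by
  obtain ⟨V, hVo, hV0, hVs, hV4⟩ := nice (interior W) (interior_mem_nhds.mpr hW)
  let U : Set L := ⋃ z ∈ N, {x | x - z ∈ interior W}
  let C : Urysohns.CU (UC (L := L)) :=
    { C := closure N
      U := U
      P_C_U := by
        refine ⟨V, hVo.mem_nhds hV0, ?_⟩
        intro x hx v hv
        obtain ⟨z, hz, hxz⟩ := near_of_closure N V hVo hV0 x hx
        refine Set.mem_biUnion hz ?_
        show x + v - z ∈ interior W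
        have := hV4 (x - z) hxz v hv 0 hV0 0 hV0
        have e : x + v - z = x - z + v + 0 + 0 := by abel
        rw [e]
        exact this
      closed_C := isClosed_closure
      open_U := isOpen_biUnion fun z _ =>
        isOpen_interior.preimage (continuous_id.sub continuous_const)
      subset := by
        intro x hx
        obtain ⟨z, hz, hxz⟩ := near_of_closure N V hVo hV0 x hx
        refine Set.mem_biUnion hz ?_
        show x - z ∈ interior W
        have := hV4 (x - z) hxz 0 hV0 0 hV0 0 hV0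
        have e : x - z = x - z + 0 + 0 + 0 := by abel
        rw [e]
        exact this
      hP := by
        rintro c w hc ⟨V', hV', hcw⟩ hw hsub
        obtain ⟨V1, h1o, h10, h1s, h14⟩ := nice V' hV'
        have hcl : ∀ y ∈ closure (⋃ x ∈ c, {y | y - x ∈ V1}), ∃ x ∈ c, ∃ a ∈ V1, ∃ b ∈ V1,
            y = x + a + b := by
          intro y hy
          obtain ⟨y', hy', hyy⟩ := near_of_closure _ V1 h1o h10 y hy
          obtain ⟨x, hx, hyx⟩ := Set.mem_iUnion₂.mp hy'
          refine ⟨x, hx, y' - x, hyx, y - y', hyy, ?_⟩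
          abel
        refine ⟨⋃ x ∈ c, {y | y - x ∈ V1}, ?_, ?_, ?_, ?_, ?_⟩
        · exact isOpen_biUnion fun z _ => h1o.preimage (continuous_id.sub continuous_const)
        · intro x hx
          refine Set.mem_biUnion hx ?_
          show x - x ∈ V1
          rw [sub_self]
          exact h10
        · intro y hy
          obtain ⟨x, hx, a, ha, b, hb, rfl⟩ := hcl y hy
          have := hcw x hx _ (h14 a ha b hb 0 h10 0 h10)
          have e : x + a + b = x + (a + b + 0 + 0) := by abel
          rw [e]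
          exact this
        · refine ⟨V1, h1o.mem_nhds h10, ?_⟩
          intro x hx v hv
          refine Set.mem_biUnion hx ?_
          show x + v - x ∈ V1
          rw [add_sub_cancel_left]
          exact hv
        · refine ⟨V1, h1o.mem_nhds h10, ?_⟩
          intro y hy v hv
          obtain ⟨x, hx, a, ha, b, hb, rfl⟩ := hcl y hy
          have := hcw x hx _ (h14 a ha b hb v hv 0 h10)
          have e : x + a + b + v = x + (a + b + v + 0) := by abel
          rw [e]
          exact this }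
  refine ⟨fun x => 1 - C.lim x, continuous_const.sub C.continuous_lim, ?_, ?_, ?_⟩
  · intro x hx
    show 1 - C.lim x = 1
    rw [C.lim_of_mem_C x (subset_closure hx), sub_zero]
  · intro x hx
    have hxU : x ∈ U := by
      by_contra h
      apply hx
      show 1 - C.lim x = 0
      rw [C.lim_of_notMem_U x h, sub_self]
    obtain ⟨z, hz, h⟩ := Set.mem_iUnion₂.mp hxU
    exact ⟨z, hz, interior_subset h⟩
  · intro x
    have := C.lim_le_one x
    show 0 ≤ 1 - C.lim x
    linarith

theorem paracompact_of_network {K : Type u} (E : ℕ → Set L) (c : ℕ → L → K) (V : ℕ → Set L)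
    (hV : ∀ n, V n ∈ 𝓝 (0 : L))
    (hsep : ∀ n, ∀ z ∈ E n, ∀ z' ∈ E n, c n z ≠ c n z' → z - z' ∉ V n)
    (hnet : ∀ z : L, ∀ W ∈ 𝓝 z, ∃ n, z ∈ E n ∧ ∀ z' ∈ E n, c n z' = c n z → z' ∈ W) :
    ParacompactSpace L := by
  classical
  constructor
  intro α s hso hsc
  -- small symmetric neighbourhoods
  choose V' hV'o hV'0 hV's hV'4 using fun n => nice (V n) (hV n)
  let N : ℕ → K → Set L := fun n k => {z | z ∈ E n ∧ c n z = k}
  let good : ℕ → K → Prop := fun n k => ∃ a : α, ∃ W ∈ 𝓝 (0 : L), ∀ z ∈ N n k, ∀ w ∈ W,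
    z + w ∈ s a
  have hfun : ∀ n k, ∃ f : L → ℝ, Continuous f ∧ (∀ x, 0 ≤ f x) ∧
      (∀ x, f x ≠ 0 → ∃ z ∈ N n k, x - z ∈ V' n) ∧
      (∃ a : α, ∀ x, f x ≠ 0 → x ∈ s a) ∧ (good n k → ∀ x ∈ N n k, f x = 1) := by
    intro n k
    by_cases hg : good n k
    · obtain ⟨a, W, hW, hWa⟩ := hg
      obtain ⟨f, h1, h2, h3, h4⟩ := exists_fun (N n k) (W ∩ V' n)
        (inter_mem hW ((hV'o n).mem_nhds (hV'0 n)))
      refine ⟨f, h1, h4, ?_, ⟨a, ?_⟩, fun _ => h2⟩
      · intro x hx
        obtain ⟨z, hz, h⟩ := h3 x hx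
        exact ⟨z, hz, h.2⟩
      · intro x hx
        obtain ⟨z, hz, h⟩ := h3 x hx
        have := hWa z hz _ h.1
        rwa [add_sub_cancel] at this
    · have hne : Nonempty α := by
        by_contra hem
        rw [not_nonempty_iff] at hem
        have : (0 : L) ∈ ⋃ a, s a := by rw [hsc]; exact Set.mem_univ _
        obtain ⟨a, _⟩ := Set.mem_iUnion.mp this
        exact hem.elim a
      refine ⟨fun _ => 0, continuous_const, fun _ => le_refl _, ?_, ⟨hne.some, ?_⟩,
        fun h => absurd h hg⟩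
      · intro x hx
        exact absurd rfl hx
      · intro x hx
        exact absurd rfl hx
  choose f hfc hf0 hfN hfa hf1 using hfun
  choose a hfa using hfa
  have hdisc : ∀ n x, ∃ U ∈ 𝓝 x, {k | (Function.support (f n k) ∩ U).Nonempty}.Finite := by
    intro n x
    refine ⟨{y | y - x ∈ V' n}, ?_, ?_⟩
    · apply ((hV'o n).preimage (continuous_id.sub continuous_const)).mem_nhds
      show x - x ∈ V' n
      rw [sub_self]
      exact hV'0 n
    · apply Set.Subsingleton.finite
      rintro k ⟨y, hy1, hy2⟩ k' ⟨y', hy1', hy2'⟩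
      obtain ⟨z, hz, hyz⟩ := hfN n k y hy1
      obtain ⟨z', hz', hyz'⟩ := hfN n k' y' hy1'
      by_contra hkk
      apply hsep n z hz.1 z' hz'.1 (by rw [hz.2, hz'.2]; exact hkk)
      have h1 : y - x ∈ V' n := hy2
      have h2 : y' - x ∈ V' n := hy2'
      have := hV'4 n (y - x) h1 (-(y' - x)) (hV's n _ h2) (-(y - z)) (hV's n _ hyz) (y' - z') hyz'
      have e : z - z' = y - x + -(y' - x) + -(y - z) + (y' - z') := by abel
      rw [e]
      exact this
  have hlf : ∀ n, LocallyFinite fun k => Function.support (f n k) := hdisc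
  let F : ℕ → L → ℝ := fun n x => ∑ᶠ k, f n k x
  have hFc : ∀ n, Continuous (F n) := fun n => continuous_finsum (hfc n) (hlf n)
  have hFpos : ∀ n x, 0 < F n x ↔ ∃ k, f n k x ≠ 0 := by
    intro n x
    have hfin : (Function.support fun k => f n k x).Finite := (hlf n).point_finite x
    constructor
    · intro h
      by_contra hcon
      push Not at hcon
      have : F n x = 0 := by
        show ∑ᶠ k, f n k x = 0
        rw [finsum_congr hcon, finsum_zero]
      linarith
    · rintro ⟨k, hk⟩
      have h1 : 0 < f n k x := lt_of_le_of_ne (hf0 n k x) (Ne.symm hk)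
      have h2 : f n k x ≤ F n x := by
        show f n k x ≤ ∑ᶠ k, f n k x
        exact single_le_finsum k hfin fun j => hf0 n j x
      linarith
  have hF0 : ∀ n x, 0 ≤ F n x := fun n x => finsum_nonneg fun k => hf0 n k x
  let t : ℕ × K → Set L := fun p => {x | f p.1 p.2 x ≠ 0} ∩
    ⋂ m ∈ Finset.range p.1, {x | F m x < 1 / ((p.1 : ℝ) + 1)}
  refine ⟨ℕ × K, t, ?_, ?_, ?_, ?_⟩
  · rintro ⟨n, k⟩
    apply IsOpen.inter
    · exact isOpen_ne_fun (hfc n k) continuous_const
    · apply isOpen_biInter_finset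
      intro m _
      exact isOpen_lt (hFc m) continuous_const
  · rw [Set.eq_univ_iff_forall]
    intro x
    -- some f n k x nonzero
    have hex : ∃ n, 0 < F n x := by
      have : x ∈ ⋃ a, s a := by rw [hsc]; exact Set.mem_univ _
      obtain ⟨a0, ha0⟩ := Set.mem_iUnion.mp this
      have h1 : {w : L | x + w ∈ s a0} ∈ 𝓝 (0 : L) := by
        apply ((hso a0).preimage (continuous_const.add continuous_id)).mem_nhds
        show x + 0 ∈ s a0
        rw [add_zero]
        exact ha0
      obtain ⟨W, hWo, hW0, hWs, hW4⟩ := nice _ h1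
      have h2 : {z : L | z - x ∈ W} ∈ 𝓝 x := by
        apply (hWo.preimage (continuous_id.sub continuous_const)).mem_nhds
        show x - x ∈ W
        rw [sub_self]
        exact hW0
      obtain ⟨n, hn, hz⟩ := hnet x _ h2
      refine ⟨n, (hFpos n x).mpr ⟨c n x, ?_⟩⟩
      have hg : good n (c n x) := by
        refine ⟨a0, W, hWo.mem_nhds hW0, ?_⟩
        rintro z ⟨hz1, hz2⟩ w hw
        have h3 : z - x ∈ W := hz z hz1 hz2
        have h4 := hW4 (z - x) h3 w hw 0 hW0 0 hW0
        have h5 : x + (z - x + w + 0 + 0) ∈ s a0 := h4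
        have e : z + w = x + (z - x + w + 0 + 0) := by abel
        rw [e]
        exact h5
      rw [hf1 n _ hg x ⟨hn, rfl⟩]
      exact one_ne_zero
    obtain ⟨k, hk⟩ := (hFpos (Nat.find hex) x).mp (Nat.find_spec hex)
    refine Set.mem_iUnion.mpr ⟨(Nat.find hex, k), hk, ?_⟩
    rw [Set.mem_iInter₂]
    intro m hm
    have h1 := Nat.find_min hex (Finset.mem_range.mp hm)
    have h2 : F m x = 0 := le_antisymm (not_lt.mp h1) (hF0 m x)
    have h3 : (0 : ℝ) < 1 / ((Nat.find hex : ℝ) + 1) := by positivity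
    show F m x < 1 / ((Nat.find hex : ℝ) + 1)
    rw [h2]
    exact h3
  · intro x
    have hex : ∃ n, 0 < F n x := by
      by_contra hcon
      push Not at hcon
      have : x ∈ ⋃ a, s a := by rw [hsc]; exact Set.mem_univ _
      obtain ⟨a0, ha0⟩ := Set.mem_iUnion.mp this
      have h1 : {w : L | x + w ∈ s a0} ∈ 𝓝 (0 : L) := by
        apply ((hso a0).preimage (continuous_const.add continuous_id)).mem_nhds
        show x + 0 ∈ s a0
        rw [add_zero]
        exact ha0
      obtain ⟨W, hWo, hW0, hWs, hW4⟩ := nice _ h1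
      have h2 : {z : L | z - x ∈ W} ∈ 𝓝 x := by
        apply (hWo.preimage (continuous_id.sub continuous_const)).mem_nhds
        show x - x ∈ W
        rw [sub_self]
        exact hW0
      obtain ⟨n, hn, hz⟩ := hnet x _ h2
      have hg : good n (c n x) := by
        refine ⟨a0, W, hWo.mem_nhds hW0, ?_⟩
        rintro z ⟨hz1, hz2⟩ w hw
        have h3 : z - x ∈ W := hz z hz1 hz2
        have h4 := hW4 (z - x) h3 w hw 0 hW0 0 hW0
        have h5 : x + (z - x + w + 0 + 0) ∈ s a0 := h4
        have e : z + w = x + (z - x + w + 0 + 0) := by abel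
        rw [e]
        exact h5
      have h6 := (hFpos n x).mpr ⟨c n x, by rw [hf1 n _ hg x ⟨hn, rfl⟩]; exact one_ne_zero⟩
      linarith [hcon n]
    obtain ⟨n0, hn0⟩ := hex
    obtain ⟨M, hM⟩ := exists_nat_one_div_lt hn0
    let M' := max M (n0 + 1)
    have hM' : 1 / ((M' : ℝ) + 1) < F n0 x := by
      refine lt_of_le_of_lt ?_ hM
      apply one_div_le_one_div_of_le
      · positivity
      · have : (M : ℝ) ≤ M' := by exact_mod_cast le_max_left _ _
        linarith
    choose U hU hUf using fun n => hdisc n x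
    refine ⟨{y | 1 / ((M' : ℝ) + 1) < F n0 y} ∩ ⋂ n ∈ Finset.range M', U n, ?_, ?_⟩
    · apply inter_mem
      · exact (isOpen_lt continuous_const (hFc n0)).mem_nhds hM'
      · rw [Filter.biInter_finset_mem]
        intro n _
        exact hU n
    · have hfin : (⋃ n ∈ Finset.range M', (fun k => ((n, k) : ℕ × K)) ''
          {k | (Function.support (f n k) ∩ U n).Nonempty}).Finite := by
        apply Set.Finite.biUnion (Finset.finite_toSet _)
        intro n _
        exact (hUf n).image _
      apply hfin.subset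
      rintro ⟨n, k⟩ ⟨y, ⟨hy1, hy2⟩, hy3, hy4⟩
      have hn : n < M' := by
        by_contra hcon
        push Not at hcon
        rw [Set.mem_iInter₂] at hy2
        have h1 : F n0 y < 1 / ((n : ℝ) + 1) := hy2 n0 (Finset.mem_range.mpr (by
          have := le_max_right M (n0 + 1)
          show n0 < n
          omega))
        have h2 : 1 / ((M' : ℝ) + 1) < F n0 y := hy3
        have h3 : 1 / ((n : ℝ) + 1) ≤ 1 / ((M' : ℝ) + 1) := by
          apply one_div_le_one_div_of_le
          · positivity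
          · have : (M' : ℝ) ≤ n := by exact_mod_cast hcon
            linarith
        linarith
      refine Set.mem_biUnion (Finset.mem_coe.mpr (Finset.mem_range.mpr hn)) ?_
      refine ⟨k, ⟨y, hy1, ?_⟩, rfl⟩
      rw [Set.mem_iInter₂] at hy4
      exact hy4 n (Finset.mem_range.mpr hn)
  · rintro ⟨n, k⟩
    refine ⟨a n k, ?_⟩
    rintro x ⟨hx, _⟩
    exact hfa n k x hx

end grp

end Pool.Agent.H20.FreePara
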