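import Pool.Agent.H20.FreeParaA

set_option autoImplicit false

namespace Pool.Agent.H20.FreePara

open Topology Filter

universe u v

/-- Hausdorff topological linear spaces over the discrete field of reals. -/
structure IsTLS (L : Type u) [AddCommGroup L] [Module ℝ L] [TopologicalSpace L] : Prop where
  t2 : T2Space L
  cadd : Continuous fun p : L × L => p.1 + p.2
  csmul : ∀ r : ℝ, Continuous fun v : L => r • v

/-- `L` with `i : X → L` is the free topological linear space over the discrete reals on `X`. -/
structure IsFree (X L : Type u) [TopologicalSpace X] [AddCommGroup L] [Module ℝ L]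
    [TopologicalSpace L] (i : X → L) : Prop where
  tls : IsTLS L
  emb : IsEmbedding i
  li : LinearIndependent ℝ i
  sp : Submodule.span ℝ (Set.range i) = ⊤
  ext : ∀ (E : Type u) [AddCommGroup E] [Module ℝ E] [TopologicalSpace E], IsTLS E →
    ∀ f : X → E, Continuous f → ∃! φ : L →ₗ[ℝ] E, Continuous φ ∧ ∀ x, φ (i x) = f x

theorem IsTLS.grp {L : Type u} [AddCommGroup L] [Module ℝ L] [TopologicalSpace L]
    (h : IsTLS L) : IsTopologicalAddGroup L where
  continuous_add := h.cadd
  continuous_neg := by
    have := h.csmul (-1)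
    simpa using this

theorem IsFree.ext' {X L : Type u} [TopologicalSpace X] [AddCommGroup L] [Module ℝ L]
    [TopologicalSpace L] {i : X → L} (hF : IsFree X L i)
    (E : Type u) (g : AddCommGroup E) (m : Module ℝ E) (t : TopologicalSpace E)
    (hE : @IsTLS E g m t) (f : X → E) (hf : Continuous f) :
    ∃ φ : L →ₗ[ℝ] E, Continuous φ ∧ ∀ x, φ (i x) = f x := by
  obtain ⟨φ, h, _⟩ := hF.ext E hE f hf
  exact ⟨φ, h⟩

theorem cont_raw {X L : Type u} [TopologicalSpace X] [AddCommGroup L] [Module ℝ L]
    (τ : TopologicalSpace L) {i : X → L} {G : Type v} [AddCommGroup G]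
    [tG : TopologicalSpace G] [IsTopologicalAddGroup G] (ψ : L →+ G)
    (hψ : ∀ s : ℝ, Continuous fun x => ψ (s • i x))
    (ht2 : @T2Space L τ) (hcadd : @ContinuousAdd L τ _)
    (hcs : ∀ r : ℝ, @Continuous L L τ τ fun v => r • v)
    (hic : @Continuous X L _ τ i)
    (hsp : Submodule.span ℝ (Set.range i) = ⊤)
    (hext : ∀ t : TopologicalSpace L, @IsTLS L _ _ t → @Continuous X L _ t i →
      ∃ φ : L →ₗ[ℝ] L, @Continuous L L τ t φ ∧ ∀ x, φ (i x) = i x) :
    @Continuous L G τ tG ψ := by
  let f : ℝ → L →+ G := fun s => ψ.comp (smulAddHom ℝ L s)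
  have hf : ∀ s z, f s z = ψ (s • z) := fun s z => rfl
  have key : ∀ τ' : TopologicalSpace L, τ' = τ ⊓ ⨅ s : ℝ, TopologicalSpace.induced (f s) tG →
      @Continuous L G τ tG ψ := by
    intro τ' hτ'
    have hle1 : τ' ≤ τ := by rw [hτ']; exact inf_le_left
    have hle2 : ∀ s, τ' ≤ TopologicalSpace.induced (f s) tG := by
      intro s
      rw [hτ']
      exact inf_le_right.trans (iInf_le _ s)
    have hid1 : @Continuous L L τ' τ id := continuous_id_of_le hle1
    have hT : @IsTLS L _ _ τ' := by
      refine @IsTLS.mk L _ _ τ' ?_ ?_ ?_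
      · exact @T2Space.of_injective_continuous L L τ' τ ht2 id Function.injective_id hid1
      · have h2 : @ContinuousAdd L (⨅ s : ℝ, TopologicalSpace.induced (f s) tG) _ :=
          continuousAdd_iInf fun s => continuousAdd_induced (f s)
        have h3 : @ContinuousAdd L τ' _ := by
          rw [hτ']
          exact @continuousAdd_inf L _ τ _ hcadd h2
        exact h3.continuous_add
      · intro r
        have hA : @Continuous L L τ' τ fun v => r • v :=
          @Continuous.comp L L L τ' τ τ id (fun v => r • v) (hcs r) hid1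
        have hB : @Continuous L L τ' (⨅ s : ℝ, TopologicalSpace.induced (f s) tG)
            fun v => r • v := by
          refine continuous_iInf_rng.mpr ?_
          intro s
          refine continuous_induced_rng.mpr ?_
          have h1 : @Continuous L G τ' tG (f (s * r)) :=
            continuous_iff_le_induced.mpr (hle2 (s * r))
          have h2 : ⇑(f s) ∘ (fun v : L => r • v) = f (s * r) := by
            funext z
            show ψ (s • r • z) = ψ ((s * r) • z)
            rw [mul_smul]
          rw [h2]
          exact h1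
        have hC := continuous_inf_rng.mpr ⟨hA, hB⟩
        rwa [← hτ'] at hC
    have hi : @Continuous X L _ τ' i := by
      have hB : @Continuous X L _ (⨅ s : ℝ, TopologicalSpace.induced (f s) tG) i := by
        refine continuous_iInf_rng.mpr ?_
        intro s
        refine continuous_induced_rng.mpr ?_
        exact hψ s
      have hC := continuous_inf_rng.mpr ⟨hic, hB⟩
      rwa [← hτ'] at hC
    obtain ⟨φ, hφc, hφi⟩ := hext τ' hT hi
    have hid : φ = LinearMap.id := by
      apply LinearMap.ext_on_range hsp
      intro x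
      rw [hφi]
      rfl
    have h1 : @Continuous L L τ τ' id := by
      have : (φ : L → L) = id := by rw [hid]; rfl
      rw [← this]
      exact hφc
    have h2 : τ ≤ τ' := continuous_id_iff_le.mp h1
    have h3 : @Continuous L G τ tG (f 1) := continuous_iff_le_induced.mpr (h2.trans (hle2 1))
    have h4 : ⇑(f 1) = ψ := by
      funext z
      show ψ ((1 : ℝ) • z) = ψ z
      rw [one_smul]
    rwa [h4] at h3
  exact key _ rfl

theorem cont_of_free {X L : Type u} [TopologicalSpace X] [AddCommGroup L] [Module ℝ L]
    [τ : TopologicalSpace L] {i : X → L} (hF : IsFree X L i) {G : Type v} [AddCommGroup G]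
    [tG : TopologicalSpace G] [IsTopologicalAddGroup G] (ψ : L →+ G)
    (hψ : ∀ s : ℝ, Continuous fun x => ψ (s • i x)) : Continuous ψ :=
  cont_raw τ ψ hψ hF.tls.t2 ⟨hF.tls.cadd⟩ hF.tls.csmul hF.emb.continuous hF.sp
    (fun t ht hi => @IsFree.ext' X L _ _ _ τ i hF L _ _ t ht i hi)

end Pool.Agent.H20.FreePara
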