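import Pool.Agent.H20.FreeParaB

set_option autoImplicit false

namespace Pool.Agent.H20.FreePara

open Topology Filter

universe u v

/-- Hamel basis of the reals over the rationals -/
noncomputable def bas : Module.Basis (Module.Basis.ofVectorSpaceIndex ℚ ℝ) ℚ ℝ :=
  Module.Basis.ofVectorSpace ℚ ℝ

/-- index type of the Hamel basis -/
abbrev D : Type := Module.Basis.ofVectorSpaceIndex ℚ ℝ

/-- rational coordinates of a real number -/
noncomputable def bet (h : D) : ℝ →+ ℝ where
  toFun r := ((bas.repr r h : ℚ) : ℝ)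
  map_zero' := by simp
  map_add' := by intro a b; simp

theorem bet_bound (s : ℝ) : ∃ C : ℝ, 0 < C ∧ ∀ h, |bet h s| ≤ C := by
  refine ⟨1 + ∑ h ∈ (bas.repr s).support, |bet h s|, ?_, ?_⟩
  · have : 0 ≤ ∑ h ∈ (bas.repr s).support, |bet h s| := Finset.sum_nonneg fun _ _ => abs_nonneg _
    linarith
  · intro h
    have h0 : 0 ≤ ∑ h ∈ (bas.repr s).support, |bet h s| := Finset.sum_nonneg fun _ _ => abs_nonneg _
    by_cases hh : h ∈ (bas.repr s).support
    · have := Finset.single_le_sum (f := fun h => |bet h s|) (fun _ _ => abs_nonneg _) hh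
      linarith
    · have : bet h s = 0 := by
        show ((bas.repr s h : ℚ) : ℝ) = 0
        rw [Finsupp.notMem_support_iff.mp hh]
        simp
      rw [this, abs_zero]
      linarith

section B

variable {X : Type u} {T : Type v}

/-- the value on the multiples of a generator -/
noncomputable def atom (φ : T → X → ℝ) (x : X) : ℝ →+ UniformFun (D × T) ℝ where
  toFun s := UniformFun.ofFun fun p => bet p.1 s * φ p.2 x
  map_zero' := by
    funext p
    show bet p.1 0 * φ p.2 x = 0
    rw [map_zero, zero_mul]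
  map_add' := by
    intro a b
    funext p
    show bet p.1 (a + b) * φ p.2 x = bet p.1 a * φ p.2 x + bet p.1 b * φ p.2 x
    rw [map_add, add_mul]

theorem cont_atom [PseudoMetricSpace X] (φ : T → X → ℝ)
    (hφ : ∀ t x y, |φ t x - φ t y| ≤ dist x y) (s : ℝ) :
    Continuous fun x => atom φ x s := by
  obtain ⟨C, hC0, hC⟩ := bet_bound s
  rw [continuous_iff_continuousAt]
  intro x0
  rw [ContinuousAt, UniformFun.tendsto_iff_tendstoUniformly, Metric.tendstoUniformly_iff]
  intro ε hε
  have h1 : ∀ᶠ x in 𝓝 x0, dist x x0 < ε / C := Metric.ball_mem_nhds x0 (by positivity)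
  filter_upwards [h1] with x hx p
  show dist (bet p.1 s * φ p.2 x0) (bet p.1 s * φ p.2 x) < ε
  rw [Real.dist_eq, ← mul_sub, abs_mul]
  have h2 := hφ p.2 x0 x
  have h3 := hC p.1
  rw [dist_comm] at hx
  have h4 : |bet p.1 s| * |φ p.2 x0 - φ p.2 x| ≤ C * dist x0 x :=
    mul_le_mul h3 h2 (abs_nonneg _) hC0.le
  have h5 : C * dist x0 x < C * (ε / C) := mul_lt_mul_of_pos_left hx hC0
  have h6 : C * (ε / C) = ε := by field_simp
  linarith

variable {L : Type u} [AddCommGroup L] [Module ℝ L]

/-- the additive map into the uniformly topologized power -/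
noncomputable def psi (b : Module.Basis X ℝ L) (φ : T → X → ℝ) : L →+ UniformFun (D × T) ℝ :=
  (Finsupp.liftAddHom (atom φ)).comp b.repr.toLinearMap.toAddMonoidHom

theorem psi_gen (b : Module.Basis X ℝ L) (φ : T → X → ℝ) (x : X) (s : ℝ) :
    psi b φ (s • b x) = atom φ x s := by
  show Finsupp.liftAddHom (atom φ) (b.repr (s • b x)) = atom φ x s
  rw [map_smul, b.repr_self, Finsupp.smul_single, smul_eq_mul, mul_one,
    Finsupp.liftAddHom_apply_single]

/-- evaluation at a point of the uniformly topologized power -/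
def ev (p : D × T) : UniformFun (D × T) ℝ →+ ℝ where
  toFun g := UniformFun.toFun g p
  map_zero' := rfl
  map_add' _ _ := rfl

theorem psi_apply (b : Module.Basis X ℝ L) (φ : T → X → ℝ) (z : L) (h : D) (t : T) :
    UniformFun.toFun (psi b φ z) (h, t) = ∑ x ∈ (b.repr z).support, bet h (b.repr z x) * φ t x := by
  have e1 : psi b φ z = ∑ x ∈ (b.repr z).support, atom φ x (b.repr z x) := rfl
  have e2 : UniformFun.toFun (psi b φ z) (h, t) = ev (h, t) (psi b φ z) := rfl
  rw [e2, e1, map_sum]
  rfl

theorem small_nhds (p : Type v) (δ : ℝ) (hδ : 0 < δ) :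
    {g : UniformFun p ℝ | ∀ q, |UniformFun.toFun g q| < δ} ∈ 𝓝 (0 : UniformFun p ℝ) := by
  have h : Tendsto (fun g : UniformFun p ℝ => g) (𝓝 0) (𝓝 0) := tendsto_id
  rw [UniformFun.tendsto_iff_tendstoUniformly, Metric.tendstoUniformly_iff] at h
  filter_upwards [h δ hδ] with g hg q
  have := hg q
  rw [dist_comm, Real.dist_eq] at this
  have e : (UniformFun.toFun (0 : UniformFun p ℝ)) q = 0 := rfl
  rw [e, sub_zero] at this
  exact this

end B

theorem nhds_of_free {X L : Type u} {T : Type v} [PseudoMetricSpace X] [AddCommGroup L]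
    [Module ℝ L] [TopologicalSpace L] {i : X → L} (hF : IsFree X L i)
    (b : Module.Basis X ℝ L) (hb : ∀ x, b x = i x) (φ : T → X → ℝ)
    (hφ : ∀ t x y, |φ t x - φ t y| ≤ dist x y) (δ : ℝ) (hδ : 0 < δ) :
    {z : L | ∀ (h : D) (t : T),
      |∑ x ∈ (b.repr z).support, bet h (b.repr z x) * φ t x| < δ} ∈ 𝓝 (0 : L) := by
  have hc : Continuous (psi b φ) := by
    apply cont_of_free hF
    intro s
    have : (fun x => psi b φ (s • i x)) = fun x => atom φ x s := by
      funext x
      rw [← hb, psi_gen]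
    rw [this]
    exact cont_atom φ hφ s
  have h1 := hc.tendsto 0
  rw [map_zero] at h1
  have h2 := h1 (small_nhds (D × T) δ hδ)
  filter_upwards [h2] with z hz h t
  have := hz (h, t)
  rwa [psi_apply] at this

end Pool.Agent.H20.FreePara
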