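import Pool.Agent.H20.FreeParaC

set_option autoImplicit false

namespace Pool.Agent.H20.FreePara

open Topology Filter

universe u v

section sel

variable {X : Type u} [MetricSpace X]

theorem exists_sel (m : ℕ) : ∃ s : X → X, (∀ x, dist x (s x) < 1 / ((m : ℝ) + 1)) ∧
    ∀ (j : ℕ) (x y : X), dist x (s x) ≤ 1 / ((m : ℝ) + 1) - 1 / ((j : ℝ) + 1) →
      dist y (s y) ≤ 1 / ((m : ℝ) + 1) - 1 / ((j : ℝ) + 1) → s x ≠ s y →
      1 / ((j : ℝ) + 1) ≤ dist x y := by
  have hwf : WellFounded (WellOrderingRel (α := X)) := WellOrderingRel.isWellOrder.wf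
  have hne : ∀ x : X, {y | dist x y < 1 / ((m : ℝ) + 1)}.Nonempty := by
    intro x
    refine ⟨x, ?_⟩
    show dist x x < _
    rw [dist_self]
    positivity
  let s : X → X := fun x => hwf.min {y | dist x y < 1 / ((m : ℝ) + 1)} (hne x)
  have hs1 : ∀ x, dist x (s x) < 1 / ((m : ℝ) + 1) := fun x => hwf.min_mem _ (hne x)
  have hs2 : ∀ x y, dist x y < 1 / ((m : ℝ) + 1) → ¬ WellOrderingRel y (s x) :=
    fun x y h => hwf.not_lt_min _ h
  have key : ∀ (j : ℕ) (x y : X), dist x (s x) ≤ 1 / ((m : ℝ) + 1) - 1 / ((j : ℝ) + 1) →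
      WellOrderingRel (s x) (s y) → 1 / ((j : ℝ) + 1) ≤ dist x y := by
    intro j x y hx hr
    by_contra hcon
    push Not at hcon
    refine hs2 y (s x) ?_ hr
    have := dist_triangle y x (s x)
    rw [dist_comm y x] at this
    linarith
  refine ⟨s, hs1, ?_⟩
  intro j x y hx hy hne
  rcases trichotomous_of WellOrderingRel (s x) (s y) with h | h | h
  · exact key j x y hx h
  · exact absurd h hne
  · rw [dist_comm]
    exact key j y x hy h

end sel

theorem common_den (Q : Finset ℚ) : ∃ M : ℕ, ∀ q ∈ Q, ∃ k : ℤ, (q : ℝ) = k / ((M : ℝ) + 1) := by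
  classical
  have : ∃ N : ℕ, 0 < N ∧ ∀ q ∈ Q, ∃ k : ℤ, (q : ℝ) = k / (N : ℝ) := by
    induction Q using Finset.induction_on with
    | empty => exact ⟨1, one_pos, by simp⟩
    | insert q Q _ ih =>
      obtain ⟨N, hN, h⟩ := ih
      have hN' : (N : ℝ) ≠ 0 := by positivity
      have hq : ((q.den : ℕ) : ℝ) ≠ 0 := by
        have := q.den_nz
        exact_mod_cast this
      refine ⟨N * q.den, Nat.mul_pos hN q.den_pos, ?_⟩
      intro r hr
      rcases Finset.mem_insert.mp hr with rfl | hr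
      · refine ⟨r.num * N, ?_⟩
        have e : (r : ℝ) = (r.num : ℝ) / (r.den : ℝ) := by
          exact_mod_cast (Rat.num_div_den r).symm
        rw [e]
        push_cast
        field_simp
      · obtain ⟨k, hk⟩ := h r hr
        refine ⟨k * q.den, ?_⟩
        rw [hk]
        push_cast
        field_simp
  obtain ⟨N, hN, h⟩ := this
  refine ⟨N - 1, ?_⟩
  have e : ((N - 1 : ℕ) : ℝ) + 1 = N := by
    have : N - 1 + 1 = N := Nat.sub_add_cancel hN
    exact_mod_cast this
  rw [e]
  exact h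

section net

variable {X L : Type u} [MetricSpace X] [AddCommGroup L] [Module ℝ L] [TopologicalSpace L]
  {i : X → L}

theorem bet_ne {r r' : ℝ} (h : r ≠ r') : ∃ k : D, bet k r ≠ bet k r' := by
  by_contra hcon
  push Not at hcon
  apply h
  apply bas.repr.injective
  ext k
  have := hcon k
  have h2 : ((bas.repr r k : ℚ) : ℝ) = ((bas.repr r' k : ℚ) : ℝ) := this
  exact_mod_cast h2

/-- the pieces -/
def piece (b : Module.Basis X ℝ L) (s : X → X) (Y : Set X) (M : ℕ) : Set L :=
  {z | (∀ x ∈ (b.repr z).support, x ∈ Y) ∧ Set.InjOn s (b.repr z).support ∧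
    ∀ x h, ∃ k : ℤ, bet h (b.repr z x) = k / ((M : ℝ) + 1)}

theorem sep_piece (hF : IsFree X L i) (b : Module.Basis X ℝ L) (hb : ∀ x, b x = i x)
    (s : X → X) (Y : Set X) (ε : ℝ) (hε : 0 < ε)
    (hsep : ∀ x ∈ Y, ∀ y ∈ Y, s x ≠ s y → ε ≤ dist x y) (M : ℕ) :
    ∃ V ∈ 𝓝 (0 : L), ∀ z ∈ piece b s Y M, ∀ z' ∈ piece b s Y M,
      Finsupp.mapDomain s (b.repr z) ≠ Finsupp.mapDomain s (b.repr z') → z - z' ∉ V := by
  classical
  let F : X → Set X := fun t => {y | y ∈ Y ∧ s y = t}
  let φ : X → X → ℝ := fun t x => max (ε - Metric.infDist x (F t)) 0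
  have hφ : ∀ t x y, |φ t x - φ t y| ≤ dist x y := by
    intro t x y
    refine (abs_max_sub_max_le_abs _ _ _).trans ?_
    have h1 := Metric.infDist_le_infDist_add_dist (s := F t) (x := x) (y := y)
    have h2 := Metric.infDist_le_infDist_add_dist (s := F t) (x := y) (y := x)
    rw [dist_comm y x] at h2
    rw [abs_le]
    constructor <;> linarith
  have hφ1 : ∀ x ∈ Y, φ (s x) x = ε := by
    intro x hx
    have : Metric.infDist x (F (s x)) = 0 := Metric.infDist_zero_of_mem ⟨hx, rfl⟩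
    show max (ε - Metric.infDist x (F (s x))) 0 = ε
    rw [this, sub_zero]
    exact max_eq_left hε.le
  have hφ2 : ∀ t, (F t).Nonempty → ∀ x ∈ Y, s x ≠ t → φ t x = 0 := by
    intro t ht x hx hne
    have : ε ≤ Metric.infDist x (F t) := by
      rw [Metric.le_infDist ht]
      rintro y ⟨hy, hyt⟩
      exact hsep x hx y hy (by rw [hyt]; exact hne)
    show max (ε - Metric.infDist x (F t)) 0 = 0
    exact max_eq_right (by linarith)
  have hev : ∀ z ∈ piece b s Y M, ∀ h t, (F t).Nonempty →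
      ev (h, t) (psi b φ z) = ε * bet h (Finsupp.mapDomain s (b.repr z) t) := by
    intro z hz h t ht
    have e1 : ev (h, t) (psi b φ z) = ∑ x ∈ (b.repr z).support, bet h (b.repr z x) * φ t x :=
      psi_apply b φ z h t
    have e2 : Finsupp.mapDomain s (b.repr z) t =
        ∑ x ∈ (b.repr z).support, if s x = t then b.repr z x else 0 := by
      rw [Finsupp.mapDomain, Finsupp.sum_apply, Finsupp.sum]
      apply Finset.sum_congr rfl
      intro x _
      rw [Finsupp.single_apply]
    rw [e1, e2, map_sum, Finset.mul_sum]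
    apply Finset.sum_congr rfl
    intro x hx
    have hxY := hz.1 x hx
    by_cases hst : s x = t
    · rw [if_pos hst, ← hst, hφ1 x hxY, mul_comm]
    · rw [if_neg hst, hφ2 t ht x hxY hst, map_zero, mul_zero, mul_zero]
  have hint : ∀ z ∈ piece b s Y M, ∀ h t, ∃ k : ℤ,
      bet h (Finsupp.mapDomain s (b.repr z) t) = k / ((M : ℝ) + 1) := by
    intro z hz h t
    have e2 : Finsupp.mapDomain s (b.repr z) t =
        ∑ x ∈ (b.repr z).support, if s x = t then b.repr z x else 0 := by
      rw [Finsupp.mapDomain, Finsupp.sum_apply, Finsupp.sum]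
      apply Finset.sum_congr rfl
      intro x _
      rw [Finsupp.single_apply]
    choose k hk using fun x => hz.2.2 x h
    refine ⟨∑ x ∈ (b.repr z).support, if s x = t then k x else 0, ?_⟩
    rw [e2, map_sum]
    push_cast
    rw [Finset.sum_div]
    apply Finset.sum_congr rfl
    intro x _
    by_cases hst : s x = t
    · rw [if_pos hst, if_pos hst, hk x]
    · rw [if_neg hst, if_neg hst, map_zero]
      simp
  have hne : ∀ z ∈ piece b s Y M, ∀ t, Finsupp.mapDomain s (b.repr z) t ≠ 0 → (F t).Nonempty := by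
    intro z hz t ht
    have h1 : t ∈ (Finsupp.mapDomain s (b.repr z)).support := Finsupp.mem_support_iff.mpr ht
    obtain ⟨x, hx, hxt⟩ := Finset.mem_image.mp (Finsupp.mapDomain_support h1)
    exact ⟨x, hz.1 x hx, hxt⟩
  refine ⟨_, nhds_of_free hF b hb φ hφ (ε / ((M : ℝ) + 1)) (by positivity), ?_⟩
  intro z hz z' hz' hc hV
  obtain ⟨t, ht⟩ : ∃ t, Finsupp.mapDomain s (b.repr z) t ≠ Finsupp.mapDomain s (b.repr z') t := by
    by_contra hcon
    push Not at hcon
    exact hc (Finsupp.ext hcon)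
  obtain ⟨h, hh⟩ := bet_ne ht
  have hFt : (F t).Nonempty := by
    by_cases h0 : Finsupp.mapDomain s (b.repr z) t = 0
    · apply hne z' hz'
      intro h1
      exact ht (h0.trans h1.symm)
    · exact hne z hz t h0
  have h1 : |ev (h, t) (psi b φ (z - z'))| < ε / ((M : ℝ) + 1) := by
    have e1 : ev (h, t) (psi b φ (z - z')) =
        ∑ x ∈ (b.repr (z - z')).support, bet h (b.repr (z - z') x) * φ t x :=
      psi_apply b φ (z - z') h t
    rw [e1]
    exact hV h t
  rw [map_sub, map_sub, hev z hz h t hFt, hev z' hz' h t hFt, ← mul_sub] at h1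
  obtain ⟨k, hk⟩ := hint z hz h t
  obtain ⟨k', hk'⟩ := hint z' hz' h t
  have hkk : k ≠ k' := by
    intro e
    apply hh
    rw [hk, hk', e]
  have h2 : (1 : ℝ) ≤ |(k : ℝ) - k'| := by
    have : 1 ≤ |k - k'| := Int.one_le_abs (sub_ne_zero.mpr hkk)
    exact_mod_cast this
  rw [hk, hk', ← sub_div, abs_mul, abs_div, abs_of_pos hε,
    abs_of_pos (show (0 : ℝ) < (M : ℝ) + 1 by positivity), ← mul_div_assoc] at h1
  rw [div_lt_div_iff_of_pos_right (by positivity)] at h1
  have h3 : ε * 1 ≤ ε * |(k : ℝ) - k'| := mul_le_mul_of_nonneg_left h2 hε.le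
  linarith

end net

end Pool.Agent.H20.FreePara
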