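import Pool.Agent.H20.FreeParaD

set_option autoImplicit false

namespace Pool.Agent.H20.FreePara

open Topology Filter

universe u v

section net

variable {X L : Type u} [MetricSpace X] [AddCommGroup L] [Module ℝ L] [TopologicalSpace L]
  {i : X → L}

theorem net_piece (hF : IsFree X L i) (b : Module.Basis X ℝ L) (hb : ∀ x, b x = i x)
    (s : ℕ → X → X) (hs : ∀ m x, dist x (s m x) < 1 / ((m : ℝ) + 1))
    (z0 : L) (W : Set L) (hW : W ∈ 𝓝 z0) :
    ∃ m j M : ℕ, z0 ∈ piece b (s m) {x | dist x (s m x) ≤ 1 / ((m : ℝ) + 1) - 1 / ((j : ℝ) + 1)} M ∧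
      ∀ z' ∈ piece b (s m) {x | dist x (s m x) ≤ 1 / ((m : ℝ) + 1) - 1 / ((j : ℝ) + 1)} M,
        Finsupp.mapDomain (s m) (b.repr z') = Finsupp.mapDomain (s m) (b.repr z0) → z' ∈ W := by
  classical
  have := hF.tls.grp
  set S := (b.repr z0).support with hS
  -- the continuous map
  let G : (S → X) → L := fun g => ∑ x : S, b.repr z0 x • i (g x)
  have hG : Continuous G := by
    apply continuous_finsetSum
    intro x _
    exact (hF.tls.csmul _).comp (hF.emb.continuous.comp (continuous_apply x))
  have hrep : ∀ z : L, z = ∑ x ∈ (b.repr z).support, b.repr z x • b x := by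
    intro z
    conv_lhs => rw [← b.linearCombination_repr z]
    rfl
  have hG0 : G (fun x => (x : X)) = z0 := by
    conv_rhs => rw [hrep z0, ← hS, ← Finset.sum_coe_sort]
    apply Finset.sum_congr rfl
    intro x _
    rw [hb]
  have hWG : G ⁻¹' W ∈ 𝓝 (fun x : S => (x : X)) := by
    apply hG.continuousAt.preimage_mem_nhds
    rw [hG0]
    exact hW
  obtain ⟨δ, hδ, hball⟩ := Metric.mem_nhds_iff.mp hWG
  -- choice of m
  have hlim := tendsto_one_div_add_atTop_nhds_zero_nat (𝕜 := ℝ)
  have hev : ∀ c : ℝ, 0 < c → ∀ᶠ m : ℕ in atTop, 1 / ((m : ℝ) + 1) < c := by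
    intro c hc
    exact hlim.eventually (gt_mem_nhds hc)
  have h1 : ∀ᶠ m : ℕ in atTop, ∀ x ∈ S, ∀ y ∈ S, x ≠ y → 1 / ((m : ℝ) + 1) < dist x y / 2 := by
    rw [Filter.eventually_all_finset]
    intro x _
    rw [Filter.eventually_all_finset]
    intro y _
    by_cases hxy : x = y
    · exact Filter.Eventually.of_forall fun m h => absurd hxy h
    · filter_upwards [hev (dist x y / 2) (by have := dist_pos.mpr hxy; linarith)] with m hm _
      exact hm
  obtain ⟨m, hm1, hm2⟩ := (h1.and (hev (δ / 2) (by linarith))).exists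
  -- choice of j
  have h2 : ∀ᶠ j : ℕ in atTop, ∀ x ∈ S,
      dist x (s m x) ≤ 1 / ((m : ℝ) + 1) - 1 / ((j : ℝ) + 1) := by
    rw [Filter.eventually_all_finset]
    intro x _
    filter_upwards [hev (1 / ((m : ℝ) + 1) - dist x (s m x)) (by linarith [hs m x])] with j hj
    linarith
  obtain ⟨j, hj⟩ := h2.exists
  obtain ⟨M, hM⟩ := common_den
    (S.biUnion fun x => (bas.repr (b.repr z0 x)).support.image fun h => bas.repr (b.repr z0 x) h)
  have hinj : Set.InjOn (s m) (b.repr z0).support := by
    intro x hx y hy hxy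
    by_contra hne
    have h3 := hm1 x hx y hy hne
    have h4 := hs m x
    have h5 := hs m y
    have h6 := dist_triangle x (s m x) y
    rw [← hxy, dist_comm] at h5
    linarith
  refine ⟨m, j, M, ⟨?_, hinj, ?_⟩, ?_⟩
  · intro x hx
    exact hj x hx
  · intro x h
    by_cases hx : x ∈ S
    · by_cases hh : h ∈ (bas.repr (b.repr z0 x)).support
      · exact hM _ (Finset.mem_biUnion.mpr ⟨x, hx, Finset.mem_image.mpr ⟨h, hh, rfl⟩⟩)
      · refine ⟨0, ?_⟩
        show ((bas.repr (b.repr z0 x) h : ℚ) : ℝ) = _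
        rw [Finsupp.notMem_support_iff.mp hh]
        simp
    · refine ⟨0, ?_⟩
      rw [Finsupp.notMem_support_iff.mp hx, map_zero]
      simp
  · intro z' hz' hc
    have hinj' := hz'.2.1
    -- the bijection
    have hval : ∀ z : L, Set.InjOn (s m) (b.repr z).support → ∀ x ∈ (b.repr z).support,
        Finsupp.mapDomain (s m) (b.repr z) (s m x) = b.repr z x := by
      intro z hz x hx
      exact Finsupp.mapDomain_apply' _ _ (le_refl _) hz hx
    have hback : ∀ z : L, ∀ t, Finsupp.mapDomain (s m) (b.repr z) t ≠ 0 →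
        ∃ x ∈ (b.repr z).support, s m x = t := by
      intro z t ht
      have h1 : t ∈ (Finsupp.mapDomain (s m) (b.repr z)).support := Finsupp.mem_support_iff.mpr ht
      exact Finset.mem_image.mp (Finsupp.mapDomain_support h1)
    have hex : ∀ x : S, ∃ x' ∈ (b.repr z').support, s m x' = s m x := by
      intro x
      apply hback
      rw [hc, hval z0 hinj x x.2]
      exact Finsupp.mem_support_iff.mp x.2
    choose g hg1 hg2 using hex
    have hgv : ∀ x : S, b.repr z' (g x) = b.repr z0 x := by
      intro x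
      rw [← hval z' hinj' (g x) (hg1 x), hg2, hc, hval z0 hinj x x.2]
    have hGg : G g = z' := by
      conv_rhs => rw [hrep z']
      refine Finset.sum_bij (fun x _ => g x) ?_ ?_ ?_ ?_
      · intro x _
        exact hg1 x
      · intro x _ y _ hxy
        have hxy' : g x = g y := hxy
        apply Subtype.ext
        apply hinj x.2 y.2
        rw [← hg2 x, ← hg2 y, hxy']
      · intro x' hx'
        obtain ⟨x, hx, hxx⟩ := hback z0 (s m x') (by
          rw [← hc, hval z' hinj' x' hx']
          exact Finsupp.mem_support_iff.mp hx')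
        refine ⟨⟨x, hx⟩, Finset.mem_univ _, ?_⟩
        apply hinj' (hg1 _) hx'
        rw [hg2]
        exact hxx
      · intro x _
        rw [hgv, hb]
    have hmem : g ∈ Metric.ball (fun x : S => (x : X)) δ := by
      rw [Metric.mem_ball, dist_pi_lt_iff hδ]
      intro x
      have h3 := hs m (g x)
      have h4 := hs m x
      have h5 := dist_triangle (g x) (s m x) x
      rw [hg2] at h3
      rw [dist_comm (s m x) x] at h5
      linarith
    have := hball hmem
    rw [Set.mem_preimage, hGg] at this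
    exact this

theorem para_metric (hF : IsFree X L i) : ParacompactSpace L := by
  classical
  have hgrp := hF.tls.grp
  let b : Module.Basis X ℝ L := Module.Basis.mk hF.li hF.sp.ge
  have hb : ∀ x, b x = i x := fun x => Module.Basis.mk_apply _ _ x
  choose s hs1 hs2 using fun m => exists_sel (X := X) m
  let e : ℕ ≃ ℕ × ℕ × ℕ := (Denumerable.eqv (ℕ × ℕ × ℕ)).symm
  let Y : ℕ → ℕ → Set X := fun m j =>
    {x | dist x (s m x) ≤ 1 / ((m : ℝ) + 1) - 1 / ((j : ℝ) + 1)}
  have hsep : ∀ n : ℕ, ∃ V ∈ 𝓝 (0 : L), ∀ z ∈ piece b (s (e n).1) (Y (e n).1 (e n).2.1) (e n).2.2,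
      ∀ z' ∈ piece b (s (e n).1) (Y (e n).1 (e n).2.1) (e n).2.2,
      Finsupp.mapDomain (s (e n).1) (b.repr z) ≠ Finsupp.mapDomain (s (e n).1) (b.repr z') →
        z - z' ∉ V := by
    intro n
    apply sep_piece hF b hb (s (e n).1) (Y (e n).1 (e n).2.1) (1 / (((e n).2.1 : ℝ) + 1))
      (by positivity)
    intro x hx y hy hne
    exact hs2 _ _ x y hx hy hne
  choose V hV hVs using hsep
  refine paracompact_of_network
    (fun n => piece b (s (e n).1) (Y (e n).1 (e n).2.1) (e n).2.2)
    (fun n z => Finsupp.mapDomain (s (e n).1) (b.repr z)) V hV hVs ?_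
  intro z W hW
  obtain ⟨m, j, M, h1, h2⟩ := net_piece hF b hb s hs1 z W hW
  refine ⟨e.symm (m, j, M), ?_⟩
  simp only [Equiv.apply_symm_apply]
  exact ⟨h1, h2⟩

end net

theorem para_main {X L : Type u} [TopologicalSpace X] [TopologicalSpace.MetrizableSpace X]
    [AddCommGroup L] [Module ℝ L] [TopologicalSpace L] {i : X → L} (hF : IsFree X L i) :
    ParacompactSpace L := by
  let _ := TopologicalSpace.metrizableSpaceMetric X
  exact para_metric hF

end Pool.Agent.H20.FreePara
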