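import Pool.Agent.H20.FreeParaB

set_option autoImplicit false

namespace Pool.Agent.H20.FreePara

open Topology Filter

universe u v

/-- admissible topologies on the free vector space -/
def Adm (X : Type u) [TopologicalSpace X] : Set (TopologicalSpace (X →₀ ℝ)) :=
  {t | @ContinuousAdd (X →₀ ℝ) t _ ∧ (∀ r : ℝ, @Continuous _ _ t t fun v : X →₀ ℝ => r • v) ∧
    @Continuous X (X →₀ ℝ) _ t fun x => Finsupp.single x 1}

/-- the free topology -/
@[reducible] def freeTop (X : Type u) [TopologicalSpace X] : TopologicalSpace (X →₀ ℝ) := sInf (Adm X)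

section ex

variable {X : Type u} [TopologicalSpace X]

theorem freeTop_mem : freeTop X ∈ Adm X := by
  refine ⟨?_, ?_, ?_⟩
  · exact continuousAdd_sInf fun t ht => ht.1
  · intro r
    refine continuous_sInf_rng.mpr ?_
    intro t ht
    exact continuous_sInf_dom ht (ht.2.1 r)
  · refine continuous_sInf_rng.mpr ?_
    intro t ht
    exact ht.2.2

theorem cont_lift {E : Type v} [AddCommGroup E] [Module ℝ E] [tE : TopologicalSpace E]
    (hadd : ContinuousAdd E) (hsm : ∀ r : ℝ, Continuous fun v : E => r • v) (f : X → E)
    (hf : Continuous f) :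
    @Continuous (X →₀ ℝ) E (freeTop X) tE (Finsupp.linearCombination ℝ f) := by
  have hadm : TopologicalSpace.induced (Finsupp.linearCombination ℝ f) tE ∈ Adm X := by
    refine ⟨?_, ?_, ?_⟩
    · exact continuousAdd_induced (Finsupp.linearCombination ℝ f)
    · intro r
      refine continuous_induced_rng.mpr ?_
      have h1 : (⇑(Finsupp.linearCombination ℝ f) ∘ fun v : X →₀ ℝ => r • v) =
          (fun v : E => r • v) ∘ ⇑(Finsupp.linearCombination ℝ f) := by
        funext v
        show Finsupp.linearCombination ℝ f (r • v) = r • Finsupp.linearCombination ℝ f v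
        rw [map_smul]
      rw [h1]
      exact @Continuous.comp _ _ _ (TopologicalSpace.induced (Finsupp.linearCombination ℝ f) tE)
        tE tE _ _ (hsm r) continuous_induced_dom
    · refine continuous_induced_rng.mpr ?_
      have h1 : (⇑(Finsupp.linearCombination ℝ f) ∘ fun x : X => Finsupp.single x (1 : ℝ)) = f := by
        funext x
        show Finsupp.linearCombination ℝ f (Finsupp.single x 1) = f x
        rw [Finsupp.linearCombination_single, one_smul]
      rw [h1]
      exact hf
  exact continuous_iff_le_induced.mpr (sInf_le hadm)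

theorem exists_free [T35Space X] :
    ∃ (L : Type u) (g : AddCommGroup L) (m : Module ℝ L) (t : TopologicalSpace L) (i : X → L),
      @IsFree X L _ g m t i := by
  classical
  have hreal : ∀ r : ℝ, Continuous fun v : ℝ => r • v := fun r => continuous_const.mul continuous_id
  have hfun : ∀ f : X → ℝ, Continuous f →
      @Continuous (X →₀ ℝ) ℝ (freeTop X) _ (Finsupp.linearCombination ℝ f) :=
    fun f hf => cont_lift inferInstance hreal f hf
  let _ : TopologicalSpace (X →₀ ℝ) := freeTop X
  have hadm := freeTop_mem (X := X)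
  refine ⟨X →₀ ℝ, inferInstance, inferInstance, freeTop X, fun x => Finsupp.single x 1, ?_⟩
  have hcadd : ContinuousAdd (X →₀ ℝ) := hadm.1
  have hsep : ∀ z : X →₀ ℝ, z ≠ 0 → ∃ f : X → ℝ, Continuous f ∧
      Finsupp.linearCombination ℝ f z ≠ 0 := by
    intro z hz
    obtain ⟨x0, hx0⟩ := Finsupp.support_nonempty_iff.mpr hz
    obtain ⟨f, hf, hf0, hf1⟩ := CompletelyRegularSpace.completely_regular x0
      ((z.support.erase x0 : Finset X) : Set X) (Finset.finite_toSet _).isClosed
      (by simp)
    refine ⟨fun x => 1 - (f x : ℝ), continuous_const.sub (continuous_subtype_val.comp hf), ?_⟩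
    rw [Finsupp.linearCombination_apply, Finsupp.sum, Finset.sum_eq_single x0]
    · rw [hf0]
      simpa using hx0
    · intro x hx hne
      have : f x = 1 := hf1 (Finset.mem_coe.mpr (Finset.mem_erase.mpr ⟨hne, hx⟩))
      rw [this]
      simp
    · intro h
      exact absurd hx0 h
  refine
    { tls := ⟨?_, hadm.1.continuous_add, hadm.2.1⟩
      emb := ⟨?_, ?_⟩
      li := ?_
      sp := ?_
      ext := ?_ }
  · refine ⟨fun z z' hne => ?_⟩
    obtain ⟨f, hf, h⟩ := hsep (z - z') (sub_ne_zero.mpr hne)
    have hne' : Finsupp.linearCombination ℝ f z ≠ Finsupp.linearCombination ℝ f z' := by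
      intro e
      apply h
      rw [map_sub, e, sub_self]
    obtain ⟨U, V, hU, hV, hzU, hzV, hd⟩ := t2_separation hne'
    exact ⟨_, _, hU.preimage (hfun f hf), hV.preimage (hfun f hf), hzU, hzV, hd.preimage _⟩
  · rw [isInducing_iff_nhds]
    intro x0
    apply le_antisymm
    · rw [← Filter.tendsto_iff_comap]
      exact hadm.2.2.tendsto x0
    · intro U hU
      obtain ⟨U', hU'U, hU'o, hx0⟩ := mem_nhds_iff.mp hU
      obtain ⟨f, hf, hf0, hf1⟩ := CompletelyRegularSpace.completely_regular x0 U'ᶜ
        hU'o.isClosed_compl (by simpa using hx0)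
      have hfc : Continuous fun x => (f x : ℝ) := continuous_subtype_val.comp hf
      have hc := hfun _ hfc
      refine Filter.mem_comap.mpr
        ⟨{z | Finsupp.linearCombination ℝ (fun x => (f x : ℝ)) z < 1}, ?_, ?_⟩
      · apply (isOpen_lt hc continuous_const).mem_nhds
        show Finsupp.linearCombination ℝ (fun x => (f x : ℝ)) (Finsupp.single x0 1) < 1
        rw [Finsupp.linearCombination_single, hf0]
        simp
      · intro x hx
        have hx' : Finsupp.linearCombination ℝ (fun x => (f x : ℝ)) (Finsupp.single x 1) < 1 := hx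
        rw [Finsupp.linearCombination_single, one_smul] at hx'
        apply hU'U
        by_contra hcon
        have : f x = 1 := hf1 hcon
        rw [this] at hx'
        simp at hx'
  · exact fun x y h => (Finsupp.single_left_inj one_ne_zero).mp h
  · have := (Finsupp.basisSingleOne (R := ℝ) (ι := X)).linearIndependent
    rwa [Finsupp.coe_basisSingleOne] at this
  · have := (Finsupp.basisSingleOne (R := ℝ) (ι := X)).span_eq
    rwa [Finsupp.coe_basisSingleOne] at this
  · intro E _ _ _ hE f hf
    refine ⟨Finsupp.linearCombination ℝ f, ⟨cont_lift ⟨hE.cadd⟩ hE.csmul f hf, ?_⟩, ?_⟩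
    · intro x
      rw [Finsupp.linearCombination_single, one_smul]
    · rintro φ ⟨_, hφ⟩
      ext x
      rw [LinearMap.comp_apply, LinearMap.comp_apply, Finsupp.lsingle_apply,
        Finsupp.linearCombination_single, one_smul]
      exact hφ x

end ex

end Pool.Agent.H20.FreePara
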