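import Mathlib

set_option autoImplicit false

namespace Pool.Agent.H20.KDet

open Cardinal Topology

/-- iterated power sets of the naturals -/
def P : ℕ → Type
  | 0 => ℕ
  | n + 1 => Set (P n)

/-- sizes -/
def c (n : ℕ) : Cardinal.{0} := #(P n)

theorem c_lt (n : ℕ) : c n < c (n + 1) := by
  show #(P n) < #(Set (P n))
  rw [Cardinal.mk_set]
  exact Cardinal.cantor _

theorem c_inf (n : ℕ) : ℵ₀ ≤ c n := by
  induction n with
  | zero => exact (Cardinal.mk_nat).ge
  | succ n ih => exact ih.trans (c_lt n).le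

theorem c_mono {m n : ℕ} (h : m ≤ n) : c m ≤ c n := by
  induction n, h using Nat.le_induction with
  | base => exact le_refl _
  | succ n _ ih => exact ih.trans (c_lt n).le

theorem small_union (n : ℕ) {α : Type} (s t : Set α) (hs : #s ≤ c n) (ht : #t ≤ c n) :
    #(s ∪ t : Set α) ≤ c n :=
  (Cardinal.mk_union_le s t).trans (Cardinal.add_le_of_le (c_inf n) hs ht)

theorem small_iUnion (n : ℕ) {α : Type} (s : ℕ → Set α) (hs : ∀ j, #(s j) ≤ c n) :
    #(⋃ j, s j : Set α) ≤ c n := by
  refine Cardinal.mk_iUnion_le_sum_mk.trans ?_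
  refine (Cardinal.sum_le_sum _ (fun _ => c n) hs).trans ?_
  rw [Cardinal.sum_const', Cardinal.mk_nat]
  exact (Cardinal.mul_le_max_of_aleph0_le_right (c_inf n)).trans
    (max_le (c_inf n) (le_refl _))

theorem small_mono (n : ℕ) {α : Type} {s t : Set α} (h : s ⊆ t) (ht : #t ≤ c n) :
    #s ≤ c n := (Cardinal.mk_le_mk_of_subset h).trans ht

theorem small_single (n : ℕ) {α : Type} (a : α) : #({a} : Set α) ≤ c n := by
  rw [Cardinal.mk_singleton]
  exact Cardinal.one_le_aleph0.trans (c_inf n)

theorem small_empty (n : ℕ) {α : Type} : #(∅ : Set α) ≤ c n :=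
  (Cardinal.mk_eq_zero (∅ : Set α)).le.trans (Cardinal.aleph0_pos.le.trans (c_inf n))

/-- the space with small closed sets -/
def XX (n : ℕ) : Type := P (n + 1)

theorem mk_XX (n : ℕ) : #(XX n) = c (n + 1) := rfl

instance (n : ℕ) : TopologicalSpace (XX n) :=
  TopologicalSpace.ofClosed {s | s = Set.univ ∨ #s ≤ c n}
    (Or.inr (small_empty n))
    (by
      intro A hA
      by_cases h : ∀ s ∈ A, s = Set.univ
      · left
        exact Set.sInter_eq_univ.mpr h
      · push Not at h
        obtain ⟨s, hs, hne⟩ := h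
        right
        rcases hA hs with h1 | h1
        · exact absurd h1 hne
        · exact small_mono n (Set.sInter_subset_of_mem hs) h1)
    (by
      rintro s (rfl | hs) t (rfl | ht)
      · left; exact Set.univ_union _
      · left; exact Set.univ_union _
      · left; exact Set.union_univ _
      · right
        exact small_union n s t hs ht)

theorem closed_XX (n : ℕ) (s : Set (XX n)) : IsClosed s ↔ s = Set.univ ∨ #s ≤ c n := by
  rw [← isOpen_compl_iff]
  show sᶜᶜ ∈ {s : Set (XX n) | s = Set.univ ∨ #s ≤ c n} ↔ _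
  rw [compl_compl]
  rfl

/-- the extended space, with an additional generic point -/
def TT (n : ℕ) : Type := Option (P (n + 1))

instance (n : ℕ) : TopologicalSpace (TT n) :=
  TopologicalSpace.ofClosed {s : Set (Option (P (n + 1))) | s = Set.univ ∨ (none ∉ s ∧ #s ≤ c n)}
    (Or.inr ⟨Set.notMem_empty _, small_empty n⟩)
    (by
      intro A hA
      by_cases h : ∀ s ∈ A, s = Set.univ
      · left
        exact Set.sInter_eq_univ.mpr h
      · push Not at h
        obtain ⟨s, hs, hne⟩ := h
        right
        rcases hA hs with h1 | h1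
        · exact absurd h1 hne
        · exact ⟨fun h2 => h1.1 (Set.sInter_subset_of_mem hs h2),
            small_mono n (Set.sInter_subset_of_mem hs) h1.2⟩)
    (by
      rintro s (rfl | hs) t (rfl | ht)
      · left; exact Set.univ_union _
      · left; exact Set.univ_union _
      · left; exact Set.union_univ _
      · right
        exact ⟨fun h => h.elim hs.1 ht.1, small_union n s t hs.2 ht.2⟩)

/-- the generic point -/
def top (n : ℕ) : TT n := (none : Option (P (n + 1)))

/-- inclusion -/
def inc (n : ℕ) (x : XX n) : TT n := (some x : Option (P (n + 1)))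

theorem inc_ne (n : ℕ) (x : XX n) : inc n x ≠ top n := by
  intro h
  exact Option.some_ne_none _ h

theorem inc_inj (n : ℕ) : Function.Injective (inc n) := Option.some_injective _

theorem closed_TT (n : ℕ) (s : Set (TT n)) :
    IsClosed s ↔ s = Set.univ ∨ (top n ∉ s ∧ #s ≤ c n) := by
  rw [← isOpen_compl_iff]
  show sᶜᶜ ∈ {s : Set (TT n) | s = Set.univ ∨ (top n ∉ s ∧ #s ≤ c n)} ↔ _
  rw [compl_compl]
  rfl

theorem inc_cont (n : ℕ) : Continuous (inc n) := by
  rw [continuous_iff_isClosed]
  intro s hs
  rw [closed_TT] at hs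
  rw [closed_XX]
  rcases hs with rfl | ⟨_, hs⟩
  · left; simp
  · right
    exact (Cardinal.mk_preimage_of_injective _ _ (inc_inj n)).trans hs

theorem top_mem (n : ℕ) (U : Set (TT n)) (hU : IsOpen U) (hne : U.Nonempty) : top n ∈ U := by
  by_contra h
  have h1 := (closed_TT n Uᶜ).mp hU.isClosed_compl
  rcases h1 with h1 | h1
  · obtain ⟨x, hx⟩ := hne
    have : x ∈ Uᶜ := by rw [h1]; exact Set.mem_univ _
    exact this hx
  · exact h1.1 h

theorem top_spec (n : ℕ) (x : TT n) : top n ⤳ x := by
  rw [specializes_iff_forall_open]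
  intro U hU hx
  exact top_mem n U hU ⟨x, hx⟩

theorem single_closed (n : ℕ) (x : TT n) (hx : x ≠ top n) : IsClosed ({x} : Set (TT n)) := by
  rw [closed_TT]
  right
  exact ⟨fun h => hx h.symm, small_single n x⟩

instance (n : ℕ) : T0Space (TT n) := by
  constructor
  intro x y hxy
  by_contra hne
  by_cases hx : x = top n
  · have hy : y ≠ top n := fun h => hne (hx.trans h.symm)
    have h1 := (hxy.mem_closed_iff (single_closed n y hy)).mpr rfl
    exact hne h1
  · have h1 := (hxy.mem_closed_iff (single_closed n x hx)).mp rfl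
    exact hne h1.symm

instance (n : ℕ) : T1Space (XX n) := by
  constructor
  intro x
  rw [closed_XX]
  exact Or.inr (small_single n x)

theorem big (n : ℕ) (S : ℕ → Set (XX n)) (hS : ∀ j, #(S j) ≤ c n) : ∃ x, ∀ j, x ∉ S j := by
  by_contra hcon
  push Not at hcon
  have h1 : (⋃ j, S j) = Set.univ := Set.eq_univ_iff_forall.mpr fun x =>
    Set.mem_iUnion.mpr (hcon x)
  have h2 := small_iUnion n S hS
  rw [h1, Cardinal.mk_univ, mk_XX] at h2
  exact absurd (c_lt n) (not_lt.mpr h2)

/-- the non-sober target -/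
def Z : Type := {x : ∀ n, TT n // {n | x n = top n}.Finite}

instance : TopologicalSpace Z := inferInstanceAs (TopologicalSpace {x : ∀ n, TT n // {n | x n = top n}.Finite})

instance : T0Space Z := inferInstanceAs (T0Space {x : ∀ n, TT n // {n | x n = top n}.Finite})

/-- coordinates -/
def crd (j : ℕ) (z : Z) : TT j := z.1 j

theorem Z_spec (a b : Z) (h : ∀ j, a.1 j ⤳ b.1 j) : a ⤳ b :=
  (Topology.IsInducing.specializes_iff (f := (Subtype.val : Z → ∀ n, TT n)) ⟨rfl⟩).mp
    (specializes_pi.mpr h)

theorem crd_cont (j : ℕ) : Continuous (crd j) := (continuous_apply j).comp continuous_subtype_val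

/-- the map from the product -/
def F (x : ∀ n, XX n) : Z := ⟨fun n => inc n (x n), by
  have : {n | inc n (x n) = top n} = ∅ := by
    rw [Set.eq_empty_iff_forall_notMem]
    intro n hn
    exact inc_ne n _ hn
  rw [this]
  exact Set.finite_empty⟩

theorem F_cont : Continuous F :=
  Continuous.subtype_mk (continuous_pi fun n => (inc_cont n).comp (continuous_apply n))
    (fun x => (F x).2)

theorem F_crd (x : ∀ n, XX n) (n : ℕ) : crd n (F x) = inc n (x n) := rfl

/-- irreducibility: a map into `TT j` with non-dense range is constant -/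
theorem const_of_small (n j : ℕ) (g : XX n → TT j) (hg : Continuous g) (C : Set (TT j))
    (hC : top j ∉ C) (hCs : #C ≤ c j) (hr : Set.range g ⊆ C) : ∀ x y, g x = g y := by
  intro x y
  by_contra hne
  have h1 : IsClosed (C \ {g x}) := by
    rw [closed_TT]
    exact Or.inr ⟨fun h => hC h.1, small_mono j Set.sdiff_subset hCs⟩
  have h2 : IsClosed ({g x} : Set (TT j)) :=
    single_closed j _ (fun h => hC (h ▸ hr ⟨x, rfl⟩))
  have h3 := (closed_XX n _).mp (h1.preimage hg)
  have h4 := (closed_XX n _).mp (h2.preimage hg)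
  have hcov : ∀ z, z ∈ g ⁻¹' (C \ {g x}) ∨ z ∈ g ⁻¹' {g x} := by
    intro z
    by_cases h : g z = g x
    · exact Or.inr h
    · exact Or.inl ⟨hr ⟨z, rfl⟩, h⟩
  rcases h3 with h3 | h3
  · have : x ∈ g ⁻¹' (C \ {g x}) := by rw [h3]; exact Set.mem_univ _
    exact this.2 rfl
  rcases h4 with h4 | h4
  · have : y ∈ g ⁻¹' {g x} := by rw [h4]; exact Set.mem_univ _
    exact hne this.symm
  obtain ⟨z, hz⟩ := big n (fun i => if i = 0 then g ⁻¹' (C \ {g x}) else g ⁻¹' {g x}) (by
    intro i
    by_cases hi : i = 0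
    · simp only [hi, if_true]; exact h3
    · simp only [hi, if_false]; exact h4)
  rcases hcov z with h5 | h5
  · exact hz 0 (by simpa using h5)
  · exact hz 1 (by simpa using h5)

end Pool.Agent.H20.KDet
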