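import Pool.Agent.H20.KDetA

set_option autoImplicit false

namespace Pool.Agent.H20.KDet

open Cardinal Topology

theorem irr_closed (n : ℕ) (A : Set (XX n)) (hA : IsIrreducible A) (hc : IsClosed A) :
    A = Set.univ ∨ ∃ a, A = {a} := by
  rcases (closed_XX n A).mp hc with h | h
  · exact Or.inl h
  · right
    obtain ⟨a, ha⟩ := hA.1
    refine ⟨a, ?_⟩
    by_contra hne
    have h1 : ∃ b ∈ A, b ≠ a := by
      by_contra hcon
      push Not at hcon
      exact hne (Set.eq_singleton_iff_unique_mem.mpr ⟨ha, hcon⟩)
    obtain ⟨b, hb, hba⟩ := h1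
    have hcl : IsClosed (A \ {a}) := by
      rw [closed_XX]
      exact Or.inr (small_mono n Set.sdiff_subset h)
    obtain ⟨x, hx, hx1, hx2⟩ := hA.2 ({a}ᶜ) ((A \ {a})ᶜ) isOpen_compl_singleton hcl.isOpen_compl
      ⟨b, hb, hba⟩ ⟨a, ha, fun h => h.2 rfl⟩
    exact hx2 ⟨hx, hx1⟩

theorem open_small (n : ℕ) (U : Set (XX n)) (hU : IsOpen U) (hne : U.Nonempty) :
    #(Uᶜ : Set (XX n)) ≤ c n := by
  rcases (closed_XX n Uᶜ).mp hU.isClosed_compl with h | h
  · obtain ⟨x, hx⟩ := hne
    have : x ∈ Uᶜ := by rw [h]; exact Set.mem_univ _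
    exact absurd hx this
  · exact h

theorem key (n : ℕ) (f : XX n → Z) (hf : Continuous f) :
    ∃ z : Z, closure (Set.range f) = closure {z} := by
  classical
  obtain ⟨x₀, -⟩ := big n (fun _ => ∅) (fun _ => small_empty n)
  let g : ∀ j, XX n → TT j := fun j x => crd j (f x)
  have hg : ∀ j, Continuous (g j) := fun j => (crd_cont j).comp hf
  let z0 : ∀ j, TT j := fun j => if ∀ x y, g j x = g j y then g j x₀ else top j
  have hz1 : ∀ j, (∀ x y, g j x = g j y) → z0 j = g j x₀ := fun j h => if_pos h
  have hz2 : ∀ j, (¬ ∀ x y, g j x = g j y) → z0 j = top j := fun j h => if_neg h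
  have hspec : ∀ j x, z0 j ⤳ g j x := by
    intro j x
    by_cases h : ∀ x y, g j x = g j y
    · rw [hz1 j h, h x₀ x]
    · rw [hz2 j h]
      exact top_spec j _
  have hdense : ∀ j, (¬ ∀ x y, g j x = g j y) → ∀ U : Set (TT j), IsOpen U → U.Nonempty →
      #((g j ⁻¹' U)ᶜ : Set (XX n)) ≤ c n := by
    intro j hnc U hU hne
    have h1 : IsClosed (g j ⁻¹' U)ᶜ := (hU.preimage (hg j)).isClosed_compl
    rcases (closed_XX n _).mp h1 with h2 | h2
    · exfalso
      apply hnc
      rcases (closed_TT j Uᶜ).mp hU.isClosed_compl with h3 | h3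
      · obtain ⟨x, hx⟩ := hne
        have : x ∈ Uᶜ := by rw [h3]; exact Set.mem_univ _
        exact absurd hx this
      · apply const_of_small n j (g j) (hg j) Uᶜ h3.1 h3.2
        rintro _ ⟨x, rfl⟩
        have : x ∈ (g j ⁻¹' U)ᶜ := by rw [h2]; exact Set.mem_univ _
        exact this
    · exact h2
  have htop : ∀ j, n < j → z0 j = top j → #({x | g j x ≠ top j} : Set (XX n)) ≤ c n := by
    intro j hj hz
    by_cases h : ∀ x y, g j x = g j y
    · have h1 : g j x₀ = top j := (hz1 j h).symm.trans hz
      have : ({x | g j x ≠ top j} : Set (XX n)) = ∅ := by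
        rw [Set.eq_empty_iff_forall_notMem]
        intro x hx
        exact hx ((h x x₀).trans h1)
      rw [this]
      exact small_empty n
    · have hsm : #(Set.range (g j) \ {top j} : Set (TT j)) ≤ c j := by
        apply small_mono j Set.sdiff_subset
        refine Cardinal.mk_range_le.trans ?_
        rw [mk_XX]
        exact c_mono hj
      have hcl : IsClosed (Set.range (g j) \ {top j} : Set (TT j)) := by
        rw [closed_TT]
        exact Or.inr ⟨fun h => h.2 rfl, hsm⟩
      have heq : ({x | g j x ≠ top j} : Set (XX n)) = g j ⁻¹' (Set.range (g j) \ {top j}) := by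
        ext x
        constructor
        · intro hx
          exact ⟨⟨x, rfl⟩, hx⟩
        · intro hx
          exact hx.2
      rw [heq]
      rcases (closed_XX n _).mp (hcl.preimage (hg j)) with h2 | h2
      · exfalso
        apply h
        apply const_of_small n j (g j) (hg j) _ (fun h => h.2 rfl) hsm
        rintro _ ⟨x, rfl⟩
        have : x ∈ g j ⁻¹' (Set.range (g j) \ {top j}) := by rw [h2]; exact Set.mem_univ _
        exact this
      · exact h2
  have hfin : {j | z0 j = top j}.Finite := by
    by_contra hinf
    have hinf : {j | z0 j = top j}.Infinite := hinf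
    have hinf2 : ({j | z0 j = top j} \ {j | j ≤ n}).Infinite :=
      hinf.sdiff (Set.finite_le_nat n)
    obtain ⟨x, hx⟩ := big n (fun j => if z0 j = top j ∧ n < j then {x | g j x ≠ top j} else ∅) (by
      intro j
      by_cases h : z0 j = top j ∧ n < j
      · simp only [h, and_self, if_true]
        exact htop j h.2 h.1
      · simp only [h, if_false]
        exact small_empty n)
    apply hinf2
    apply (f x).2.subset
    rintro j ⟨hj1, hj2⟩
    have hj3 : n < j := not_le.mp hj2
    have h1 := hx j
    have h2 : (z0 j = top j ∧ n < j) := ⟨hj1, hj3⟩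
    simp only [h2, and_self, if_true, Set.mem_ofPred_eq, not_not] at h1
    exact h1
  refine ⟨⟨z0, hfin⟩, Set.Subset.antisymm ?_ ?_⟩
  · apply closure_minimal _ isClosed_closure
    rintro _ ⟨x, rfl⟩
    rw [← specializes_iff_mem_closure]
    exact Z_spec _ _ fun j => hspec j x
  · apply closure_minimal _ isClosed_closure
    rw [Set.singleton_subset_iff, mem_closure_iff]
    rintro o ⟨W, hW, rfl⟩ hz
    obtain ⟨I, u, hu, hsub⟩ := isOpen_pi_iff.mp hW z0 hz
    obtain ⟨x, hx⟩ := big n (fun j => if j ∈ I then (g j ⁻¹' (u j))ᶜ else ∅) (by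
      intro j
      by_cases h : j ∈ I
      · simp only [h, if_true]
        by_cases hc : ∀ x y, g j x = g j y
        · have : ((g j ⁻¹' (u j))ᶜ : Set (XX n)) = ∅ := by
            rw [Set.eq_empty_iff_forall_notMem]
            intro y hy
            apply hy
            show g j y ∈ u j
            rw [hc y x₀, ← hz1 j hc]
            exact (hu j h).2
          rw [this]
          exact small_empty n
        · exact hdense j hc (u j) (hu j h).1 ⟨_, (hu j h).2⟩
      · simp only [h, if_false]
        exact small_empty n)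
    refine ⟨f x, ?_, ⟨x, rfl⟩⟩
    apply hsub
    intro j hj
    have h1 := hx j
    have h2 : j ∈ I := hj
    simp only [h2, if_true, Set.mem_compl_iff, not_not] at h1
    exact h1

theorem main_neg : ¬ (∀ K : (∀ (Y : Type) [TopologicalSpace Y], Prop),
      (∀ (Y : Type) [TopologicalSpace Y], K Y → T0Space Y) →
      (∀ (Y : Type) [TopologicalSpace Y], T0Space Y → QuasiSober Y → K Y) →
      ∀ (I : Type) (X : I → Type) [∀ i, TopologicalSpace (X i)],
        (∀ i, T0Space (X i) ∧ ∀ A : Set (X i), IsIrreducible A → IsClosed A →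
          ∀ (Y : Type) [TopologicalSpace Y], K Y → ∀ f : X i → Y, Continuous f →
            ∃! y : Y, closure (f '' A) = closure {y}) →
        ∀ A : Set (∀ i, X i), IsIrreducible A → IsClosed A →
          ∀ (Y : Type) [TopologicalSpace Y], K Y → ∀ f : (∀ i, X i) → Y, Continuous f →
            ∃! y : Y, closure (f '' A) = closure {y}) := by
  intro H
  have huniq : ∀ (Y : Type) [TopologicalSpace Y] [T0Space Y] (S : Set Y) (y : Y),
      S = closure {y} → ∃! y : Y, S = closure {y} := by
    intro Y _ _ S y hy
    refine ⟨y, hy, ?_⟩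
    intro y' hy'
    exact (inseparable_iff_closure_eq.mpr (hy'.symm.trans hy)).eq
  have hK1 : ∀ (Y : Type) [TopologicalSpace Y],
      ((T0Space Y ∧ QuasiSober Y) ∨ Nonempty (Y ≃ₜ Z)) → T0Space Y := by
    intro Y _ h
    rcases h with h | h
    · exact h.1
    · obtain ⟨e⟩ := h
      exact e.isEmbedding.t0Space
  have h := H (fun Y _ => (T0Space Y ∧ QuasiSober Y) ∨ Nonempty (Y ≃ₜ Z)) hK1
    (fun Y _ h1 h2 => Or.inl ⟨h1, h2⟩) ℕ XX (by
      intro n
      refine ⟨inferInstance, ?_⟩
      intro A hA hAc Y _ hY f hf
      have : T0Space Y := hK1 Y hY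
      have hex : ∃ y : Y, closure (f '' A) = closure {y} := by
        rcases hY with ⟨_, hsob⟩ | he
        · obtain ⟨y, hy⟩ := hsob.sober (hA.image f hf.continuousOn).closure isClosed_closure
          exact ⟨y, hy.symm⟩
        · obtain ⟨e⟩ := he
          rcases irr_closed n A hA hAc with rfl | ⟨a, rfl⟩
          · obtain ⟨z, hz⟩ := key n (e ∘ f) (e.continuous.comp hf)
            refine ⟨e.symm z, ?_⟩
            rw [Set.image_univ]
            have h1 : Set.range f = e.symm '' Set.range (e ∘ f) := by
              rw [← Set.range_comp]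
              congr 1
              funext x
              simp
            rw [h1, ← e.symm.image_closure, hz, e.symm.image_closure, Set.image_singleton]
          · exact ⟨f a, by rw [Set.image_singleton]⟩
      obtain ⟨y, hy⟩ := hex
      exact huniq Y _ y hy)
    Set.univ (by
      refine ⟨?_, ?_⟩
      · have hne : ∀ n, ∃ x : XX n, ∀ j : ℕ, x ∉ (fun _ : ℕ => (∅ : Set (XX n))) j := fun n =>
          big n (fun _ => ∅) (fun _ => small_empty n)
        choose x _ using hne
        exact ⟨x, Set.mem_univ _⟩
      · rintro U V hU hV ⟨p, -, hp⟩ ⟨q, -, hq⟩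
        obtain ⟨I, u, hu, hsubu⟩ := isOpen_pi_iff.mp hU p hp
        obtain ⟨J, v, hv, hsubv⟩ := isOpen_pi_iff.mp hV q hq
        classical
        have hr : ∀ n, ∃ x : XX n, (n ∈ I → x ∈ u n) ∧ (n ∈ J → x ∈ v n) := by
          intro n
          obtain ⟨x, hx⟩ := big n (fun i => if i = 0 then (if n ∈ I then (u n)ᶜ else ∅)
            else (if n ∈ J then (v n)ᶜ else ∅)) (by
              intro i
              by_cases hi : i = 0
              · simp only [hi, if_true]
                by_cases hn : n ∈ I
                · simp only [hn, if_true]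
                  exact open_small n _ (hu n hn).1 ⟨_, (hu n hn).2⟩
                · simp only [hn, if_false]
                  exact small_empty n
              · simp only [hi, if_false]
                by_cases hn : n ∈ J
                · simp only [hn, if_true]
                  exact open_small n _ (hv n hn).1 ⟨_, (hv n hn).2⟩
                · simp only [hn, if_false]
                  exact small_empty n)
          refine ⟨x, ?_, ?_⟩
          · intro hn
            have := hx 0
            simp only [if_true, hn, Set.mem_compl_iff, not_not] at this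
            exact this
          · intro hn
            have := hx 1
            simp only [one_ne_zero, if_false, hn, if_true, Set.mem_compl_iff, not_not] at this
            exact this
        choose r hr1 hr2 using hr
        exact ⟨r, Set.mem_univ _, hsubu fun n hn => hr1 n hn, hsubv fun n hn => hr2 n hn⟩)
    isClosed_univ Z (Or.inr ⟨Homeomorph.refl Z⟩)
    F F_cont
  obtain ⟨z, hz, -⟩ := h
  obtain ⟨n, hn⟩ : ∃ n, n ∉ {n | z.1 n = top n} := z.2.exists_notMem
  have hcl : IsClosed ({w : Z | crd n w = crd n z}) :=
    (single_closed n (crd n z) hn).preimage (crd_cont n)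
  have h1 : closure {z} ⊆ {w : Z | crd n w = crd n z} :=
    closure_minimal (Set.singleton_subset_iff.mpr rfl) hcl
  have hne : ∀ n, ∃ x : XX n, ∀ j : ℕ, x ∉ (fun _ : ℕ => (∅ : Set (XX n))) j := fun n =>
    big n (fun _ => ∅) (fun _ => small_empty n)
  choose x _ using hne
  obtain ⟨b, hb⟩ := big n (fun _ => {x n}) (fun _ => small_single n _)
  have h2 : ∀ y : (∀ n, XX n), inc n (y n) = crd n z := by
    intro y
    have h3 := h1 (hz ▸ subset_closure (Set.mem_image_of_mem _ (Set.mem_univ y)))
    exact h3
  have h4 := h2 x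
  have h5 := h2 (Function.update x n b)
  rw [Function.update_self] at h5
  exact hb 0 (inc_inj n (h5.trans h4.symm))

end Pool.Agent.H20.KDet
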