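import Mathlib

set_option autoImplicit false

namespace Pool.Agent.H20.KF

open Set Filter Topology

/-- kappa-Frechet property of a space -/
def KFrechet (Y : Type) [TopologicalSpace Y] : Prop :=
  ∀ (y : Y) (U : Set Y), IsOpen U → y ∈ closure U → y ∉ U →
    ∃ B ⊆ U, B.Countable ∧ B.Infinite ∧ ∀ V ∈ 𝓝 y, (B \ V).Finite

/-- property (kappa) -/
def PK (X : Set ℝ) : Prop :=
  ∀ F : ℕ → Finset X, (∀ n m, n ≠ m → Disjoint (F n) (F m)) →
    ∃ (A : Set ℕ) (V : ℕ → Set X), A.Infinite ∧ (∀ n ∈ A, IsOpen (V n) ∧ (↑(F n) : Set X) ⊆ V n) ∧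
      ∀ x, {n | n ∈ A ∧ x ∈ V n}.Finite

abbrev Cp (X : Set ℝ) : Type := {f : X → ℝ // Continuous f}

/-- neighbourhoods in C_p -/
theorem nhds_Cp {X : Set ℝ} (f : Cp X) (U : Set (Cp X)) (hU : U ∈ 𝓝 f) :
    ∃ K : Finset X, ∃ ε > 0, ∀ g : Cp X, (∀ x ∈ K, |g.1 x - f.1 x| < ε) → g ∈ U := by
  rw [nhds_subtype_eq_comap, mem_comap] at hU
  obtain ⟨W, hW, hWU⟩ := hU
  rw [nhds_pi, Filter.mem_pi] at hW
  obtain ⟨I, hI, t, ht, hsub⟩ := hW
  have h1 : ∀ i ∈ I, ∀ᶠ ε : ℝ in 𝓝[>] 0, Metric.ball (f.1 i) ε ⊆ t i := by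
    intro i _
    obtain ⟨e, he, heU⟩ := Metric.mem_nhds_iff.1 (ht i)
    have : ∀ᶠ ε : ℝ in 𝓝[>] 0, ε < e :=
      (eventually_lt_nhds he).filter_mono nhdsWithin_le_nhds
    filter_upwards [this] with ε hε
    exact (Metric.ball_subset_ball hε.le).trans heU
  have h2 := (Filter.eventually_all_finite hI).2 h1
  obtain ⟨ε, h3, h4⟩ := (h2.and self_mem_nhdsWithin).exists
  refine ⟨hI.toFinset, ε, h4, ?_⟩
  intro g hg
  apply hWU
  apply hsub
  intro i hi
  apply h3 i hi
  rw [Metric.mem_ball, Real.dist_eq]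
  exact hg i (hI.mem_toFinset.2 hi)

theorem ball_Cp {X : Set ℝ} (f : Cp X) (K : Finset X) (ε : ℝ) :
    IsOpen {g : Cp X | ∀ x ∈ K, |g.1 x - f.1 x| < ε} := by
  have : {g : Cp X | ∀ x ∈ K, |g.1 x - f.1 x| < ε} = ⋂ x ∈ K, {g : Cp X | |g.1 x - f.1 x| < ε} := by
    ext g; simp
  rw [this]
  apply isOpen_biInter_finset
  intro x _
  have hc : Continuous (fun g : Cp X => |g.1 x - f.1 x|) :=
    (((continuous_apply x).comp continuous_subtype_val).sub continuous_const).abs
  exact isOpen_lt hc continuous_const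

theorem urys {X : Set ℝ} (C D : Set X) (hC : IsClosed C) (hD : IsClosed D) (h : Disjoint C D) :
    ∃ φ : X → ℝ, Continuous φ ∧ (∀ x ∈ C, φ x = 0) ∧ (∀ x ∈ D, φ x = 1) ∧
      ∀ x, 0 ≤ φ x ∧ φ x ≤ 1 := by
  obtain ⟨f, h0, h1, h2⟩ := exists_continuous_zero_one_of_isClosed hC hD h
  exact ⟨f, f.continuous, h0, h1, h2⟩

theorem kf_of_pk (X : Set ℝ) (h : PK X) : KFrechet (Cp X) := by
  classical
  intro y U hU hyU hyn
  -- the step
  have hstep : ∀ (E : Finset X) (n : ℕ), ∃ f : Cp X, ∃ K : Finset X,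
      (∀ x ∈ E, |f.1 x - y.1 x| < 1 / ((n : ℝ) + 1)) ∧
      (∀ g : Cp X, (∀ x ∈ K, g.1 x = f.1 x) → g ∈ U) := by
    intro E n
    have hpos : (0 : ℝ) < 1 / ((n : ℝ) + 1) := by positivity
    obtain ⟨f, hf1, hf2⟩ := mem_closure_iff.1 hyU _ (ball_Cp y E (1 / ((n : ℝ) + 1)))
      (by intro x _; simpa using hpos)
    obtain ⟨K, ε, hε, hK⟩ := nhds_Cp f U (hU.mem_nhds hf2)
    refine ⟨f, K, hf1, ?_⟩
    intro g hg
    apply hK
    intro x hx
    rw [hg x hx]
    simpa using hε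
  choose ff KK hff hKK using hstep
  let E : ℕ → Finset X := fun n => Nat.rec ∅ (fun n E => E ∪ KK E n) n
  have hE : ∀ n, E (n + 1) = E n ∪ KK (E n) n := fun n => rfl
  have hEmono : Monotone E := monotone_nat_of_le_succ (fun n => by
    rw [hE]; exact Finset.subset_union_left)
  let F : ℕ → Finset X := fun n => KK (E n) n \ E n
  have hFE : ∀ n, F n ⊆ E (n + 1) := by
    intro n
    rw [hE]
    exact Finset.sdiff_subset.trans Finset.subset_union_right
  have hFdisj' : ∀ n m, n < m → Disjoint (F n) (F m) := by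
    intro n m hnm
    rw [Finset.disjoint_left]
    intro x hx hx'
    exact (Finset.mem_sdiff.1 hx').2 (hEmono hnm (hFE n hx))
  have hFdisj : ∀ n m, n ≠ m → Disjoint (F n) (F m) := by
    intro n m hnm
    rcases lt_or_gt_of_ne hnm with h1 | h1
    · exact hFdisj' n m h1
    · exact (hFdisj' m n h1).symm
  obtain ⟨A, V, hA, hV, hfin⟩ := h F hFdisj
  -- modified functions
  have hmod : ∀ n ∈ A, ∃ g : Cp X, g ∈ U ∧ ∀ x, x ∉ V n → |g.1 x - y.1 x| ≤ 1 / ((n : ℝ) + 1) := by
    intro n hn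
    obtain ⟨hVo, hFV⟩ := hV n hn
    obtain ⟨φ, hφc, hφ0, hφ1, hφb⟩ := urys (V n)ᶜ (↑(F n) : Set X) hVo.isClosed_compl
      (F n).finite_toSet.isClosed (by
        rw [Set.disjoint_left]
        intro x hx hx'
        exact hx (hFV hx'))
    set f := ff (E n) n with hf
    set δ : ℝ := 1 / ((n : ℝ) + 1) with hδ
    have hδ0 : 0 < δ := by rw [hδ]; positivity
    let a : X → ℝ := fun x => y.1 x + max (-δ) (min δ (f.1 x - y.1 x))
    have ha : Continuous a :=
      y.2.add (continuous_const.max (continuous_const.min (f.2.sub y.2)))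
    have hab : ∀ x, |a x - y.1 x| ≤ δ := by
      intro x
      simp only [a, add_sub_cancel_left]
      rw [abs_le]
      exact ⟨le_max_left _ _, max_le (by linarith) (min_le_left _ _)⟩
    have haf : ∀ x, |f.1 x - y.1 x| < δ → a x = f.1 x := by
      intro x hx
      rw [abs_lt] at hx
      simp only [a]
      rw [min_eq_right hx.2.le, max_eq_right hx.1.le]
      ring
    let g : Cp X := ⟨fun x => a x + φ x * (f.1 x - a x), ha.add (hφc.mul (f.2.sub ha))⟩
    refine ⟨g, ?_, ?_⟩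
    · refine hKK (E n) n g ?_
      intro x hx
      rcases Classical.em (x ∈ E n) with hxE | hxE
      · have h1 := haf x (hff (E n) n x hxE)
        simp only [g]
        rw [h1]; simp [hf]
      · have h1 : x ∈ (↑(F n) : Set X) := by
          simp only [F, Finset.coe_sdiff]
          exact ⟨hx, hxE⟩
        simp only [g]
        rw [hφ1 x h1]; simp [hf]
    · intro x hx
      have h1 : φ x = 0 := hφ0 x hx
      simp only [g]
      rw [h1, zero_mul, add_zero]
      exact hab x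
  have : Nonempty (Cp X) := ⟨y⟩
  choose! g hgU hgV using hmod
  have hconv : ∀ V' ∈ 𝓝 y, {n | n ∈ A ∧ g n ∉ V'}.Finite := by
    intro V' hV'
    obtain ⟨K, ε, hε, hK⟩ := nhds_Cp y V' hV'
    have hx : ∀ x ∈ (↑K : Set X), {n | n ∈ A ∧ ¬ |(g n).1 x - y.1 x| < ε}.Finite := by
      intro x _
      obtain ⟨N, hN⟩ := exists_nat_one_div_lt hε
      apply ((hfin x).union (Set.finite_lt_nat N)).subset
      rintro n ⟨hnA, hn⟩
      by_cases hxV : x ∈ V n
      · exact Or.inl ⟨hnA, hxV⟩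
      · right
        change n < N
        by_contra hlt
        push Not at hlt
        apply hn
        refine (hgV n hnA x hxV).trans_lt (lt_of_le_of_lt ?_ hN)
        gcongr
    have hU2 := (K.finite_toSet).biUnion hx
    apply hU2.subset
    rintro n ⟨hnA, hn⟩
    by_contra hcon
    apply hn
    apply hK
    intro x hxK
    by_contra hlt
    apply hcon
    simp only [Set.mem_iUnion]
    exact ⟨x, hxK, hnA, hlt⟩
  refine ⟨g '' A, ?_, ?_, ?_, ?_⟩
  · rintro _ ⟨n, hn, rfl⟩; exact hgU n hn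
  · exact (Set.to_countable A).image g
  · intro hfinB
    have hyB : y ∉ g '' A := by
      rintro ⟨n, hn, hgn⟩
      exact hyn (hgn ▸ hgU n hn)
    have hnb : (g '' A)ᶜ ∈ 𝓝 y := hfinB.isClosed.isOpen_compl.mem_nhds hyB
    have := hconv _ hnb
    apply hA
    apply this.subset
    intro n hn
    exact ⟨hn, fun h => h ⟨n, hn, rfl⟩⟩
  · intro V' hV'
    apply ((hconv V' hV').image g).subset
    rintro _ ⟨⟨n, hn, rfl⟩, h2⟩
    exact ⟨n, ⟨hn, h2⟩, rfl⟩

theorem not_kf_of_not_pk (X : Set ℝ) (h : ¬ PK X) : ¬ KFrechet (Cp X) := by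
  classical
  intro hk
  apply h
  intro F hF
  by_cases hemp : {n | F n = ∅}.Infinite
  · refine ⟨{n | F n = ∅}, fun _ => ∅, hemp, ?_, ?_⟩
    · intro n hn
      refine ⟨isOpen_empty, ?_⟩
      have : F n = ∅ := hn
      simp [this]
    · intro x; simp
  rw [Set.not_infinite] at hemp
  let U : Set (Cp X) := {f | ∃ n, (F n).Nonempty ∧ ∀ x ∈ F n, 1 < f.1 x}
  let y : Cp X := ⟨fun _ => 0, continuous_const⟩
  have hUo : IsOpen U := by
    have : U = ⋃ n ∈ {n | (F n).Nonempty}, ⋂ x ∈ F n, {f : Cp X | 1 < f.1 x} := by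
      ext f
      simp only [U, Set.mem_ofPred_eq, Set.mem_iUnion, Set.mem_iInter, exists_prop]
    rw [this]
    apply isOpen_biUnion
    intro n _
    apply isOpen_biInter_finset
    intro x _
    exact isOpen_lt continuous_const ((continuous_apply x).comp continuous_subtype_val)
  have hyn : y ∉ U := by
    rintro ⟨n, ⟨x, hx⟩, hn⟩
    have := hn x hx
    simp only [y] at this
    linarith
  have hyc : y ∈ closure U := by
    rw [mem_closure_iff_nhds]
    intro t ht
    obtain ⟨K, ε, hε, hK⟩ := nhds_Cp y t ht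
    -- find n with F n nonempty, disjoint from K
    have hfin2 : {n | ∃ x ∈ K, x ∈ F n}.Finite := by
      have : {n | ∃ x ∈ K, x ∈ F n} = ⋃ x ∈ (↑K : Set X), {n | x ∈ F n} := by
        ext n; simp
      rw [this]
      apply K.finite_toSet.biUnion
      intro x _
      apply Set.Subsingleton.finite
      intro n hn m hm
      by_contra hne
      exact (Finset.disjoint_left.1 (hF n m hne)) hn hm
    obtain ⟨n, hn⟩ := (hemp.union hfin2).infinite_compl.nonempty
    simp only [Set.mem_compl_iff, Set.mem_union, Set.mem_ofPred_eq, not_or, not_exists, not_and] at hn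
    obtain ⟨φ, hφc, hφ0, hφ1, -⟩ := urys (↑K : Set X) (↑(F n) : Set X) K.finite_toSet.isClosed
      (F n).finite_toSet.isClosed (by
        rw [Set.disjoint_left]
        intro x hx hx'
        exact hn.2 x hx hx')
    refine ⟨⟨fun x => 2 * φ x, continuous_const.mul hφc⟩, ?_, ?_⟩
    · apply hK
      intro x hx
      simp only [y]
      rw [hφ0 x hx]
      simpa using hε
    · refine ⟨n, Finset.nonempty_iff_ne_empty.2 hn.1, ?_⟩
      intro x hx
      simp only
      rw [hφ1 x hx]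
      norm_num
  obtain ⟨B, hBU, -, hBinf, hBc⟩ := hk y U hUo hyc hyn
  have hBU' : ∀ f ∈ B, ∃ n, (F n).Nonempty ∧ ∀ x ∈ F n, 1 < f.1 x := fun f hf => hBU hf
  choose! ν hν1 hν2 using hBU'
  -- the set of used indices
  have hpt : ∀ x : X, (B ∩ {f | 1 < f.1 x}).Finite := by
    intro x
    have hnb : {g : Cp X | ∀ x' ∈ ({x} : Finset X), |g.1 x' - y.1 x'| < 1} ∈ 𝓝 y :=
      (ball_Cp y {x} 1).mem_nhds (by intro x' _; simp)
    apply (hBc _ hnb).subset
    rintro f ⟨hf, hf1⟩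
    refine ⟨hf, ?_⟩
    intro hf2
    have h3 := hf2 x (Finset.mem_singleton_self x)
    have hf1' : 1 < f.1 x := hf1
    simp only [y, sub_zero] at h3
    have := (abs_lt.1 h3).2
    linarith
  have hinf : (ν '' B).Infinite := by
    intro hfinν
    apply hBinf
    have h1 : ∀ n ∈ ν '' B, (B ∩ {f | ν f = n}).Finite := by
      rintro _ ⟨f0, hf0, rfl⟩
      obtain ⟨x, hx⟩ := hν1 f0 hf0
      apply (hpt x).subset
      rintro f ⟨hf, hfn⟩
      refine ⟨hf, ?_⟩
      have : ν f = ν f0 := hfn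
      exact hν2 f hf x (by rw [this]; exact hx)
    have h2 := hfinν.biUnion h1
    apply h2.subset
    intro f hf
    simp only [Set.mem_iUnion]
    exact ⟨ν f, ⟨f, hf, rfl⟩, hf, rfl⟩
  let fs : ℕ → Cp X := fun n => if h : ∃ f ∈ B, ν f = n then Classical.choose h else y
  have hfs : ∀ n ∈ ν '' B, fs n ∈ B ∧ ν (fs n) = n := by
    intro n hn
    have h1 : ∃ f ∈ B, ν f = n := hn
    simp only [fs, dif_pos h1]
    exact Classical.choose_spec h1
  refine ⟨ν '' B, fun n => {x | 1 < (fs n).1 x}, hinf, ?_, ?_⟩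
  · intro n hn
    obtain ⟨h1, h2⟩ := hfs n hn
    refine ⟨isOpen_lt continuous_const (fs n).2, ?_⟩
    intro x hx
    exact hν2 _ h1 x (by rw [h2]; exact hx)
  · intro x
    apply ((hpt x).image ν).subset
    rintro n ⟨hn, hx⟩
    obtain ⟨h1, h2⟩ := hfs n hn
    exact ⟨fs n, ⟨h1, hx⟩, h2⟩

end Pool.Agent.H20.KF
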