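import Pool.Agent.H20.KF1

set_option autoImplicit false

namespace Pool.Agent.H20.KF

open Set Filter Topology

/-! Part III: nonmeager sets containing the dyadic nets fail (kappa). -/

noncomputable def dd (n : ℕ) (j : ℤ) : ℝ := (2 * (j : ℝ) + 1) / 2 ^ (n + 1)

theorem dd_lt {n m : ℕ} {j j' : ℤ} (hnm : n < m) (h : dd n j = dd m j') : False := by
  obtain ⟨k, rfl⟩ : ∃ k, m = n + 1 + k := ⟨m - (n + 1), by omega⟩
  unfold dd at h
  rw [div_eq_div_iff (by positivity) (by positivity)] at h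
  have h1 : (2 : ℝ) ^ (n + 1 + k + 1) = 2 ^ (n + 1) * (2 * 2 ^ k) := by ring
  rw [h1] at h
  have h2 : (2 * (j : ℝ) + 1) * (2 * 2 ^ k) = 2 * (j' : ℝ) + 1 := by
    have hp : (2 : ℝ) ^ (n + 1) ≠ 0 := by positivity
    apply mul_right_cancel₀ hp
    rw [← h]; ring
  have h3 : (2 * j + 1) * (2 * 2 ^ k) = 2 * j' + 1 := by exact_mod_cast h2
  have h4 : 2 * ((2 * j + 1) * 2 ^ k) = 2 * j' + 1 := by rw [← h3]; ring
  omega

theorem dd_inj {n m : ℕ} {j j' : ℤ} (h : dd n j = dd m j') : n = m := by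
  rcases lt_trichotomy n m with h1 | h1 | h1
  · exact (dd_lt h1 h).elim
  · exact h1
  · exact (dd_lt h1 h.symm).elim

theorem dd_dense (x ε : ℝ) (hε : 0 < ε) : ∃ N : ℕ, ∀ n ≥ N, ∃ j : ℤ,
    j ∈ Finset.Icc (-((n : ℤ) * 2 ^ n)) ((n : ℤ) * 2 ^ n) ∧ |dd n j - x| < ε := by
  obtain ⟨N1, hN1⟩ := exists_nat_gt (|x| + 1)
  obtain ⟨N2, hN2⟩ := exists_nat_gt (1 / ε)
  refine ⟨max N1 N2, ?_⟩
  intro n hn
  have hn1 : |x| + 1 < n := lt_of_lt_of_le hN1 (by exact_mod_cast (le_max_left _ _).trans hn)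
  have hn2 : 1 / ε < n := lt_of_lt_of_le hN2 (by exact_mod_cast (le_max_right _ _).trans hn)
  have hpow : (n : ℝ) < 2 ^ n := by exact_mod_cast Nat.lt_two_pow_self
  have hp1 : (1 : ℝ) ≤ 2 ^ n := one_le_pow₀ (by norm_num)
  have hp0 : (0 : ℝ) < 2 ^ n := by positivity
  have hfl := Int.floor_le (x * 2 ^ n)
  have hfl2 := Int.lt_floor_add_one (x * 2 ^ n)
  have hx := abs_le.1 (le_refl |x|)
  refine ⟨⌊x * 2 ^ n⌋, ?_, ?_⟩
  · rw [Finset.mem_Icc]
    constructor
    · have : (-((n : ℝ) * 2 ^ n)) ≤ (⌊x * 2 ^ n⌋ : ℝ) := by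
        nlinarith [mul_le_mul_of_nonneg_right hx.1 hp0.le]
      exact_mod_cast this
    · have : (⌊x * 2 ^ n⌋ : ℝ) ≤ (n : ℝ) * 2 ^ n := by
        nlinarith [mul_le_mul_of_nonneg_right hx.2 hp0.le]
      exact_mod_cast this
  · have h1 : dd n ⌊x * 2 ^ n⌋ - x = ((⌊x * 2 ^ n⌋ : ℝ) + 1 / 2 - x * 2 ^ n) / 2 ^ n := by
      unfold dd; field_simp; ring
    rw [h1, abs_div, abs_of_pos hp0, div_lt_iff₀ hp0]
    have h2 : |(⌊x * 2 ^ n⌋ : ℝ) + 1 / 2 - x * 2 ^ n| ≤ 1 := by
      rw [abs_le]; constructor <;> linarith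
    have h3 : 1 < ε * 2 ^ n := by
      rw [div_lt_iff₀ hε] at hn2
      nlinarith
    linarith

theorem not_pk_of_nonmeagre (X : Set ℝ) (hX : ¬ IsMeagre X) (hd : ∀ n j, dd n j ∈ X) :
    ¬ PK X := by
  classical
  intro hpk
  let F : ℕ → Finset X := fun n =>
    (Finset.Icc (-((n : ℤ) * 2 ^ n)) ((n : ℤ) * 2 ^ n)).image (fun j => (⟨dd n j, hd n j⟩ : X))
  have hF : ∀ n m, n ≠ m → Disjoint (F n) (F m) := by
    intro n m hnm
    rw [Finset.disjoint_left]
    intro x hx hx'
    obtain ⟨j, -, hj⟩ := Finset.mem_image.1 hx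
    obtain ⟨j', -, hj'⟩ := Finset.mem_image.1 hx'
    apply hnm
    apply dd_inj (j := j) (j' := j')
    exact congrArg Subtype.val (hj.trans hj'.symm)
  obtain ⟨A, V, hA, hV, hfin⟩ := hpk F hF
  have hW : ∀ n ∈ A, ∃ W : Set ℝ, IsOpen W ∧ Subtype.val ⁻¹' W = V n := fun n hn =>
    isOpen_induced_iff.1 (hV n hn).1
  choose! W hWo hWV using hW
  let D : ℕ → Set ℝ := fun m => ⋃ n ∈ {n | n ∈ A ∧ m ≤ n}, W n
  have hDo : ∀ m, IsOpen (D m) := by
    intro m
    apply isOpen_biUnion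
    intro n hn
    exact hWo n hn.1
  have hDd : ∀ m, Dense (D m) := by
    intro m
    rw [Metric.dense_iff]
    intro x ε hε
    obtain ⟨N, hN⟩ := dd_dense x ε hε
    obtain ⟨n, hnA, hn⟩ := hA.exists_gt (max N m)
    obtain ⟨j, hj, hjx⟩ := hN n (le_of_lt (lt_of_le_of_lt (le_max_left _ _) hn))
    refine ⟨dd n j, ?_, ?_⟩
    · rw [Metric.mem_ball, Real.dist_eq]; exact hjx
    · simp only [D, Set.mem_iUnion]
      refine ⟨n, ⟨hnA, le_of_lt (lt_of_le_of_lt (le_max_right _ _) hn)⟩, ?_⟩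
      have h1 : (⟨dd n j, hd n j⟩ : X) ∈ V n :=
        (hV n hnA).2 (Finset.mem_coe.2 (Finset.mem_image_of_mem _ hj))
      rw [← hWV n hnA] at h1
      exact h1
  have hres : (⋂ m, D m) ∈ residual ℝ :=
    countable_iInter_mem.2 (fun m => residual_of_dense_open (hDo m) (hDd m))
  apply hX
  have hsub : X ⊆ (⋂ m, D m)ᶜ := by
    intro x hx hxD
    have hx2 : {n | n ∈ A ∧ (⟨x, hx⟩ : X) ∈ V n}.Infinite := by
      apply Set.infinite_of_forall_exists_gt
      intro m
      have := Set.mem_iInter.1 hxD (m + 1)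
      simp only [D, Set.mem_iUnion] at this
      obtain ⟨n, ⟨hnA, hmn⟩, hxn⟩ := this
      refine ⟨n, ⟨hnA, ?_⟩, hmn⟩
      rw [← hWV n hnA]
      exact hxn
    exact hx2 (hfin ⟨x, hx⟩)
  have hm : IsMeagre (⋂ m, D m)ᶜ := by
    rw [IsMeagre, compl_compl]; exact hres
  exact hm.mono hsub

/-! binary expansions -/

theorem cyl (z : ℕ → Fin 2) (n : ℕ) : ∃ c : ℝ, ∀ r ∈ Icc c (c + ((2 : ℝ) ^ n)⁻¹),
    ∃ x : ℕ → Fin 2, (∀ i < n, x i = z i) ∧ Real.ofDigits x = r := by
  refine ⟨∑ i ∈ Finset.range n, Real.ofDigitsTerm z i, ?_⟩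
  intro r hr
  set c := ∑ i ∈ Finset.range n, Real.ofDigitsTerm z i with hc
  have hp0 : (0 : ℝ) < 2 ^ n := by positivity
  have ht : (r - c) * 2 ^ n ∈ Icc (0 : ℝ) 1 := by
    constructor
    · have := hr.1
      apply mul_nonneg (by linarith) hp0.le
    · have h1 : r - c ≤ ((2 : ℝ) ^ n)⁻¹ := by linarith [hr.2]
      calc (r - c) * 2 ^ n ≤ ((2 : ℝ) ^ n)⁻¹ * 2 ^ n := by gcongr
        _ = 1 := inv_mul_cancel₀ hp0.ne'
  obtain ⟨w, -, hw⟩ := Real.ofDigits_SurjOn (b := 2) one_lt_two ht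
  refine ⟨fun i => if i < n then z i else w (i - n), fun i hi => by simp [hi], ?_⟩
  rw [Real.ofDigits_eq_sum_add_ofDigits _ n]
  have h1 : (fun i => (fun i => if i < n then z i else w (i - n)) (i + n)) = w := by
    funext i; simp
  rw [h1, hw]
  have h2 : ∑ i ∈ Finset.range n, Real.ofDigitsTerm (fun i => if i < n then z i else w (i - n)) i = c := by
    rw [hc]
    apply Finset.sum_congr rfl
    intro i hi
    simp only [Real.ofDigitsTerm, if_pos (Finset.mem_range.1 hi)]
  rw [h2]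
  push_cast
  field_simp
  ring

theorem step_aux (O : Set ℝ) (hO : IsOpen O) (hd : Dense O) (a : ℕ) (S : Finset (ℕ → Fin 2)) :
    ∃ b, a < b ∧ ∃ τ : ℕ → Fin 2, ∀ s ∈ S, ∀ x : ℕ → Fin 2, (∀ i < a, x i = s i) →
      (∀ i, a ≤ i → i < b → x i = τ i) → Real.ofDigits x ∈ O := by
  classical
  induction S using Finset.induction_on with
  | empty => exact ⟨a + 1, by omega, fun _ => 0, by simp⟩
  | insert s S _ ih =>
    obtain ⟨b, hab, τ, hτ⟩ := ih
    let z0 : ℕ → Fin 2 := fun i => if i < a then s i else τ i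
    obtain ⟨c, hc⟩ := cyl z0 b
    have hne : (Ioo c (c + ((2 : ℝ) ^ b)⁻¹)).Nonempty := by
      rw [nonempty_Ioo]
      have : (0 : ℝ) < ((2 : ℝ) ^ b)⁻¹ := by positivity
      linarith
    obtain ⟨r, hr, hrO⟩ := hd.inter_open_nonempty _ isOpen_Ioo hne
    obtain ⟨z, hz, hzr⟩ := hc r ⟨hr.1.le, hr.2.le⟩
    obtain ⟨ε, hε, hball⟩ := Metric.isOpen_iff.1 hO r hrO
    obtain ⟨k, hk⟩ := exists_pow_lt_of_lt_one hε (show (1 / 2 : ℝ) < 1 by norm_num)
    refine ⟨max b k, lt_of_lt_of_le hab (le_max_left _ _), z, ?_⟩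
    intro s' hs' x hx1 hx2
    rcases Finset.mem_insert.1 hs' with h | h
    · subst h
      apply hball
      rw [Metric.mem_ball, Real.dist_eq, ← hzr]
      have hxz : ∀ i < k, x i = z i := by
        intro i hi
        by_cases hia : i < a
        · rw [hx1 i hia, hz i (by omega)]
          simp [z0, hia]
        · exact hx2 i (by omega) (lt_of_lt_of_le hi (le_max_right _ _))
      have h3 := Real.abs_ofDigits_sub_ofDigits_le (b := 2) hxz
      refine lt_of_le_of_lt h3 ?_
      rw [one_div, inv_pow] at hk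
      exact_mod_cast hk
    · apply hτ s' h x hx1
      intro i hi1 hi2
      rw [hx2 i hi1 (lt_of_lt_of_le hi2 (le_max_left _ _)), hz i hi2]
      simp only [z0]
      rw [if_neg (by omega)]

theorem step (O : Set ℝ) (hO : IsOpen O) (hd : Dense O) (a : ℕ) :
    ∃ b, a < b ∧ ∃ τ : ℕ → Fin 2, ∀ x : ℕ → Fin 2,
      (∀ i, a ≤ i → i < b → x i = τ i) → Real.ofDigits x ∈ O := by
  classical
  let S : Finset (ℕ → Fin 2) := (Finset.univ : Finset (Fin a → Fin 2)).image
    (fun f => fun i => if h : i < a then f ⟨i, h⟩ else 0)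
  obtain ⟨b, hab, τ, hτ⟩ := step_aux O hO hd a S
  refine ⟨b, hab, τ, ?_⟩
  intro x hx
  apply hτ (fun i => if h : i < a then x i else 0) _ x _ hx
  · exact Finset.mem_image.2 ⟨fun i => x i, Finset.mem_univ _, rfl⟩
  · intro i hi
    simp [hi]

/-- strictly increasing block sequence from a function -/
def jj (h : ℕ → ℕ) : ℕ → ℕ := fun k => Nat.rec 0 (fun _ j => h j) k

theorem jj_zero (h : ℕ → ℕ) : jj h 0 = 0 := rfl
theorem jj_succ (h : ℕ → ℕ) (k : ℕ) : jj h (k + 1) = h (jj h k) := rfl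

theorem jj_mono (h : ℕ → ℕ) (hh : ∀ n, n < h n) : StrictMono (jj h) :=
  strictMono_nat_of_lt_succ (fun k => by rw [jj_succ]; exact hh _)

/-- block index -/
def blk (J : ℕ → ℕ) (i : ℕ) : ℕ := Nat.findGreatest (fun m => J m ≤ i) i

theorem blk_eq (J : ℕ → ℕ) (hJ : StrictMono J) (m i : ℕ) (h1 : J m ≤ i) (h2 : i < J (m + 1)) :
    blk J i = m := by
  unfold blk
  rw [Nat.findGreatest_eq_iff]
  refine ⟨(hJ.le_apply).trans h1, fun _ => h1, ?_⟩
  intro n hn _ hc
  have : J (m + 1) ≤ J n := hJ.monotone hn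
  omega

theorem sep_exists {X : Set ℝ} (T : Finset X) : ∃ δ > 0, ∀ p ∈ T, ∀ q ∈ T, p ≠ q → δ ≤ dist p q := by
  classical
  have h1 : ∀ pq ∈ T.offDiag, ∀ᶠ δ : ℝ in 𝓝[>] 0, δ ≤ dist pq.1 pq.2 := by
    intro pq hpq
    have hne := (Finset.mem_offDiag.1 hpq).2.2
    have hpos : 0 < dist pq.1 pq.2 := dist_pos.2 hne
    have : ∀ᶠ δ : ℝ in 𝓝[>] 0, δ < dist pq.1 pq.2 :=
      (eventually_lt_nhds hpos).filter_mono nhdsWithin_le_nhds
    filter_upwards [this] with δ hδ
    exact hδ.le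
  have h2 := (Filter.eventually_all_finset _).2 h1
  obtain ⟨δ, h3, h4⟩ := (h2.and self_mem_nhdsWithin).exists
  refine ⟨δ, h4, ?_⟩
  intro p hp q hq hpq
  exact h3 (p, q) (Finset.mem_offDiag.2 ⟨hp, hq, hpq⟩)

theorem pk_of_meagre (X : Set ℝ) (hM : ∀ Ψ : X × X × Bool → ℝ, IsMeagre (range Ψ)) : PK X := by
  classical
  intro F hF
  -- recoding
  let G : ℕ → ℕ → Finset ℕ → Finset X := fun a b s => F (Encodable.encode (a, b, s))
  have hsep : ∀ a b : ℕ, ∃ δ > 0, ∀ s ∈ (Finset.Ico a b).powerset, ∀ s' ∈ (Finset.Ico a b).powerset,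
      s ≠ s' → ∀ p ∈ G a b s, ∀ q ∈ G a b s', δ ≤ dist p q := by
    intro a b
    obtain ⟨δ, hδ, h⟩ := sep_exists ((Finset.Ico a b).powerset.biUnion (G a b))
    refine ⟨δ, hδ, ?_⟩
    intro s hs s' hs' hss p hp q hq
    apply h p (Finset.mem_biUnion.2 ⟨s, hs, hp⟩) q (Finset.mem_biUnion.2 ⟨s', hs', hq⟩)
    rintro rfl
    have hne : Encodable.encode (a, b, s) ≠ Encodable.encode (a, b, s') := by
      intro he
      have := Encodable.encode_injective he
      apply hss
      simpa using this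
    exact (Finset.disjoint_left.1 (hF _ _ hne)) hp hq
  choose δ hδ hδs using hsep
  let cap : X → ℕ → ℕ → Finset ℕ → Prop := fun v a b s => ∃ q ∈ G a b s, dist v q < δ a b / 2
  let patt : X → ℕ → ℕ → Finset ℕ := fun v a b =>
    if h : ∃ s ∈ (Finset.Ico a b).powerset, cap v a b s then Classical.choose h else ∅
  have patt_eq : ∀ v a b s, s ∈ (Finset.Ico a b).powerset → cap v a b s → patt v a b = s := by
    intro v a b s hs hcap
    have hex : ∃ s ∈ (Finset.Ico a b).powerset, cap v a b s := ⟨s, hs, hcap⟩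
    simp only [patt, dif_pos hex]
    obtain ⟨h1, h2⟩ := Classical.choose_spec hex
    by_contra hne
    obtain ⟨q, hq, hvq⟩ := hcap
    obtain ⟨q', hq', hvq'⟩ := h2
    have h3 := hδs a b _ h1 s hs hne q' hq' q hq
    have h4 := dist_triangle_left q' q v
    linarith
  -- the unbounded family
  let gu : X → ℕ → ℕ := fun u n =>
    if h : ∃ m : ℕ, ∀ q ∈ F n, 1 / ((m : ℝ) + 1) ≤ dist u q then Classical.choose h else 0
  have hgu : ∀ u n, u ∉ F n → ∀ q ∈ F n, 1 / ((gu u n : ℝ) + 1) ≤ dist u q := by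
    intro u n hun
    have hex : ∃ m : ℕ, ∀ q ∈ F n, 1 / ((m : ℝ) + 1) ≤ dist u q := by
      obtain ⟨e, he, hes⟩ := sep_exists (insert u (F n))
      obtain ⟨m, hm⟩ := exists_nat_one_div_lt he
      refine ⟨m, ?_⟩
      intro q hq
      refine hm.le.trans (hes u (Finset.mem_insert_self _ _) q (Finset.mem_insert_of_mem hq) ?_)
      rintro rfl
      exact hun hq
    simp only [gu, dif_pos hex]
    exact Classical.choose_spec hex
  let hu : X → ℕ → ℕ := fun u n => (∑ i ∈ Finset.range (n + 1), gu u i) + n + 1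
  have hu_lt : ∀ u n, n < hu u n := by
    intro u n
    simp only [hu]; omega
  have hu_mono : ∀ u, Monotone (hu u) := by
    intro u
    apply monotone_nat_of_le_succ
    intro n
    simp only [hu]
    rw [Finset.sum_range_succ _ (n + 1)]
    omega
  have hu_gu : ∀ u n, gu u n < hu u n := by
    intro u n
    simp only [hu]
    rw [Finset.sum_range_succ]
    omega
  let J : X → Bool → ℕ → ℕ := fun u ε m => jj (hu u) (2 * m + ε.toNat)
  have hJm : ∀ u ε, StrictMono (J u ε) := by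
    intro u ε m m' hmm
    exact jj_mono _ (hu_lt u) (by omega)
  let y : (ℕ → ℕ) → X → (ℕ → Fin 2) := fun J v i =>
    if i ∈ patt v (J (blk J i)) (J (blk J i + 1)) then 1 else 0
  let Ψ : X × X × Bool → ℝ := fun p => Real.ofDigits (y (J p.1 p.2.2) p.2.1)
  have hΨ := hM Ψ
  rw [IsMeagre, mem_residual] at hΨ
  obtain ⟨t, hts, htG, htd⟩ := hΨ
  obtain ⟨f, hfo, hft⟩ := isGδ_iff_eq_iInter_nat.1 htG
  let O : ℕ → Set ℝ := fun l => ⋂ i ∈ Finset.range (l + 1), f i
  have hOo : ∀ l, IsOpen (O l) := fun l => isOpen_biInter_finset (fun i _ => hfo i)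
  have htO : ∀ l, t ⊆ O l := by
    intro l x hx
    rw [hft] at hx
    simp only [O, Set.mem_iInter]
    intro i _
    exact Set.mem_iInter.1 hx i
  have hOd : ∀ l, Dense (O l) := fun l => htd.mono (htO l)
  choose bb hbb τ' hτ' using fun (l a : ℕ) => step (O l) (hOo l) (hOd l) a
  let ii : ℕ → ℕ := fun l => Nat.rec 0 (fun l a => bb l a) l
  have hii : ∀ l, ii (l + 1) = bb l (ii l) := fun l => rfl
  have hiim : StrictMono ii := strictMono_nat_of_lt_succ (fun l => by rw [hii]; exact hbb _ _)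
  let τ : ℕ → ℕ → Fin 2 := fun l => τ' l (ii l)
  have hτ : ∀ l, ∀ x : ℕ → Fin 2, (∀ i, ii l ≤ i → i < ii (l + 1) → x i = τ l i) →
      Real.ofDigits x ∈ O l := fun l x hx => hτ' l (ii l) x hx
  by_cases hcase : ∀ u : X, {n | ii (n + 1) ≤ hu u n}.Finite
  · -- bounded case
    refine ⟨Set.univ, fun n => {x | ∃ q ∈ F n, dist x q < 1 / ((ii (n + 1) : ℝ) + 1)},
      Set.infinite_univ, ?_, ?_⟩
    · intro n _
      constructor
      · have : {x : X | ∃ q ∈ F n, dist x q < 1 / ((ii (n + 1) : ℝ) + 1)} =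
            ⋃ q ∈ F n, Metric.ball q (1 / ((ii (n + 1) : ℝ) + 1)) := by
          ext x; simp [Metric.mem_ball]
        change IsOpen {x : X | ∃ q ∈ F n, dist x q < 1 / ((ii (n + 1) : ℝ) + 1)}
        rw [this]
        exact isOpen_biUnion (fun q _ => Metric.isOpen_ball)
      · intro x hx
        exact ⟨x, hx, by rw [dist_self]; positivity⟩
    · intro x
      have hs1 : {n | x ∈ F n}.Finite := by
        apply Set.Subsingleton.finite
        intro n hn m hm
        by_contra hne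
        exact (Finset.disjoint_left.1 (hF n m hne)) hn hm
      apply (hs1.union (hcase x)).subset
      rintro n ⟨-, q, hq, hxq⟩
      by_cases hxn : x ∈ F n
      · exact Or.inl hxn
      · right
        have h1 := (hgu x n hxn q hq).trans_lt hxq
        have h2 : ((ii (n + 1) : ℝ) + 1) < (gu x n : ℝ) + 1 := by
          rwa [div_lt_div_iff₀ (by positivity) (by positivity), one_mul, one_mul] at h1
        have h3 : (ii (n + 1)) < gu x n := by exact_mod_cast (by linarith : (ii (n + 1) : ℝ) < gu x n)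
        change ii (n + 1) ≤ hu x n
        exact (h3.trans (hu_gu x n)).le
  · push Not at hcase
    obtain ⟨u, huinf⟩ := hcase
    -- choose the parity
    let NN : Bool → Set ℕ := fun ε => {n | ii (n + 1) ≤ hu u n ∧
      ∃ m, jj (hu u) (2 * m + ε.toNat) ≤ n ∧ n < jj (hu u) (2 * m + ε.toNat + 1)}
    have hjm := jj_mono _ (hu_lt u)
    have hcov : {n | ii (n + 1) ≤ hu u n} ⊆ NN false ∪ NN true := by
      intro n hn
      -- block of n
      have h0 : jj (hu u) 0 ≤ n := by rw [jj_zero]; exact Nat.zero_le _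
      have hex : ∃ k, n < jj (hu u) k := ⟨n + 1, lt_of_lt_of_le (Nat.lt_succ_self n) (hjm.le_apply)⟩
      have hk := Nat.find_spec hex
      have hk0 : Nat.find hex ≠ 0 := by
        intro h
        rw [h] at hk
        omega
      obtain ⟨k, hk'⟩ := Nat.exists_eq_succ_of_ne_zero hk0
      have hkm : jj (hu u) k ≤ n := by
        have := Nat.find_min hex (m := k) (by omega)
        omega
      rw [hk'] at hk
      rcases Nat.even_or_odd' k with ⟨m, hm | hm⟩
      · left
        refine ⟨hn, m, ?_, ?_⟩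
        · simpa [← hm] using hkm
        · simpa [← hm] using hk
      · right
        refine ⟨hn, m, ?_, ?_⟩
        · simpa [← hm] using hkm
        · simpa [← hm] using hk
    obtain ⟨ε, hε⟩ : ∃ ε, (NN ε).Infinite := by
      by_contra hcon
      push Not at hcon
      apply huinf
      exact ((hcon false).union (hcon true)).subset hcov
    have hmex : ∀ n ∈ NN ε, ∃ m, J u ε m ≤ n ∧ n < jj (hu u) (2 * m + ε.toNat + 1) :=
      fun n hn => hn.2
    choose! mm hmm1 hmm2 using hmex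
    let sg : ℕ → Finset ℕ := fun n => (Finset.Ico (J u ε (mm n)) (J u ε (mm n + 1))).filter
      (fun i => τ n i = 1)
    let θ : ℕ → ℕ × ℕ × Finset ℕ := fun n => (J u ε (mm n), J u ε (mm n + 1), sg n)
    have hIn : ∀ n ∈ NN ε, J u ε (mm n) ≤ ii n ∧ ii (n + 1) ≤ J u ε (mm n + 1) := by
      intro n hn
      refine ⟨(hmm1 n hn).trans hiim.le_apply, ?_⟩
      refine hn.1.trans ?_
      have h1 : J u ε (mm n + 1) = hu u (jj (hu u) (2 * mm n + ε.toNat + 1)) := by
        change jj (hu u) (2 * (mm n + 1) + ε.toNat) = _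
        have h2 : 2 * (mm n + 1) + ε.toNat = (2 * mm n + ε.toNat + 1) + 1 := by ring
        rw [h2, jj_succ]
      rw [h1]
      exact hu_mono u (hmm2 n hn).le
    have hAinf : (θ '' NN ε).Infinite := by
      intro hfin
      apply hε
      have h1 : ((fun p : ℕ × ℕ × Finset ℕ => p.2.1) '' (θ '' NN ε)).Finite := hfin.image _
      obtain ⟨M, hM'⟩ := h1.bddAbove
      apply (Set.finite_le_nat M).subset
      intro n hn
      have h2 : J u ε (mm n + 1) ≤ M := hM' ⟨θ n, ⟨n, hn, rfl⟩, rfl⟩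
      have h3 := (hIn n hn).2
      have h4 : n + 1 ≤ ii (n + 1) := hiim.le_apply
      change n ≤ M
      omega
    refine ⟨Encodable.encode '' (θ '' NN ε),
      fun k => {x | ∃ p ∈ θ '' NN ε, Encodable.encode p = k ∧ cap x p.1 p.2.1 p.2.2},
      hAinf.image Encodable.encode_injective.injOn, ?_, ?_⟩
    · rintro _ ⟨p, hp, rfl⟩
      constructor
      · have : {x : X | ∃ p' ∈ θ '' NN ε, Encodable.encode p' = Encodable.encode p ∧
            cap x p'.1 p'.2.1 p'.2.2} = ⋃ q ∈ G p.1 p.2.1 p.2.2, Metric.ball q (δ p.1 p.2.1 / 2) := by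
          ext x
          simp only [Set.mem_iUnion, Metric.mem_ball, exists_prop]
          constructor
          · rintro ⟨p', hp', he, hcap⟩
            have := Encodable.encode_injective he
            subst this
            exact hcap
          · intro hcap
            exact ⟨p, hp, rfl, hcap⟩
        change IsOpen {x : X | ∃ p' ∈ θ '' NN ε, Encodable.encode p' = Encodable.encode p ∧
            cap x p'.1 p'.2.1 p'.2.2}
        rw [this]
        exact isOpen_biUnion (fun q _ => Metric.isOpen_ball)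
      · intro x hx
        refine ⟨p, hp, rfl, x, hx, ?_⟩
        rw [dist_self]
        have := hδ p.1 p.2.1
        linarith
    · intro v
      have hfinv : {n | n ∈ NN ε ∧ cap v (J u ε (mm n)) (J u ε (mm n + 1)) (sg n)}.Finite := by
        by_contra hinf
        have hinf' : {n | n ∈ NN ε ∧ cap v (J u ε (mm n)) (J u ε (mm n + 1)) (sg n)}.Infinite := hinf
        have hin : Ψ (u, v, ε) ∈ t := by
          rw [hft]
          apply Set.mem_iInter.2
          intro i
          obtain ⟨n, ⟨hnN, hncap⟩, hin⟩ := hinf'.exists_gt i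
          have hpat : patt v (J u ε (mm n)) (J u ε (mm n + 1)) = sg n :=
            patt_eq _ _ _ _ (Finset.mem_powerset.2 (Finset.filter_subset _ _)) hncap
          have hO : Ψ (u, v, ε) ∈ O n := by
            apply hτ n
            intro i hi1 hi2
            obtain ⟨hI1, hI2⟩ := hIn n hnN
            have hb : blk (J u ε) i = mm n := blk_eq _ (hJm u ε) _ _ (hI1.trans hi1)
              (lt_of_lt_of_le hi2 hI2)
            simp only [y]
            rw [hb, hpat]
            simp only [sg, Finset.mem_filter, Finset.mem_Ico]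
            by_cases hti : τ n i = 1
            · rw [if_pos ⟨⟨hI1.trans hi1, lt_of_lt_of_le hi2 hI2⟩, hti⟩, hti]
            · rw [if_neg (fun h => hti h.2)]
              generalize τ n i = c at hti
              fin_cases c
              · rfl
              · exact absurd rfl hti
          simp only [O, Set.mem_iInter] at hO
          exact hO i (Finset.mem_range.2 (by omega))
        exact hts hin ⟨(u, v, ε), rfl⟩
      apply (hfinv.image (fun n => Encodable.encode (θ n))).subset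
      rintro _ ⟨⟨p, ⟨n, hn, rfl⟩, rfl⟩, p', -, he, hcap⟩
      have := Encodable.encode_injective he
      subst this
      exact ⟨n, ⟨hn, hcap⟩, rfl⟩

end Pool.Agent.H20.KF
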