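import Mathlib

set_option autoImplicit false

namespace Pool.Agent.H20.Kron

open Finset

/-- `T` is an averaging operator along the subgroup `D`. -/
def Good {M : Type} [CommGroup M] (D : Subgroup M) (T : (M → ℂ) →ₗ[ℂ] (M → ℂ)) : Prop :=
  (∀ (f : M → ℂ) (C : ℝ) (y : M), (∀ d ∈ D, ‖f (y * d)‖ ≤ C) → ‖T f y‖ ≤ C) ∧
  (∀ ρ : M →* Circle, ∃ c : ℂ, ‖c‖ ≤ 1 ∧ (T (fun y => (ρ y : ℂ)) = fun y => c * (ρ y : ℂ)) ∧
    ((∀ d ∈ D, ρ d = 1) → c = 1))

/-- `T` almost kills `ρ`. -/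
def Small {M : Type} [CommGroup M] (T : (M → ℂ) →ₗ[ℂ] (M → ℂ)) (ρ : M →* Circle) (η : ℝ) : Prop :=
  ∃ c : ℂ, ‖c‖ ≤ η ∧ (T (fun y => (ρ y : ℂ)) = fun y => c * (ρ y : ℂ))

/-- the average along powers of `g` -/
noncomputable def avg {M : Type} [CommGroup M] (g : M) (K : ℕ) : (M → ℂ) →ₗ[ℂ] (M → ℂ) where
  toFun f := fun y => (1 / (K : ℂ)) * ∑ k ∈ range K, f (y * g ^ k)
  map_add' f h := by
    funext y
    simp only [Pi.add_apply, Finset.sum_add_distrib]
    ring
  map_smul' c f := by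
    funext y
    simp only [Pi.smul_apply, smul_eq_mul, RingHom.id_apply, ← Finset.mul_sum]
    ring

theorem avg_eig {M : Type} [CommGroup M] (g : M) (K : ℕ) (ρ : M →* Circle) :
    avg g K (fun y => (ρ y : ℂ)) =
      fun y => ((1 / (K : ℂ)) * ∑ k ∈ range K, (ρ g : ℂ) ^ k) * (ρ y : ℂ) := by
  funext y
  simp only [avg, LinearMap.coe_mk, AddHom.coe_mk, map_mul, map_pow, Circle.coe_mul, Circle.coe_pow]
  rw [← Finset.mul_sum]
  ring

theorem avg_good {M : Type} [CommGroup M] (D : Subgroup M) (g : M) (hg : g ∈ D) (K : ℕ)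
    (hK : 0 < K) : Good D (avg g K) := by
  have hK' : (0 : ℝ) < K := by exact_mod_cast hK
  constructor
  · intro f C y h
    have h1 : ‖∑ k ∈ range K, f (y * g ^ k)‖ ≤ K * C := by
      calc ‖∑ k ∈ range K, f (y * g ^ k)‖ ≤ ∑ k ∈ range K, ‖f (y * g ^ k)‖ := norm_sum_le _ _
        _ ≤ ∑ k ∈ range K, C := Finset.sum_le_sum (fun k _ => h _ (D.pow_mem hg k))
        _ = K * C := by simp
    have h2 : avg g K f y = (1 / (K : ℂ)) * ∑ k ∈ range K, f (y * g ^ k) := rfl
    rw [h2, norm_mul]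
    have h3 : ‖(1 / (K : ℂ))‖ = 1 / (K : ℝ) := by simp
    rw [h3]
    calc 1 / (K : ℝ) * ‖∑ k ∈ range K, f (y * g ^ k)‖ ≤ 1 / (K : ℝ) * (K * C) := by
          apply mul_le_mul_of_nonneg_left h1; positivity
      _ = C := by field_simp
  · intro ρ
    refine ⟨(1 / (K : ℂ)) * ∑ k ∈ range K, (ρ g : ℂ) ^ k, ?_, avg_eig g K ρ, ?_⟩
    · rw [norm_mul]
      have h3 : ‖(1 / (K : ℂ))‖ = 1 / (K : ℝ) := by simp
      rw [h3]
      have h1 : ‖∑ k ∈ range K, (ρ g : ℂ) ^ k‖ ≤ K := by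
        calc ‖∑ k ∈ range K, (ρ g : ℂ) ^ k‖ ≤ ∑ k ∈ range K, ‖(ρ g : ℂ) ^ k‖ := norm_sum_le _ _
          _ = ∑ k ∈ range K, (1 : ℝ) := by
              apply Finset.sum_congr rfl; intro k _; simp
          _ = K := by simp
      calc 1 / (K : ℝ) * ‖∑ k ∈ range K, (ρ g : ℂ) ^ k‖ ≤ 1 / (K : ℝ) * K := by
            apply mul_le_mul_of_nonneg_left h1; positivity
        _ = 1 := by field_simp
    · intro h
      rw [h g hg]
      have : (K : ℂ) ≠ 0 := by exact_mod_cast hK.ne'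
      simp [this]

theorem avg_small {M : Type} [CommGroup M] (g : M) (ρ : M →* Circle) (hρ : ρ g ≠ 1) (η : ℝ)
    (hη : 0 < η) : ∃ K : ℕ, 0 < K ∧ Small (avg g K) ρ η := by
  have hne : (ρ g : ℂ) ≠ 1 := by
    intro h; apply hρ; ext; simpa using h
  have hpos : 0 < ‖(ρ g : ℂ) - 1‖ := norm_pos_iff.2 (sub_ne_zero.2 hne)
  obtain ⟨K, hK⟩ := exists_nat_gt (2 / (‖(ρ g : ℂ) - 1‖ * η))
  have hK0 : (0 : ℝ) < K := lt_of_le_of_lt (by positivity) hK
  refine ⟨K, by exact_mod_cast hK0, (1 / (K : ℂ)) * ∑ k ∈ range K, (ρ g : ℂ) ^ k, ?_, avg_eig g K ρ⟩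
  have h3 : ‖(1 / (K : ℂ))‖ = 1 / (K : ℝ) := by simp
  rw [norm_mul, h3, geom_sum_eq hne, norm_div]
  have h4 : ‖(ρ g : ℂ) ^ K - 1‖ ≤ 2 := by
    calc ‖(ρ g : ℂ) ^ K - 1‖ ≤ ‖(ρ g : ℂ) ^ K‖ + ‖(1 : ℂ)‖ := norm_sub_le _ _
      _ = 2 := by simp; norm_num
  have h5 : 2 < K * (‖(ρ g : ℂ) - 1‖ * η) := by
    rw [div_lt_iff₀ (by positivity)] at hK
    exact hK
  rw [one_div_mul_eq_div, div_div, div_le_iff₀ (by positivity)]
  nlinarith

theorem good_comp {M : Type} [CommGroup M] (D : Subgroup M) (T U : (M → ℂ) →ₗ[ℂ] (M → ℂ))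
    (hT : Good D T) (hU : Good D U) : Good D (T ∘ₗ U) := by
  constructor
  · intro f C y h
    apply hT.1 (U f) C y
    intro d hd
    apply hU.1 f C
    intro d' hd'
    rw [mul_assoc]
    exact h _ (D.mul_mem hd hd')
  · intro ρ
    obtain ⟨c, hc, hcT, hc1⟩ := hT.2 ρ
    obtain ⟨c', hc', hcU, hc1'⟩ := hU.2 ρ
    refine ⟨c' * c, ?_, ?_, ?_⟩
    · rw [norm_mul]; nlinarith [norm_nonneg c, norm_nonneg c']
    · rw [LinearMap.comp_apply, hcU]
      have : (fun y => c' * (ρ y : ℂ)) = c' • (fun y => (ρ y : ℂ)) := rfl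
      rw [this, map_smul, hcT]
      funext y
      simp only [Pi.smul_apply, smul_eq_mul]
      ring
    · intro h
      rw [hc1 h, hc1' h, one_mul]

theorem small_comp_left {M : Type} [CommGroup M] (D : Subgroup M)
    (T U : (M → ℂ) →ₗ[ℂ] (M → ℂ)) (hT : Good D T) (ρ : M →* Circle) (η : ℝ)
    (h : Small U ρ η) : Small (T ∘ₗ U) ρ η := by
  obtain ⟨c, hc, hcT, hc1⟩ := hT.2 ρ
  obtain ⟨c', hc', hcU⟩ := h
  refine ⟨c' * c, ?_, ?_⟩
  · rw [norm_mul]; nlinarith [norm_nonneg c, norm_nonneg c']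
  · rw [LinearMap.comp_apply, hcU]
    have : (fun y => c' * (ρ y : ℂ)) = c' • (fun y => (ρ y : ℂ)) := rfl
    rw [this, map_smul, hcT]
    funext y
    simp only [Pi.smul_apply, smul_eq_mul]
    ring

theorem small_comp_right {M : Type} [CommGroup M] (D : Subgroup M)
    (T U : (M → ℂ) →ₗ[ℂ] (M → ℂ)) (hU : Good D U) (ρ : M →* Circle) (η : ℝ)
    (h : Small T ρ η) : Small (T ∘ₗ U) ρ η := by
  obtain ⟨c, hc, hcT⟩ := h
  obtain ⟨c', hc', hcU, hc1'⟩ := hU.2 ρ
  refine ⟨c' * c, ?_, ?_⟩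
  · rw [norm_mul]; nlinarith [norm_nonneg c, norm_nonneg c']
  · rw [LinearMap.comp_apply, hcU]
    have : (fun y => c' * (ρ y : ℂ)) = c' • (fun y => (ρ y : ℂ)) := rfl
    rw [this, map_smul, hcT]
    funext y
    simp only [Pi.smul_apply, smul_eq_mul]
    ring

theorem good_id {M : Type} [CommGroup M] (D : Subgroup M) :
    Good D (LinearMap.id : (M → ℂ) →ₗ[ℂ] (M → ℂ)) := by
  constructor
  · intro f C y h
    have := h 1 D.one_mem
    simpa using this
  · intro ρ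
    refine ⟨1, by simp, ?_, fun _ => rfl⟩
    funext y
    simp

theorem exists_good {M : Type} [CommGroup M] (D : Subgroup M) (η : ℝ) (hη : 0 < η)
    (S : Finset (M →* Circle)) (hS : ∀ ρ ∈ S, ¬ ∀ d ∈ D, ρ d = 1) :
    ∃ T : (M → ℂ) →ₗ[ℂ] (M → ℂ), Good D T ∧ ∀ ρ ∈ S, Small T ρ η := by
  classical
  induction S using Finset.induction_on with
  | empty => exact ⟨LinearMap.id, good_id D, by simp⟩
  | insert ρ0 S _ ih =>
    obtain ⟨T, hT, hTS⟩ := ih (fun ρ hρ => hS ρ (Finset.mem_insert_of_mem hρ))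
    have h0 := hS ρ0 (Finset.mem_insert_self _ _)
    push Not at h0
    obtain ⟨g, hg, hg1⟩ := h0
    obtain ⟨K, hK, hsm⟩ := avg_small g ρ0 hg1 η hη
    refine ⟨T ∘ₗ avg g K, good_comp D _ _ hT (avg_good D g hg K hK), ?_⟩
    intro ρ hρ
    rcases Finset.mem_insert.1 hρ with h | h
    · subst h
      exact small_comp_left D T _ hT _ η hsm
    · exact small_comp_right D T _ (avg_good D g hg K hK) ρ η (hTS ρ h)

theorem half_bound (z : ℂ) (hz : ‖z‖ = 1) : ‖(1 + z) / 2‖ ^ 2 = 1 - ‖z - 1‖ ^ 2 / 4 := by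
  have h := parallelogram_law_with_norm ℂ (1 : ℂ) z
  rw [hz, norm_sub_rev] at h
  rw [norm_div]
  simp only [norm_one, Complex.norm_ofNat] at h ⊢
  nlinarith

theorem kron {M : Type} [CommGroup M] (D : Subgroup M) {ι : Type} [Fintype ι]
    (χ : ι → (M →* Circle)) (Γ : Subgroup (M →* Circle)) (hχ : ∀ i, χ i ∈ Γ) (x : M)
    (h : ∀ γ ∈ Γ, (∀ d ∈ D, γ d = 1) → γ x = 1) (ε : ℝ) (hε : 0 < ε) :
    ∃ d ∈ D, ∀ i, ‖(χ i (x * d) : ℂ) - 1‖ < ε := by
  classical
  by_contra hcon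
  push Not at hcon
  set r : ℝ := Real.sqrt (1 - ε ^ 2 / 4) with hr
  have hr1 : r < 1 := by
    rw [hr, Real.sqrt_lt' one_pos]; nlinarith
  have hr0 : 0 ≤ r := Real.sqrt_nonneg _
  have hhalf : ∀ j y, ‖(1 + (χ j y : ℂ)) / 2‖ ^ 2 = 1 - ‖(χ j y : ℂ) - 1‖ ^ 2 / 4 :=
    fun j y => half_bound _ (by simp)
  have hPle : ∀ N : ℕ, ∀ d ∈ D, ‖∏ i, ((1 + (χ i (x * d) : ℂ)) / 2) ^ N‖ ≤ r ^ N := by
    intro N d hd
    obtain ⟨i, hi⟩ := hcon d hd
    have hle1 : ∀ j, ‖(1 + (χ j (x * d) : ℂ)) / 2‖ ≤ 1 := by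
      intro j
      have := hhalf j (x * d)
      nlinarith [norm_nonneg ((1 + (χ j (x * d) : ℂ)) / 2), sq_nonneg ‖(χ j (x * d) : ℂ) - 1‖]
    have hlei : ‖(1 + (χ i (x * d) : ℂ)) / 2‖ ≤ r := by
      rw [hr]
      apply Real.le_sqrt_of_sq_le
      rw [hhalf i (x * d)]
      have : ε ^ 2 ≤ ‖(χ i (x * d) : ℂ) - 1‖ ^ 2 := by gcongr
      linarith
    rw [norm_prod, ← Finset.mul_prod_erase _ _ (Finset.mem_univ i)]
    have h1 : ‖((1 + (χ i (x * d) : ℂ)) / 2) ^ N‖ ≤ r ^ N := by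
      rw [norm_pow]; gcongr
    have h2 : ∏ j ∈ Finset.univ.erase i, ‖((1 + (χ j (x * d) : ℂ)) / 2) ^ N‖ ≤ 1 := by
      apply Finset.prod_le_one
      · intro j _; positivity
      · intro j _
        rw [norm_pow]
        exact pow_le_one₀ (norm_nonneg _) (hle1 j)
    calc _ ≤ r ^ N * 1 := by
          apply mul_le_mul h1 h2 (Finset.prod_nonneg (fun j _ => norm_nonneg _)) (by positivity)
      _ = r ^ N := mul_one _
  -- main inequality
  have key : ∀ N : ℕ, 1 ≤ ((N : ℝ) + 1) ^ (Fintype.card ι) * r ^ N := by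
    intro N
    set J : Finset (ι → ℕ) := Fintype.piFinset (fun _ : ι => range (N + 1)) with hJ
    set c : (ι → ℕ) → ℝ := fun m => ∏ i, ((N.choose (m i) : ℝ) / 2 ^ N) with hc
    have hc0 : ∀ m, 0 ≤ c m := fun m => Finset.prod_nonneg (fun i _ => by positivity)
    have hcsum : ∑ m ∈ J, c m = 1 := by
      rw [hJ, hc, ← Finset.prod_univ_sum (fun _ : ι => range (N + 1))
        (fun _ j => ((N.choose j : ℝ) / 2 ^ N))]
      apply Finset.prod_eq_one
      intro i _
      rw [← Finset.sum_div]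
      have := Nat.sum_range_choose N
      have h2 : (∑ j ∈ range (N + 1), (N.choose j : ℝ)) = 2 ^ N := by exact_mod_cast this
      rw [h2]
      exact div_self (by positivity)
    have hcard : (J.card : ℝ) = ((N : ℝ) + 1) ^ (Fintype.card ι) := by
      rw [hJ, Fintype.card_piFinset]
      simp
    have hJne : J.Nonempty := by
      by_contra hne
      rw [Finset.not_nonempty_iff_eq_empty] at hne
      rw [hne] at hcsum
      simp at hcsum
    obtain ⟨m0, hm0, hm0c⟩ : ∃ m0 ∈ J, 1 / (J.card : ℝ) ≤ c m0 := by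
      apply Finset.exists_le_of_sum_le hJne
      rw [hcsum, Finset.sum_const, nsmul_eq_mul]
      have : (J.card : ℝ) ≠ 0 := by
        have := hJne.card_pos
        positivity
      rw [mul_one_div_cancel this]
    let mon : (ι → ℕ) → (M →* Circle) := fun m => ∏ i, (χ i) ^ (m i)
    let ρ : (ι → ℕ) → (M →* Circle) := fun m => mon m * (mon m0)⁻¹
    have hmonΓ : ∀ m, mon m ∈ Γ := fun m => Γ.prod_mem (fun i _ => Γ.pow_mem (hχ i) _)
    have hρΓ : ∀ m, ρ m ∈ Γ := fun m => Γ.mul_mem (hmonΓ m) (Γ.inv_mem (hmonΓ m0))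
    have hρ0 : ρ m0 = 1 := mul_inv_cancel _
    have hmon : ∀ m y, ((mon m y : Circle) : ℂ) = ∏ i, (χ i y : ℂ) ^ (m i) := by
      intro m y
      simp only [mon, MonoidHom.finsetProd_apply, MonoidHom.pow_apply]
      rw [← Circle.coeHom_apply, map_prod]
      simp
    have hexp : ∀ y, ∏ i, ((1 + (χ i y : ℂ)) / 2) ^ N = ∑ m ∈ J, (c m : ℂ) * (mon m y : ℂ) := by
      intro y
      have h1 : ∀ i, ((1 + (χ i y : ℂ)) / 2) ^ N =
          ∑ j ∈ range (N + 1), (((N.choose j : ℝ) / 2 ^ N : ℝ) : ℂ) * (χ i y : ℂ) ^ j := by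
        intro i
        rw [div_pow, add_comm, add_pow, Finset.sum_div]
        apply Finset.sum_congr rfl
        intro j _
        push_cast
        rw [one_pow]
        ring
      rw [Finset.prod_congr rfl (fun i _ => h1 i), Finset.prod_univ_sum]
      apply Finset.sum_congr rfl
      intro m _
      rw [Finset.prod_mul_distrib, hmon]
      congr 1
      rw [hc]
      push_cast
      rfl
    have hbound : ∀ η : ℝ, 0 < η → c m0 ≤ r ^ N + η := by
      intro η hη
      let S : Finset (M →* Circle) := (J.image ρ).filter (fun σ => ¬ ∀ d ∈ D, σ d = 1)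
      obtain ⟨T, hT, hTS⟩ := exists_good D η hη S (by
        intro σ hσ
        exact (Finset.mem_filter.1 hσ).2)
      let f : M → ℂ := fun y => (∏ i, ((1 + (χ i y : ℂ)) / 2) ^ N) * (((mon m0)⁻¹ y : Circle) : ℂ)
      have hf : f = ∑ m ∈ J, (c m : ℂ) • (fun y => (ρ m y : ℂ)) := by
        funext y
        simp only [f]
        rw [hexp, Finset.sum_mul, Finset.sum_apply]
        apply Finset.sum_congr rfl
        intro m _
        simp only [Pi.smul_apply, smul_eq_mul, ρ, MonoidHom.mul_apply, Circle.coe_mul]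
        ring
      have hTf : ‖T f x‖ ≤ r ^ N := by
        apply hT.1 f (r ^ N) x
        intro d hd
        simp only [f]
        rw [norm_mul]
        have : ‖(((mon m0)⁻¹ (x * d) : Circle) : ℂ)‖ = 1 := by simp
        rw [this, mul_one]
        exact hPle N d hd
      have hterm : ∀ m ∈ J, (if m = m0 then c m0 else 0) - c m * η ≤ ((c m : ℂ) * T (fun y => (ρ m y : ℂ)) x).re := by
        intro m hm
        obtain ⟨a, ha, hTa, hta⟩ := hT.2 (ρ m)
        by_cases htriv : ∀ d ∈ D, ρ m d = 1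
        · have h1 := h (ρ m) (hρΓ m) htriv
          have h1' : T (fun y => (ρ m y : ℂ)) x = 1 := by
            rw [hTa]
            change a * ((ρ m x : Circle) : ℂ) = 1
            rw [hta htriv, h1]
            simp
          rw [h1', mul_one, Complex.ofReal_re]
          have := hc0 m
          split_ifs with hmm
          · subst hmm; nlinarith
          · nlinarith
        · have hmm : m ≠ m0 := by
            rintro rfl
            apply htriv
            intro d _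
            rw [hρ0]; rfl
          rw [if_neg hmm]
          obtain ⟨b, hb, hTb⟩ := hTS (ρ m) (Finset.mem_filter.2 ⟨Finset.mem_image_of_mem _ hm, htriv⟩)
          have hTb' : T (fun y => (ρ m y : ℂ)) x = b * (ρ m x : ℂ) := by
            rw [hTb]
          rw [hTb']
          have h2 : ‖(c m : ℂ) * (b * (ρ m x : ℂ))‖ ≤ c m * η := by
            rw [norm_mul, norm_mul]
            have h3 : ‖(ρ m x : ℂ)‖ = 1 := by simp
            have h4 : ‖(c m : ℂ)‖ = c m := by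
              rw [Complex.norm_real, Real.norm_of_nonneg (hc0 m)]
            rw [h3, h4, mul_one]
            exact mul_le_mul_of_nonneg_left hb (hc0 m)
          have h5 := Complex.abs_re_le_norm ((c m : ℂ) * (b * (ρ m x : ℂ)))
          have h6 := neg_abs_le ((c m : ℂ) * (b * (ρ m x : ℂ))).re
          linarith
      have hTfx : T f x = ∑ m ∈ J, (c m : ℂ) * T (fun y => (ρ m y : ℂ)) x := by
        rw [hf, map_sum, Finset.sum_apply]
        apply Finset.sum_congr rfl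
        intro m _
        rw [map_smul]
        rfl
      have hre : c m0 - η ≤ (T f x).re := by
        rw [hTfx, Complex.re_sum]
        have h7 := Finset.sum_le_sum hterm
        rw [Finset.sum_sub_distrib, ← Finset.sum_mul, hcsum, Finset.sum_ite_eq', if_pos hm0] at h7
        linarith
      have := Complex.re_le_norm (T f x)
      linarith
    have hle : c m0 ≤ r ^ N := le_of_forall_pos_le_add hbound
    rw [← hcard]
    have hJpos : (0 : ℝ) < J.card := by
      have := hJne.card_pos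
      positivity
    have h8 := hm0c.trans hle
    rw [div_le_iff₀ hJpos] at h8
    linarith
  have hlim := tendsto_pow_const_mul_const_pow_of_abs_lt_one (Fintype.card ι)
    (show |r| < 1 by rw [abs_of_nonneg hr0]; exact hr1)
  have hlim2 := hlim.const_mul ((2 : ℝ) ^ (Fintype.card ι))
  rw [mul_zero] at hlim2
  have hev := (hlim2.eventually (gt_mem_nhds (show (0 : ℝ) < 1 by norm_num))).and
    (Filter.eventually_ge_atTop 1)
  obtain ⟨N, hN, hN1⟩ := hev.exists
  have hk := key N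
  have hN1' : (1 : ℝ) ≤ N := by exact_mod_cast hN1
  have h9 : ((N : ℝ) + 1) ^ (Fintype.card ι) ≤ 2 ^ (Fintype.card ι) * (N : ℝ) ^ (Fintype.card ι) := by
    rw [← mul_pow]
    gcongr
    linarith
  have h10 : ((N : ℝ) + 1) ^ (Fintype.card ι) * r ^ N ≤
      2 ^ (Fintype.card ι) * ((N : ℝ) ^ (Fintype.card ι) * r ^ N) := by
    rw [← mul_assoc]
    gcongr
  linarith

end Pool.Agent.H20.Kron
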