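import Mathlib

set_option autoImplicit false

namespace Pool.Agent.H20.Rigid

open Topology BoundedContinuousFunction

variable {X : Type} [TopologicalSpace X]

theorem sup_cont (K : Set X) (hK : IsCompact K) :
    Continuous fun g : X →ᵇ ℝ => sSup (g '' K) := by
  have h : Continuous (Function.uncurry fun (g : X →ᵇ ℝ) (x : X) => g x) :=
    continuous_eval
  exact hK.continuous_sSup h

/-- if adding small multiples of a fixed function moves g into the set, the set is dense -/
theorem dense_of_bump (V : Set (X →ᵇ ℝ))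
    (h : ∀ g : X →ᵇ ℝ, ∀ ε > 0, ∃ g' : X →ᵇ ℝ, g' ∈ V ∧ dist g' g ≤ ε) : Dense V := by
  rw [Metric.dense_iff]
  intro g r hr
  obtain ⟨g', hg', hd⟩ := h g (r / 2) (by linarith)
  exact ⟨g', by rw [Metric.mem_ball]; linarith, hg'⟩

theorem exists_bump [T2Space X] [LocallyCompactSpace X] (K F : Set X) (hK : IsCompact K)
    (hF : IsClosed F) (hd : Disjoint K F) :
    ∃ φ : X →ᵇ ℝ, (∀ x ∈ K, φ x = 1) ∧ (∀ x ∈ F, φ x = 0) ∧ ∀ x, 0 ≤ φ x ∧ φ x ≤ 1 := by
  obtain ⟨f, h1, h2, _, h4⟩ := exists_continuous_one_zero_of_isCompact hK hF hd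
  refine ⟨BoundedContinuousFunction.ofNormedAddCommGroup f f.continuous 1 ?_, ?_, ?_, ?_⟩
  · intro x
    rw [Real.norm_eq_abs, abs_le]
    exact ⟨by linarith [(h4 x).1], (h4 x).2⟩
  · intro x hx
    exact h1 hx
  · intro x hx
    exact h2 hx
  · intro x
    exact ⟨(h4 x).1, (h4 x).2⟩

theorem dist_add_smul (g φ : X →ᵇ ℝ) (hφ : ∀ x, 0 ≤ φ x ∧ φ x ≤ 1) (c : ℝ) (hc : 0 ≤ c) :
    dist (g + c • φ) g ≤ c := by
  rw [BoundedContinuousFunction.dist_le hc]
  intro x
  rw [BoundedContinuousFunction.add_apply, BoundedContinuousFunction.smul_apply, Real.dist_eq]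
  have h := hφ x
  have : g x + c • φ x - g x = c * φ x := by
    rw [smul_eq_mul]
    ring
  rw [this, abs_of_nonneg (mul_nonneg hc h.1)]
  nlinarith [h.1, h.2]

/-- Every second countable locally compact Hausdorff space carries a bounded continuous function
preserved by no homeomorphism other than the identity. -/
theorem exists_rigid (X : Type) [TopologicalSpace X] [T2Space X] [LocallyCompactSpace X]
    [SecondCountableTopology X] :
    ∃ g : X →ᵇ ℝ, ∀ T : X ≃ₜ X, (∀ p, g (T p) = g p) → ∀ p, T p = p := by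
  classical
  let 𝓑 := TopologicalSpace.countableBasis X
  have h𝓑c : 𝓑.Countable := TopologicalSpace.countable_countableBasis X
  have h𝓑 : TopologicalSpace.IsTopologicalBasis 𝓑 :=
    TopologicalSpace.isBasis_countableBasis X
  let U : Set X × Set X → Set (X →ᵇ ℝ) := fun P =>
    {g | sSup (g '' closure P.1) ≠ sSup (g '' closure P.2)}
  let V : Set X → Set (X →ᵇ ℝ) := fun B =>
    {g | ∃ W : Set X, IsOpen W ∧ IsCompact (closure W) ∧ closure W ⊆ B ∧
      ∃ y ∈ W, ∀ z ∈ frontier W, g z < g y}
  let I : Set (Set X × Set X) := {P | P ∈ 𝓑 ×ˢ 𝓑 ∧ IsCompact (closure P.1) ∧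
    IsCompact (closure P.2) ∧ P.1.Nonempty ∧ P.2.Nonempty ∧
    Disjoint (closure P.1) (closure P.2)}
  let J : Set (Set X) := {B | B ∈ 𝓑 ∧ B.Nonempty}
  have hI : I.Countable := (h𝓑c.prod h𝓑c).mono fun P hP => hP.1
  have hJ : J.Countable := h𝓑c.mono fun B hB => hB.1
  have hUo : ∀ P ∈ I, IsOpen (U P) := by
    rintro P ⟨_, h1, h2, _⟩
    exact isOpen_ne_fun (sup_cont _ h1) (sup_cont _ h2)
  have hUd : ∀ P ∈ I, Dense (U P) := by
    rintro P ⟨_, h1, h2, h3, h4, h5⟩
    apply dense_of_bump
    intro g ε hε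
    by_cases hg : g ∈ U P
    · exact ⟨g, hg, by rw [dist_self]; exact hε.le⟩
    · have hg' : sSup (g '' closure P.1) = sSup (g '' closure P.2) := by
        by_contra hne
        exact hg hne
      obtain ⟨φ, hφ1, hφ2, hφ3⟩ := exists_bump (closure P.1) (closure P.2) h1 isClosed_closure h5
      refine ⟨g + ε • φ, ?_, dist_add_smul g φ hφ3 ε hε.le⟩
      have e1 : sSup ((g + ε • φ) '' closure P.1) = sSup (g '' closure P.1) + ε := by
        obtain ⟨y, hy, hyS, hyM⟩ := h1.exists_sSup_image_eq_and_ge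
          (h3.mono subset_closure) (g.continuous.continuousOn)
        rw [hyS]
        apply IsGreatest.csSup_eq
        constructor
        · refine ⟨y, hy, ?_⟩
          rw [BoundedContinuousFunction.add_apply, BoundedContinuousFunction.smul_apply,
            hφ1 y hy, smul_eq_mul, mul_one]
        · rintro _ ⟨z, hz, rfl⟩
          rw [BoundedContinuousFunction.add_apply, BoundedContinuousFunction.smul_apply,
            hφ1 z hz, smul_eq_mul, mul_one]
          linarith [hyM z hz]
      have e2 : (g + ε • φ) '' closure P.2 = g '' closure P.2 := by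
        apply Set.image_congr
        intro z hz
        rw [BoundedContinuousFunction.add_apply, BoundedContinuousFunction.smul_apply,
          hφ2 z hz, smul_zero, add_zero]
      show sSup ((g + ε • φ) '' closure P.1) ≠ sSup ((g + ε • φ) '' closure P.2)
      rw [e1, e2, hg']
      linarith
  have hVo : ∀ B ∈ J, IsOpen (V B) := by
    intro B _
    have : V B = ⋃ (W : Set X) (_ : IsOpen W ∧ IsCompact (closure W) ∧ closure W ⊆ B)
        (y : X) (_ : y ∈ W), {g : X →ᵇ ℝ | ∀ z ∈ frontier W, g z < g y} := by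
      ext g
      simp only [V, Set.mem_setOf_eq, Set.mem_iUnion]
      constructor
      · rintro ⟨W, h1, h2, h3, y, hy, h4⟩
        exact ⟨W, ⟨h1, h2, h3⟩, y, hy, h4⟩
      · rintro ⟨W, ⟨h1, h2, h3⟩, y, hy, h4⟩
        exact ⟨W, h1, h2, h3, y, hy, h4⟩
    rw [this]
    refine isOpen_iUnion fun W => isOpen_iUnion fun hW => isOpen_iUnion fun y =>
      isOpen_iUnion fun hy => ?_
    have hfc : IsCompact (frontier W) :=
      hW.2.1.of_isClosed_subset isClosed_frontier frontier_subset_closure
    rcases (frontier W).eq_empty_or_nonempty with he | hne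
    · rw [he]
      simp
    · have heq : {g : X →ᵇ ℝ | ∀ z ∈ frontier W, g z < g y} =
          {g : X →ᵇ ℝ | sSup (g '' frontier W) < g y} := by
        ext g
        obtain ⟨z0, hz0, hzS, hzM⟩ := hfc.exists_sSup_image_eq_and_ge hne
          (g.continuous.continuousOn)
        simp only [Set.mem_setOf_eq]
        rw [hzS]
        constructor
        · intro h
          exact h z0 hz0
        · intro h z hz
          exact lt_of_le_of_lt (hzM z hz) h
      rw [heq]
      exact isOpen_lt (sup_cont _ hfc) (continuous_eval_const y)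
  have hVd : ∀ B ∈ J, Dense (V B) := by
    rintro B ⟨hB, x, hx⟩
    have hBo : IsOpen B := h𝓑.isOpen hB
    apply dense_of_bump
    intro g ε hε
    have hnb : B ∩ g ⁻¹' (Metric.ball (g x) (ε / 2)) ∈ 𝓝 x :=
      Filter.inter_mem (hBo.mem_nhds hx)
        (g.continuous.continuousAt.preimage_mem_nhds (Metric.ball_mem_nhds _ (by linarith)))
    obtain ⟨K, hK, hKs, hKc⟩ := local_compact_nhds hnb
    have hW : IsOpen (interior K) := isOpen_interior
    have hxW : x ∈ interior K := mem_interior_iff_mem_nhds.mpr hK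
    have hcl : closure (interior K) ⊆ K := closure_minimal interior_subset hKc.isClosed
    have hdis : Disjoint ({x} : Set X) (interior K)ᶜ := by
      rw [Set.disjoint_singleton_left]
      exact fun h => h hxW
    obtain ⟨φ, hφ1, hφ2, hφ3⟩ := exists_bump {x} (interior K)ᶜ isCompact_singleton
      hW.isClosed_compl hdis
    refine ⟨g + ε • φ, ?_, dist_add_smul g φ hφ3 ε hε.le⟩
    refine ⟨interior K, hW, hKc.of_isClosed_subset isClosed_closure hcl,
      hcl.trans fun z hz => (hKs hz).1, x, hxW, ?_⟩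
    intro z hz
    have hz1 : z ∈ K := hcl (frontier_subset_closure hz)
    have hz2 : z ∈ (interior K)ᶜ := by
      intro h
      rw [hW.frontier_eq] at hz
      exact hz.2 h
    rw [BoundedContinuousFunction.add_apply, BoundedContinuousFunction.smul_apply,
      BoundedContinuousFunction.add_apply, BoundedContinuousFunction.smul_apply,
      hφ2 z hz2, hφ1 x rfl, smul_zero, add_zero, smul_eq_mul, mul_one]
    have h6 : dist (g z) (g x) < ε / 2 := (hKs hz1).2
    rw [Real.dist_eq] at h6
    have := (abs_lt.mp h6).2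
    linarith
  have hdense : Dense (⋂₀ ((U '' I) ∪ (V '' J))) := by
    apply dense_sInter_of_isOpen
    · rintro s (⟨P, hP, rfl⟩ | ⟨B, hB, rfl⟩)
      · exact hUo P hP
      · exact hVo B hB
    · exact (hI.image U).union (hJ.image V)
    · rintro s (⟨P, hP, rfl⟩ | ⟨B, hB, rfl⟩)
      · exact hUd P hP
      · exact hVd B hB
  obtain ⟨g, hg⟩ := hdense.nonempty
  have hgU : ∀ P ∈ I, g ∈ U P := fun P hP => hg _ (Or.inl ⟨P, hP, rfl⟩)
  have hgV : ∀ B ∈ J, g ∈ V B := fun B hB => hg _ (Or.inr ⟨B, hB, rfl⟩)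
  refine ⟨g, ?_⟩
  intro T hT
  -- local maxima are fixed
  have hfix : ∀ p, IsLocalMax g p → T p = p := by
    intro p hp
    by_contra hne
    have hq : IsLocalMax g (T p) := by
      have h1 : Filter.Tendsto T.symm (𝓝 (T p)) (𝓝 p) := by
        have := T.symm.continuous.continuousAt (x := T p)
        rw [ContinuousAt, T.symm_apply_apply] at this
        exact this
      have h2 := h1.eventually hp
      refine h2.mono fun z hz => ?_
      have h3 := hT (T.symm z)
      rw [T.apply_symm_apply] at h3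
      rw [h3, hT p]
      exact hz
    obtain ⟨O1, O2, hO1, hO2, hp1, hp2, hd⟩ := t2_separation (Ne.symm hne)
    have key : ∀ (q : X) (O : Set X), IsOpen O → q ∈ O → IsLocalMax g q →
        ∃ B ∈ 𝓑, q ∈ B ∧ closure B ⊆ O ∧ IsCompact (closure B) ∧
          sSup (g '' closure B) = g q := by
      intro q O hO hqO hq
      have hnb : O ∩ {z | g z ≤ g q} ∈ 𝓝 q := Filter.inter_mem (hO.mem_nhds hqO) hq
      obtain ⟨K, hK, hKs, hKc⟩ := local_compact_nhds hnb
      obtain ⟨B, hB, hqB, hBK⟩ := h𝓑.mem_nhds_iff.mp hK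
      have hcl : closure B ⊆ K := closure_minimal hBK hKc.isClosed
      refine ⟨B, hB, hqB, hcl.trans fun z hz => (hKs hz).1,
        hKc.of_isClosed_subset isClosed_closure hcl, ?_⟩
      apply IsGreatest.csSup_eq
      constructor
      · exact ⟨q, subset_closure hqB, rfl⟩
      · rintro _ ⟨z, hz, rfl⟩
        exact (hKs (hcl hz)).2
    obtain ⟨B1, hB1, hpB1, hcl1, hc1, hs1⟩ := key p O1 hO1 hp1 hp
    obtain ⟨B2, hB2, hpB2, hcl2, hc2, hs2⟩ := key (T p) O2 hO2 hp2 hq
    have := hgU (B1, B2) ⟨⟨hB1, hB2⟩, hc1, hc2, ⟨p, hpB1⟩, ⟨T p, hpB2⟩, hd.mono hcl1 hcl2⟩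
    apply this
    show sSup (g '' closure B1) = sSup (g '' closure B2)
    rw [hs1, hs2, hT p]
  -- local maxima are dense
  have hdm : Dense {p | IsLocalMax g p} := by
    rw [h𝓑.dense_iff]
    intro B hB hBne
    obtain ⟨W, hWo, hWc, hWB, y, hy, hlt⟩ := hgV B ⟨hB, hBne⟩
    obtain ⟨m, hm, hmS, hmM⟩ := hWc.exists_sSup_image_eq_and_ge
      (⟨y, subset_closure hy⟩) (g.continuous.continuousOn)
    have hmW : m ∈ W := by
      by_contra hcon
      have hf : m ∈ frontier W := by
        rw [hWo.frontier_eq]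
        exact ⟨hm, hcon⟩
      exact absurd (hmM y (subset_closure hy)) (not_le.mpr (hlt m hf))
    refine ⟨m, hWB hm, ?_⟩
    exact Filter.mem_of_superset (hWo.mem_nhds hmW) fun z hz => hmM z (subset_closure hz)
  intro p
  have hclosed : IsClosed {p | T p = p} := isClosed_eq T.continuous continuous_id
  have : closure {p | IsLocalMax g p} ⊆ {p | T p = p} :=
    closure_minimal (fun p hp => hfix p hp) hclosed
  exact this (hdm p)

end Pool.Agent.H20.Rigid
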