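import Pool.Agent.H20.Kron

set_option autoImplicit false

namespace Pool.Agent.H20.SSep

open Module Real

noncomputable section

theorem countable_closure {K : Type} [CommGroup K] (S : Set K) (hS : S.Countable) :
    ((Subgroup.closure S : Subgroup K) : Set K).Countable := by
  have : Countable S := hS.to_subtype
  apply (Set.countable_range (fun f : S →₀ ℤ => f.prod (fun s k => (s : K) ^ k))).mono
  intro x hx
  induction hx using Subgroup.closure_induction with
  | mem x hx => exact ⟨Finsupp.single ⟨x, hx⟩ 1, by simp⟩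
  | one => exact ⟨0, by simp⟩
  | mul x y _ _ hx hy =>
    obtain ⟨f, rfl⟩ := hx
    obtain ⟨g, rfl⟩ := hy
    refine ⟨f + g, ?_⟩
    simp only
    rw [Finsupp.prod_add_index']
    · intro a; simp
    · intro a b c; exact zpow_add _ _ _
  | inv x _ hx =>
    obtain ⟨f, rfl⟩ := hx
    refine ⟨-f, ?_⟩
    simp only
    rw [Finsupp.prod_neg_index (by intro a; simp)]
    simp only [zpow_neg]
    exact Finsupp.prod_inv

/-- two rationally independent reals -/
theorem indep {x y r : ℝ} (hx : x ≠ 0) (hy : ∀ q : ℚ, y ≠ q * x) (m n : ℤ)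
    (hm : r * x = m) (hn : r * y = n) : r = 0 := by
  by_contra hr
  have hm0 : (m : ℝ) ≠ 0 := by
    rw [← hm]; exact mul_ne_zero hr hx
  apply hy ((n : ℚ) / (m : ℚ))
  push_cast
  rw [← hm, ← hn]
  field_simp

abbrev I : Type := ↥(Basis.ofVectorSpaceIndex ℚ ℝ)

def B : Basis I ℚ ℝ := Basis.ofVectorSpace ℚ ℝ

theorem uncI : ¬ Countable I := by
  intro h
  have h1 : Countable (I →₀ ℚ) := inferInstance
  have h2 : Countable ℝ := B.repr.toEquiv.countable_iff.2 h1
  exact Cardinal.not_countable_real (Set.countable_univ_iff.2 h2)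

theorem exI : ∃ i j : I, i ≠ j := by
  by_contra h
  push Not at h
  apply uncI
  have : Subsingleton I := ⟨h⟩
  exact Finite.to_countable

def i0 : I := Classical.choose exI
def i1 : I := Classical.choose (Classical.choose_spec exI)
theorem i01 : i0 ≠ i1 := Classical.choose_spec (Classical.choose_spec exI)

theorem B_indep {i j : I} (h : i ≠ j) (q : ℚ) : B j ≠ q * B i := by
  intro he
  have h1 : B j = q • B i := by rw [he, Rat.smul_def]
  have h2 := congrArg (fun v => B.repr v j) h1
  simp only [map_smul, Basis.repr_self, Finsupp.smul_apply, Finsupp.single_apply, if_neg h] at h2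
  simp at h2

/-- the coefficient that is switched off at two indices -/
def ep (i : I) : ℝ := by classical exact if i = i0 ∨ i = i1 then 0 else 1

/-- the additive functions -/
def th (i : I) (x : ℝ) : ℝ := B i * x + ep i * ((B.repr x i : ℚ) : ℝ)

theorem th_add (i : I) (x y : ℝ) : th i (x + y) = th i x + th i y := by
  simp only [th, map_add, Finsupp.add_apply]
  push_cast
  ring

theorem th_zero (i : I) : th i 0 = 0 := by
  simp [th]

def HH : Type := Multiplicative ℝ

instance : CommGroup HH := inferInstanceAs (CommGroup (Multiplicative ℝ))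

def toR (x : HH) : ℝ := Multiplicative.toAdd (show Multiplicative ℝ from x)

def ofR (x : ℝ) : HH := (Multiplicative.ofAdd x : Multiplicative ℝ)

theorem toR_mul (x y : HH) : toR (x * y) = toR x + toR y := rfl
theorem toR_one : toR 1 = 0 := rfl
theorem toR_inv (x : HH) : toR x⁻¹ = - toR x := rfl
theorem toR_ofR (x : ℝ) : toR (ofR x) = x := rfl
theorem toR_inj {x y : HH} (h : toR x = toR y) : x = y := h

def ch (i : I) : HH →* Circle where
  toFun x := Circle.exp (2 * π * th i (toR x))
  map_one' := by simp [toR_one, th_zero]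
  map_mul' x y := by rw [toR_mul, th_add, mul_add, Circle.exp_add]

theorem ch_apply (i : I) (x : HH) : ch i x = Circle.exp (2 * π * th i (toR x)) := rfl

def Phi : HH →* (I → Circle) where
  toFun x := fun i => ch i x
  map_one' := by funext i; simp
  map_mul' x y := by funext i; simp

instance : TopologicalSpace HH := TopologicalSpace.induced Phi inferInstance

instance : IsTopologicalGroup HH := topologicalGroup_induced Phi

theorem ch_cont (i : I) : Continuous (ch i) :=
  (continuous_apply i).comp (continuous_induced_dom : Continuous Phi)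

theorem exp_one_iff {t : ℝ} : Circle.exp (2 * π * t) = 1 ↔ ∃ m : ℤ, t = m := by
  rw [Circle.exp_eq_one]
  constructor
  · rintro ⟨n, hn⟩
    refine ⟨n, ?_⟩
    have : (2 * π) ≠ 0 := by positivity
    have h2 : (2 * π) * t = (2 * π) * n := by rw [hn]; ring
    exact mul_left_cancel₀ this h2
  · rintro ⟨n, rfl⟩
    exact ⟨n, by ring⟩

theorem exp_eq_iff {s t : ℝ} :
    Circle.exp (2 * π * s) = Circle.exp (2 * π * t) ↔ ∃ m : ℤ, s - t = m := by
  rw [← exp_one_iff, mul_sub, sub_eq_add_neg, Circle.exp_add, Circle.exp_neg, mul_inv_eq_one]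

theorem B_ne (i : I) : B i ≠ 0 := B.ne_zero i

theorem eq_of_two {x y : ℝ} (h0 : Circle.exp (2 * π * (B i0 * x)) = Circle.exp (2 * π * (B i0 * y)))
    (h1 : Circle.exp (2 * π * (B i1 * x)) = Circle.exp (2 * π * (B i1 * y))) : x = y := by
  rw [exp_eq_iff] at h0 h1
  obtain ⟨m, hm⟩ := h0
  obtain ⟨n, hn⟩ := h1
  have := indep (r := x - y) (B_ne i0) (fun q => B_indep i01 q) m n
    (by rw [← hm]; ring) (by rw [← hn]; ring)
  linarith

theorem ep0 : ep i0 = 0 := by simp [ep]
theorem ep1 : ep i1 = 0 := by simp [ep]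

theorem ch0 (x : HH) : ch i0 x = Circle.exp (2 * π * (B i0 * toR x)) := by
  rw [ch_apply, th, ep0, zero_mul, add_zero]
theorem ch1 (x : HH) : ch i1 x = Circle.exp (2 * π * (B i1 * toR x)) := by
  rw [ch_apply, th, ep1, zero_mul, add_zero]

instance : T2Space HH := by
  apply T2Space.of_injective_continuous (f := Phi) _ continuous_induced_dom
  intro x y h
  apply toR_inj
  apply eq_of_two
  · rw [← ch0, ← ch0]; exact congrFun h i0
  · rw [← ch1, ← ch1]; exact congrFun h i1

/-- integer combinations -/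
def qq (n : I →₀ ℤ) (x : ℝ) : ℝ := n.sum fun i k => (k : ℝ) * th i x

theorem qq_add (n n' : I →₀ ℤ) (x : ℝ) : qq (n + n') x = qq n x + qq n' x := by
  unfold qq
  rw [Finsupp.sum_add_index']
  · intro a; simp
  · intro a b c; push_cast; ring

theorem qq_neg (n : I →₀ ℤ) (x : ℝ) : qq (-n) x = - qq n x := by
  have := qq_add n (-n) x
  rw [add_neg_cancel] at this
  have h0 : qq 0 x = 0 := by simp [qq]
  linarith

def sv (n : I →₀ ℤ) : ℝ := n.sum fun i k => (k : ℝ) * B i

theorem sv_inj (n : I →₀ ℤ) (h : sv n = 0) : n = 0 := by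
  have h1 := (linearIndependent_iff.1 B.linearIndependent)
    (n.mapRange (Int.cast : ℤ → ℚ) Int.cast_zero) (by
      rw [Finsupp.linearCombination_apply, Finsupp.sum_mapRange_index (by intro a; simp)]
      rw [← h, sv]
      apply Finsupp.sum_congr
      intro i _
      rw [Rat.smul_def]
      push_cast
      rfl)
  ext i
  have h2 := DFunLike.congr_fun h1 i
  simp only [Finsupp.mapRange_apply, Finsupp.coe_zero, Pi.zero_apply] at h2 ⊢
  exact_mod_cast h2

theorem qq_eq (n : I →₀ ℤ) (x : ℝ) (h : ∀ i, n i ≠ 0 → B.repr x i = 0) : qq n x = sv n * x := by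
  unfold qq sv
  rw [Finsupp.sum_mul]
  apply Finsupp.sum_congr
  intro i hi
  rw [th, h i (Finsupp.mem_support_iff.1 hi)]
  push_cast
  ring

theorem circ_dist (a b : Circle) : dist a b = ‖(a : ℂ) - (b : ℂ)‖ := by
  rw [← dist_eq_norm]
  rfl

theorem circ_aux (a b : Circle) : dist a⁻¹ b = ‖((b * a : Circle) : ℂ) - 1‖ := by
  rw [circ_dist, norm_sub_rev]
  have : (b : ℂ) - ((a⁻¹ : Circle) : ℂ) = ((a⁻¹ : Circle) : ℂ) * (((b * a : Circle) : ℂ) - 1) := by
    have h1 : ((a⁻¹ : Circle) : ℂ) * (a : ℂ) = 1 := by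
      rw [← Circle.coe_mul, inv_mul_cancel, Circle.coe_one]
    rw [Circle.coe_mul]
    linear_combination (-(b : ℂ)) * h1
  rw [this, norm_mul]
  simp

theorem sep (K : Subgroup HH) : TopologicalSpace.SeparableSpace K := by
  classical
  by_cases hK : (K : Set HH).Countable
  · have : Countable K := hK.to_subtype
    infer_instance
  obtain ⟨x, hxK, hx0⟩ : ∃ x ∈ K, toR x ≠ 0 := by
    by_contra hcon
    push Not at hcon
    apply hK
    apply (Set.countable_singleton (1 : HH)).mono
    intro x hx
    exact toR_inj (hcon x hx)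
  obtain ⟨y, hyK, hy⟩ : ∃ y ∈ K, ∀ q : ℚ, toR y ≠ q * toR x := by
    by_contra hcon
    push Not at hcon
    apply hK
    apply (Set.countable_range (fun q : ℚ => ofR ((q : ℝ) * toR x))).mono
    intro y hy
    obtain ⟨q, hq⟩ := hcon y hy
    exact ⟨q, toR_inj (by simp only; rw [toR_ofR]; exact hq.symm)⟩
  let N : Set (I →₀ ℤ) := {n | Circle.exp (2 * π * qq n (toR x)) = 1 ∧
    Circle.exp (2 * π * qq n (toR y)) = 1}
  have hN : N.Countable := by
    let A : Finset I := (B.repr (toR x)).support ∪ (B.repr (toR y)).support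
    let g : (I →₀ ℤ) → (A → ℤ) := fun n i => n i
    refine Set.countable_of_injective_of_countable_image (f := g) ?_ (Set.to_countable _)
    intro n hn n' hn' hg
    have hd : ∀ i ∈ A, n i = n' i := fun i hi => congrFun hg ⟨i, hi⟩
    have hnn : n + (-n') = 0 := by
      apply sv_inj
      have hz : ∀ i, (n + (-n')) i ≠ 0 → i ∉ A := by
        intro i hi hiA
        apply hi
        simp [hd i hiA]
      have hx1 : qq (n + (-n')) (toR x) = sv (n + (-n')) * toR x := by
        apply qq_eq
        intro i hi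
        by_contra hc
        exact hz i hi (Finset.mem_union_left _ (Finsupp.mem_support_iff.2 hc))
      have hy1 : qq (n + (-n')) (toR y) = sv (n + (-n')) * toR y := by
        apply qq_eq
        intro i hi
        by_contra hc
        exact hz i hi (Finset.mem_union_right _ (Finsupp.mem_support_iff.2 hc))
      obtain ⟨a, ha⟩ := exp_one_iff.1 hn.1
      obtain ⟨a', ha'⟩ := exp_one_iff.1 hn'.1
      obtain ⟨c, hc⟩ := exp_one_iff.1 hn.2
      obtain ⟨c', hc'⟩ := exp_one_iff.1 hn'.2
      apply indep hx0 hy (a - a') (c - c')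
      · rw [← hx1, qq_add, qq_neg, ha, ha']; push_cast; ring
      · rw [← hy1, qq_add, qq_neg, hc, hc']; push_cast; ring
    rw [← sub_eq_zero, sub_eq_add_neg]
    exact hnn
  -- witnesses
  let Wt : (I →₀ ℤ) → K := fun n =>
    if h : ∃ z : K, Circle.exp (2 * π * qq n (toR z)) ≠ 1 then Classical.choose h else 1
  have hWt : ∀ n, (∃ z : K, Circle.exp (2 * π * qq n (toR z)) ≠ 1) →
      Circle.exp (2 * π * qq n (toR (Wt n))) ≠ 1 := by
    intro n h
    simp only [Wt, dif_pos h]
    exact Classical.choose_spec h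
  let S : Set K := {⟨x, hxK⟩, ⟨y, hyK⟩} ∪ Wt '' N
  have hS : S.Countable := by
    apply Set.Countable.union
    · exact (Set.countable_singleton _).insert _
    · exact hN.image _
  let D : Subgroup K := Subgroup.closure S
  refine ⟨⟨(D : Set K), countable_closure S hS, ?_⟩⟩
  intro z
  let J : K → (I → Circle) := fun z i => ch i z
  have hJ : Topology.IsInducing J :=
    (Topology.IsInducing.induced Phi).comp Topology.IsInducing.subtypeVal
  rw [hJ.closure_eq_preimage_closure_image, Set.mem_preimage, mem_closure_iff_nhds]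
  intro t ht
  rw [nhds_pi, Filter.mem_pi] at ht
  obtain ⟨F, hF, U, hU, hsub⟩ := ht
  obtain ⟨ε, hε, hεU⟩ : ∃ ε > 0, ∀ i ∈ F, Metric.ball (J z i) ε ⊆ U i := by
    have h1 : ∀ i ∈ F, ∀ᶠ ε : ℝ in nhdsWithin 0 (Set.Ioi 0), Metric.ball (J z i) ε ⊆ U i := by
      intro i _
      obtain ⟨e, he, heU⟩ := Metric.mem_nhds_iff.1 (hU i)
      have : ∀ᶠ ε : ℝ in nhdsWithin 0 (Set.Ioi 0), ε < e :=
        (eventually_lt_nhds he).filter_mono nhdsWithin_le_nhds
      filter_upwards [this] with ε hε
      exact (Metric.ball_subset_ball hε.le).trans heU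
    have h2 := (Filter.eventually_all_finite hF).2 h1
    obtain ⟨ε, h3, h4⟩ := (h2.and self_mem_nhdsWithin).exists
    exact ⟨ε, h4, h3⟩
  have : Fintype F := hF.fintype
  let χ : F → (K →* Circle) := fun i => (ch i).comp K.subtype
  obtain ⟨d, hd, hdF⟩ := Kron.kron D χ (Subgroup.closure (Set.range χ))
    (fun i => Subgroup.subset_closure ⟨i, rfl⟩) z (by
      intro γ hγ
      have hrep : ∃ n : I →₀ ℤ, ∀ w : K, γ w = Circle.exp (2 * π * qq n (toR w)) := by
        induction hγ using Subgroup.closure_induction with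
        | mem γ h =>
          obtain ⟨i, rfl⟩ := h
          refine ⟨Finsupp.single i 1, fun w => ?_⟩
          simp only [qq]
          rw [Finsupp.sum_single_index (by simp)]
          simp [χ, ch_apply]
        | one => exact ⟨0, fun w => by simp [qq]⟩
        | mul γ γ' _ _ h h' =>
          obtain ⟨n, hn⟩ := h
          obtain ⟨n', hn'⟩ := h'
          refine ⟨n + n', fun w => ?_⟩
          rw [MonoidHom.mul_apply, hn, hn', qq_add, mul_add, Circle.exp_add]
        | inv γ _ h =>
          obtain ⟨n, hn⟩ := h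
          refine ⟨-n, fun w => ?_⟩
          rw [MonoidHom.inv_apply, hn, qq_neg, mul_neg, Circle.exp_neg]
      obtain ⟨n, hn⟩ := hrep
      intro hD
      have hxD : (⟨x, hxK⟩ : K) ∈ D := Subgroup.subset_closure (Or.inl (Or.inl rfl))
      have hyD : (⟨y, hyK⟩ : K) ∈ D := Subgroup.subset_closure (Or.inl (Or.inr rfl))
      have hnN : n ∈ N := by
        constructor
        · rw [← hn ⟨x, hxK⟩]; exact hD _ hxD
        · rw [← hn ⟨y, hyK⟩]; exact hD _ hyD
      by_contra hne
      have h5 := hWt n ⟨z, by rw [← hn]; exact hne⟩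
      apply h5
      rw [← hn]
      exact hD _ (Subgroup.subset_closure (Or.inr ⟨n, hnN, rfl⟩))) ε hε
  refine ⟨J d⁻¹, hsub ?_, ⟨d⁻¹, D.inv_mem hd, rfl⟩⟩
  intro i hi
  apply hεU i hi
  rw [Metric.mem_ball]
  have h6 := hdF ⟨i, hi⟩
  have h7 : J d⁻¹ i = (ch i (d : HH))⁻¹ := by
    simp only [J]
    rw [Subgroup.coe_inv, map_inv]
  have h8 : (χ ⟨i, hi⟩ (z * d) : Circle) = J z i * ch i (d : HH) := by
    simp [χ, J]
  rw [h8] at h6
  rw [h7]
  rw [circ_aux]
  exact h6

/-- the diagonal subgroup -/
def L : Subgroup (Multiplicative ℝ × HH) where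
  carrier := {p | Multiplicative.toAdd p.1 = toR p.2}
  one_mem' := rfl
  mul_mem' := by
    intro a b ha hb
    simp only [Set.mem_setOf_eq] at ha hb ⊢
    rw [Prod.fst_mul, Prod.snd_mul, toAdd_mul, toR_mul, ha, hb]
  inv_mem' := by
    intro a ha
    simp only [Set.mem_setOf_eq] at ha ⊢
    rw [Prod.fst_inv, Prod.snd_inv, toAdd_inv, toR_inv, ha]

theorem mem_L (p : Multiplicative ℝ × HH) : p ∈ L ↔ Multiplicative.toAdd p.1 = toR p.2 := Iff.rfl

theorem cont_exp (c : ℝ) : Continuous (fun p : Multiplicative ℝ × HH =>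
    Circle.exp (2 * π * (c * Multiplicative.toAdd p.1))) := by
  have h1 : Continuous (fun p : Multiplicative ℝ × HH => Multiplicative.toAdd p.1) :=
    continuous_toAdd.comp continuous_fst
  exact Circle.exp.continuous.comp (continuous_const.mul (continuous_const.mul h1))

theorem L_closed : IsClosed (L : Set (Multiplicative ℝ × HH)) := by
  have h : (L : Set (Multiplicative ℝ × HH)) =
      {p | Circle.exp (2 * π * (B i0 * Multiplicative.toAdd p.1)) = ch i0 p.2} ∩
      {p | Circle.exp (2 * π * (B i1 * Multiplicative.toAdd p.1)) = ch i1 p.2} := by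
    ext p
    simp only [SetLike.mem_coe, mem_L, Set.mem_inter_iff, Set.mem_setOf_eq]
    constructor
    · intro h
      rw [ch0, ch1, h]
      exact ⟨rfl, rfl⟩
    · rintro ⟨h0, h1⟩
      rw [ch0] at h0
      rw [ch1] at h1
      exact eq_of_two h0 h1
  rw [h]
  exact (isClosed_eq (cont_exp _) ((ch_cont i0).comp continuous_snd)).inter
    (isClosed_eq (cont_exp _) ((ch_cont i1).comp continuous_snd))

theorem L_nonsep : ¬ TopologicalSpace.SeparableSpace L := by
  intro hsep
  obtain ⟨C, hC, hCd⟩ := TopologicalSpace.exists_countable_dense L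
  -- an index outside all supports
  obtain ⟨i, hi⟩ : ∃ i : I, i ∉ ({i0, i1} : Set I) ∪
      ⋃ c ∈ C, ((B.repr (toR (c : Multiplicative ℝ × HH).2)).support : Set I) := by
    by_contra hcon
    push Not at hcon
    apply uncI
    rw [← Set.countable_univ_iff]
    refine Set.Countable.mono (fun i _ => hcon i) ?_
    apply Set.Countable.union
    · exact (Set.countable_singleton _).insert _
    · exact hC.biUnion (fun c _ => Finset.countable_toSet _)
  have hiJ : i ≠ i0 ∧ i ≠ i1 := by
    constructor
    · rintro rfl; exact hi (Or.inl (Or.inl rfl))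
    · rintro rfl; exact hi (Or.inl (Or.inr rfl))
  have hep : ep i = 1 := by simp [ep, hiJ.1, hiJ.2]
  have hsupp : ∀ c ∈ C, B.repr (toR (c : Multiplicative ℝ × HH).2) i = 0 := by
    intro c hc
    by_contra h
    apply hi
    right
    simp only [Set.mem_iUnion]
    exact ⟨c, hc, Finsupp.mem_support_iff.2 h⟩
  let f : L → Circle := fun p => ch i (p : Multiplicative ℝ × HH).2
  let g : L → Circle := fun p => Circle.exp (2 * π * (B i * Multiplicative.toAdd (p : Multiplicative ℝ × HH).1))
  have hf : Continuous f := (ch_cont i).comp (continuous_snd.comp continuous_subtype_val)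
  have hg : Continuous g := (cont_exp (B i)).comp continuous_subtype_val
  have hfg : f = g := by
    apply Continuous.ext_on hCd hf hg
    intro c hc
    simp only [f, g]
    rw [ch_apply, th, hsupp c hc, (mem_L _).1 c.2]
    simp
  -- evaluate at half of the basis vector
  let v : ℝ := B i / 2
  have hv : ((Multiplicative.ofAdd v, ofR v) : Multiplicative ℝ × HH) ∈ L := by
    rw [mem_L]; rfl
  have h1 := congrFun hfg ⟨_, hv⟩
  simp only [f, g] at h1
  rw [ch_apply, toR_ofR, toAdd_ofAdd, exp_eq_iff] at h1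
  obtain ⟨m, hm⟩ := h1
  have hr : B.repr v i = 1 / 2 := by
    have : v = (1 / 2 : ℚ) • B i := by
      rw [Rat.smul_def]; simp only [v]; push_cast; ring
    rw [this, map_smul, Basis.repr_self]
    simp
  rw [th, hr, hep] at hm
  push_cast at hm
  have h2 : (1 : ℝ) = 2 * m := by linarith
  have h3 : (1 : ℤ) = 2 * m := by exact_mod_cast h2
  omega

end

end Pool.Agent.H20.SSep
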