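import Mathlib

set_option autoImplicit false

namespace Pool.Agent.H20.Spread

open Topology Filter

universe u v

theorem exists_W : ∃ (W : Type) (_ : LinearOrder W), WellFoundedLT W ∧ NoMaxOrder W ∧
    (∀ w : W, (Set.Iio w).Countable) ∧ Uncountable W := by
  have h1 : Cardinal.aleph 1 = Order.succ Cardinal.aleph0 := by
    rw [← Cardinal.aleph_zero, ← Cardinal.aleph_succ]
    simp
  refine ⟨(Cardinal.aleph 1).ord.ToType, inferInstance, inferInstance, ?_, ?_, ?_⟩
  · exact Cardinal.noMaxOrder (Cardinal.aleph0_le_aleph 1)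
  · intro y
    have := Cardinal.mk_Iio_toType_ord_lt y
    rw [← Cardinal.le_aleph0_iff_set_countable]
    exact Order.lt_succ_iff.mp (lt_of_lt_of_eq this h1)
  · rw [← Cardinal.aleph0_lt_mk_iff, Cardinal.mk_toType, Cardinal.card_ord, h1]
    exact Order.lt_succ _

section

variable {K : Type u} [TopologicalSpace K]

/-- nonnegative continuous functions with value one at the point -/
structure Fn (p : K) where
  g : K → ℝ
  cont : Continuous g
  one : g p = 1
  nonneg : ∀ x, 0 ≤ g x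

/-- the point has no countable local pi-base -/
def BigPi (p : K) : Prop := ∀ O : Set (Set K), O.Countable → (∀ A ∈ O, IsOpen A ∧ A.Nonempty) →
  ∃ U : Set K, IsOpen U ∧ p ∈ U ∧ ∀ A ∈ O, ¬ A ⊆ U

theorem step [CompactSpace K] [T2Space K] (p : K) (hp : BigPi p) {J : Type v} [Countable J]
    (h : J → Fn p) :
    ∃ f : Fn p, ∀ A B : Finset J,
      (∃ x, (∀ β ∈ A, 1 / 2 ≤ (h β).g x) ∧ (∀ γ ∈ B, (h γ).g x = 0)) →
      ∃ x, ((∀ β ∈ A, 1 / 2 ≤ (h β).g x) ∧ (∀ γ ∈ B, (h γ).g x = 0)) ∧ f.g x = 0 := by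
  classical
  let O : Finset J × Finset J × ℕ → Set K := fun q =>
    {x | (∀ β ∈ q.1, 1 / 2 - 1 / ((q.2.2 : ℝ) + 1) < (h β).g x) ∧
      (∀ γ ∈ q.2.1, (h γ).g x < 1 / ((q.2.2 : ℝ) + 1))}
  have hOo : ∀ q, IsOpen (O q) := by
    intro q
    have e : O q = (⋂ β ∈ q.1, {x | 1 / 2 - 1 / ((q.2.2 : ℝ) + 1) < (h β).g x}) ∩
        ⋂ γ ∈ q.2.1, {x | (h γ).g x < 1 / ((q.2.2 : ℝ) + 1)} := by
      ext x
      simp [O]
    rw [e]
    apply IsOpen.inter
    · exact isOpen_biInter_finset fun β _ => isOpen_lt continuous_const (h β).cont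
    · exact isOpen_biInter_finset fun γ _ => isOpen_lt (h γ).cont continuous_const
  obtain ⟨U, hU, hpU, hOU⟩ := hp {A | ∃ q, A = O q ∧ (O q).Nonempty}
    ((Set.countable_range O).mono (by rintro A ⟨q, rfl, _⟩; exact ⟨q, rfl⟩))
    (by rintro A ⟨q, rfl, hq⟩; exact ⟨hOo q, hq⟩)
  obtain ⟨f, hf0, hf1, hf⟩ := exists_continuous_zero_one_of_isClosed hU.isClosed_compl
    (isClosed_singleton (x := p)) (by
      rw [Set.disjoint_singleton_right]
      exact fun hc => hc hpU)
  refine ⟨⟨f, f.continuous, hf1 rfl, fun x => (hf x).1⟩, ?_⟩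
  rintro A B ⟨x0, hx0A, hx0B⟩
  let C : ℕ → Set K := fun n =>
    ({x | (∀ β ∈ A, 1 / 2 - 1 / ((n : ℝ) + 1) ≤ (h β).g x) ∧
      (∀ γ ∈ B, (h γ).g x ≤ 1 / ((n : ℝ) + 1))}) ∩ Uᶜ
  have hCc : ∀ n, IsClosed (C n) := by
    intro n
    have e : {x | (∀ β ∈ A, 1 / 2 - 1 / ((n : ℝ) + 1) ≤ (h β).g x) ∧
        (∀ γ ∈ B, (h γ).g x ≤ 1 / ((n : ℝ) + 1))} =
        (⋂ β ∈ A, {x | 1 / 2 - 1 / ((n : ℝ) + 1) ≤ (h β).g x}) ∩
        ⋂ γ ∈ B, {x | (h γ).g x ≤ 1 / ((n : ℝ) + 1)} := by
      ext x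
      simp
    show IsClosed (_ ∩ Uᶜ)
    rw [e]
    apply IsClosed.inter _ hU.isClosed_compl
    apply IsClosed.inter
    · exact isClosed_biInter fun β _ => isClosed_le continuous_const (h β).cont
    · exact isClosed_biInter fun γ _ => isClosed_le (h γ).cont continuous_const
  have hmono : ∀ n, C (n + 1) ⊆ C n := by
    rintro n x ⟨⟨h1, h2⟩, h3⟩
    have h4 : 1 / (((n + 1 : ℕ) : ℝ) + 1) ≤ 1 / ((n : ℝ) + 1) := by
      apply one_div_le_one_div_of_le
      · positivity
      · push_cast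
        linarith
    refine ⟨⟨fun β hβ => ?_, fun γ hγ => ?_⟩, h3⟩
    · have := h1 β hβ
      linarith
    · have := h2 γ hγ
      linarith
  have hne : ∀ n, (C n).Nonempty := by
    intro n
    have hpos : (0 : ℝ) < 1 / ((n : ℝ) + 1) := by positivity
    have h1 : (O (A, B, n)).Nonempty := by
      refine ⟨x0, fun β hβ => ?_, fun γ hγ => ?_⟩
      · have := hx0A β hβ
        show 1 / 2 - 1 / ((n : ℝ) + 1) < (h β).g x0
        linarith
      · show (h γ).g x0 < 1 / ((n : ℝ) + 1)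
        rw [hx0B γ hγ]
        exact hpos
    obtain ⟨y, hy, hyU⟩ := Set.not_subset.mp (hOU _ ⟨(A, B, n), rfl, h1⟩)
    exact ⟨y, ⟨fun β hβ => (hy.1 β hβ).le, fun γ hγ => (hy.2 γ hγ).le⟩, hyU⟩
  obtain ⟨y, hy⟩ := IsCompact.nonempty_iInter_of_sequence_nonempty_isCompact_isClosed C hmono hne
    (hCc 0).isCompact hCc
  rw [Set.mem_iInter] at hy
  have hlim := tendsto_one_div_add_atTop_nhds_zero_nat (𝕜 := ℝ)
  refine ⟨y, ⟨fun β hβ => ?_, fun γ hγ => ?_⟩, hf0 (hy 0).2⟩
  · have h1 : Tendsto (fun n : ℕ => 1 / 2 - 1 / ((n : ℝ) + 1)) atTop (𝓝 (1 / 2 - 0)) :=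
      tendsto_const_nhds.sub hlim
    rw [sub_zero] at h1
    exact le_of_tendsto' h1 fun n => (hy n).1.1 β hβ
  · have h1 : (h γ).g y ≤ 0 := ge_of_tendsto' hlim fun n => (hy n).1.2 γ hγ
    exact le_antisymm h1 ((h γ).nonneg y)

theorem exists_seq [CompactSpace K] [T2Space K] (p : K) (hp : BigPi p) {W : Type v}
    [LinearOrder W] [WellFoundedLT W] (hW : ∀ w : W, (Set.Iio w).Countable) :
    ∃ g : W → Fn p, ∀ α : W, ∀ A B : Finset W, (∀ β ∈ A, β < α) → (∀ γ ∈ B, γ < α) →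
      (∃ x, (∀ β ∈ A, 1 / 2 ≤ (g β).g x) ∧ (∀ γ ∈ B, (g γ).g x = 0)) →
      ∃ x, ((∀ β ∈ A, 1 / 2 ≤ (g β).g x) ∧ (∀ γ ∈ B, (g γ).g x = 0)) ∧ (g α).g x = 0 := by
  classical
  have hc : ∀ α : W, Countable {β // β < α} := fun α => (hW α).to_subtype
  let F : (α : W) → ((β : W) → β < α → Fn p) → Fn p := fun α h =>
    (@step K _ _ _ p hp {β // β < α} (hc α) (fun b => h b.1 b.2)).choose
  let g : W → Fn p := (wellFounded_lt (α := W)).fix F
  have hg : ∀ α, g α = F α fun β _ => g β := fun α => (wellFounded_lt (α := W)).fix_eq F α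
  refine ⟨g, ?_⟩
  intro α A B hA hB ⟨x, hxA, hxB⟩
  have hspec := (@step K _ _ _ p hp {β // β < α} (hc α) (fun b => g b.1)).choose_spec
  obtain ⟨y, ⟨hyA, hyB⟩, hy⟩ := hspec (A.subtype (· < α)) (B.subtype (· < α))
    ⟨x, fun β hβ => hxA β.1 (Finset.mem_subtype.mp hβ), fun γ hγ => hxB γ.1 (Finset.mem_subtype.mp hγ)⟩
  refine ⟨y, ⟨fun β hβ => ?_, fun γ hγ => ?_⟩, ?_⟩
  · exact hyA ⟨β, hA β hβ⟩ (Finset.mem_subtype.mpr hβ)
  · exact hyB ⟨γ, hB γ hγ⟩ (Finset.mem_subtype.mpr hγ)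
  · rw [hg α]
    exact hy

theorem exists_discrete [CompactSpace K] [T2Space K] (p : K) (hp : BigPi p) {W : Type v}
    [LinearOrder W] [WellFoundedLT W] [NoMaxOrder W] (hW : ∀ w : W, (Set.Iio w).Countable) :
    ∃ (x : W → K) (O : W → Set K), ∀ α, IsOpen (O α) ∧ x α ∈ O α ∧ ∀ β, β ≠ α → x β ∉ O α := by
  classical
  obtain ⟨g, hg⟩ := exists_seq p hp hW
  -- finite intersections
  have hfip : ∀ B A : Finset W, (∀ β ∈ A, ∀ γ ∈ B, β < γ) →
      ∃ x, (∀ β ∈ A, 1 / 2 ≤ (g β).g x) ∧ (∀ γ ∈ B, (g γ).g x = 0) := by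
    intro B
    induction B using Finset.induction_on_max with
    | empty =>
      intro A _
      refine ⟨p, fun β _ => ?_, by simp⟩
      rw [(g β).one]
      norm_num
    | insert γ B hB ih =>
      intro A hA
      obtain ⟨x, ⟨h1, h2⟩, h3⟩ := hg γ A B (fun β hβ => hA β hβ γ (Finset.mem_insert_self _ _)) hB
        (ih A fun β hβ δ hδ => hA β hβ δ (Finset.mem_insert_of_mem hδ))
      refine ⟨x, h1, ?_⟩
      intro δ hδ
      rcases Finset.mem_insert.mp hδ with rfl | hδ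
      · exact h3
      · exact h2 δ hδ
  have hx : ∀ α : W, ∃ x, (∀ β ≤ α, 1 / 2 ≤ (g β).g x) ∧ (∀ γ, α < γ → (g γ).g x = 0) := by
    intro α
    let t : W → Set K := fun β => if β ≤ α then {x | 1 / 2 ≤ (g β).g x} else {x | (g β).g x = 0}
    have htc : ∀ β, IsClosed (t β) := by
      intro β
      by_cases h : β ≤ α
      · show IsClosed (if β ≤ α then _ else _)
        rw [if_pos h]
        exact isClosed_le continuous_const (g β).cont
      · show IsClosed (if β ≤ α then _ else _)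
        rw [if_neg h]
        exact isClosed_eq (g β).cont continuous_const
    have hfin : ∀ s : Finset W, (Set.univ ∩ ⋂ β ∈ s, t β).Nonempty := by
      intro s
      obtain ⟨x, h1, h2⟩ := hfip (s.filter (α < ·)) (s.filter (· ≤ α)) (by
        intro β hβ γ hγ
        exact (Finset.mem_filter.mp hβ).2.trans_lt (Finset.mem_filter.mp hγ).2)
      refine ⟨x, trivial, ?_⟩
      rw [Set.mem_iInter₂]
      intro β hβ
      by_cases h : β ≤ α
      · show x ∈ (if β ≤ α then _ else _)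
        rw [if_pos h]
        exact h1 β (Finset.mem_filter.mpr ⟨hβ, h⟩)
      · show x ∈ (if β ≤ α then _ else _)
        rw [if_neg h]
        exact h2 β (Finset.mem_filter.mpr ⟨hβ, not_le.mp h⟩)
    obtain ⟨x, _, hx⟩ := isCompact_univ.inter_iInter_nonempty t htc hfin
    rw [Set.mem_iInter] at hx
    refine ⟨x, fun β hβ => ?_, fun γ hγ => ?_⟩
    · have := hx β
      simp only [t, if_pos hβ] at this
      exact this
    · have := hx γ
      simp only [t, if_neg (not_le.mpr hγ)] at this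
      exact this
  choose x hx1 hx2 using hx
  have hs : ∀ α : W, ∃ γ, α < γ ∧ ∀ δ, α < δ → γ ≤ δ := by
    intro α
    obtain ⟨b, hb⟩ := exists_gt α
    have hne : {γ | α < γ}.Nonempty := ⟨b, hb⟩
    refine ⟨(wellFounded_lt (α := W)).min _ hne, (wellFounded_lt (α := W)).min_mem _ hne, ?_⟩
    intro δ hδ
    exact not_lt.mp ((wellFounded_lt (α := W)).not_lt_min _ hδ)
  choose s hs1 hs2 using hs
  refine ⟨x, fun α => {y | 0 < (g α).g y} ∩ {y | (g (s α)).g y < 1 / 2}, ?_⟩
  intro α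
  refine ⟨(isOpen_lt continuous_const (g α).cont).inter (isOpen_lt (g (s α)).cont continuous_const),
    ⟨?_, ?_⟩, ?_⟩
  · show 0 < (g α).g (x α)
    have := hx1 α α (le_refl _)
    linarith
  · show (g (s α)).g (x α) < 1 / 2
    rw [hx2 α (s α) (hs1 α)]
    norm_num
  · rintro β hβ ⟨h1, h2⟩
    rcases lt_or_gt_of_ne hβ with h | h
    · have h3 : 0 < (g α).g (x β) := h1
      rw [hx2 β α h] at h3
      exact lt_irrefl _ h3
    · have h3 : (g (s α)).g (x β) < 1 / 2 := h2
      have := hx1 β (s α) (hs2 α β h)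
      linarith

end

/-- every family of pairwise disjoint nonempty open sets has at most `τ` members -/
def CellLE (Y : Type u) [TopologicalSpace Y] (τ : Cardinal.{u}) : Prop :=
  ∀ F : Set (Set Y), (∀ A ∈ F, IsOpen A ∧ A.Nonempty) → F.PairwiseDisjoint id →
    Cardinal.mk F ≤ τ

/-- the hereditary cellularity is at most `τ` -/
def HCellLE (X : Type u) [TopologicalSpace X] (τ : Cardinal.{u}) : Prop :=
  ∀ Y : Set X, CellLE Y τ

theorem not_hcell {K : Type u} [TopologicalSpace K] [CompactSpace K] [T2Space K] (p : K)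
    (hp : BigPi p) : ¬ HCellLE K Cardinal.aleph0 := by
  classical
  intro hcon
  obtain ⟨W, hlin, hwf, hnm, hW, hunc⟩ := exists_W
  obtain ⟨x, O, hO⟩ := exists_discrete p hp hW
  have hinj : Function.Injective x := by
    intro α β hαβ
    by_contra hne
    apply (hO α).2.2 β (Ne.symm hne)
    rw [← hαβ]
    exact (hO α).2.1
  let Y : Set K := Set.range x
  let e : W → Set Y := fun α => {⟨x α, α, rfl⟩}
  have heinj : Function.Injective e := by
    intro α β hαβ
    have h1 : (⟨x α, α, rfl⟩ : Y) = ⟨x β, β, rfl⟩ := Set.singleton_injective hαβ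
    exact hinj (congrArg Subtype.val h1)
  have h1 := hcon Y (Set.range e) (by
    rintro _ ⟨α, rfl⟩
    refine ⟨?_, Set.singleton_nonempty _⟩
    have : e α = Subtype.val ⁻¹' O α := by
      ext ⟨y, β, rfl⟩
      constructor
      · intro h
        have h2 : (⟨x β, β, rfl⟩ : Y) = ⟨x α, α, rfl⟩ := h
        have h3 : x β = x α := congrArg Subtype.val h2
        show x β ∈ O α
        rw [h3]
        exact (hO α).2.1
      · intro h
        have h2 : β = α := by
          by_contra hne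
          exact (hO α).2.2 β hne h
        subst h2
        rfl
    rw [this]
    exact (hO α).1.preimage continuous_subtype_val) (by
    rintro _ ⟨α, rfl⟩ _ ⟨β, rfl⟩ hne
    show Disjoint (e α) (e β)
    rw [Set.disjoint_singleton]
    intro h
    exact hne (by show ({_} : Set Y) = {_}; rw [h]))
  have h2 : Countable (Set.range e) := Cardinal.mk_le_aleph0_iff.mp h1
  have h3 : Countable W :=
    (Function.Injective.countable (f := Set.rangeFactorization e) (by
      intro a b hab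
      exact heinj (congrArg Subtype.val hab)))
  exact not_countable h3

end Pool.Agent.H20.Spread
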