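import Pool.Agent.H20.SpreadA

set_option autoImplicit false

namespace Pool.Agent.H20.Spread

open Topology Filter

universe u v

/-- index set -/
abbrev Idx : Type := ℕ → Bool

/-- functions on the index set that depend on a finite initial part -/
def Dns : Set (Idx → Bool) :=
  {x | ∃ (N : ℕ) (ρ : (Fin N → Bool) → Bool), x = fun α => ρ fun i => α i}

theorem dns_countable : Dns.Countable := by
  have : Dns = Set.range fun q : Σ N : ℕ, (Fin N → Bool) → Bool =>
      (fun α : Idx => q.2 fun i => α i) := by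
    ext x
    constructor
    · rintro ⟨N, ρ, rfl⟩
      exact ⟨⟨N, ρ⟩, rfl⟩
    · rintro ⟨⟨N, ρ⟩, rfl⟩
      exact ⟨N, ρ, rfl⟩
  rw [this]
  exact Set.countable_range _

theorem exists_level (S : Finset Idx) :
    ∃ N : ℕ, ∀ α ∈ S, ∀ β ∈ S, (∀ i : Fin N, α i = β i) → α = β := by
  classical
  have h : ∀ p : Idx × Idx, ∃ k : ℕ, p.1 k = p.2 k → p.1 = p.2 := by
    intro p
    by_cases hp : p.1 = p.2
    · exact ⟨0, fun _ => hp⟩
    · obtain ⟨k, hk⟩ := Function.ne_iff.mp hp
      exact ⟨k, fun e => absurd e hk⟩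
  choose k hk using h
  refine ⟨((S ×ˢ S).sup k) + 1, ?_⟩
  intro α hα β hβ hab
  apply hk (α, β)
  have hlt : k (α, β) < (S ×ˢ S).sup k + 1 :=
    Nat.lt_succ_of_le (Finset.le_sup (f := k) (Finset.mem_product.mpr ⟨hα, hβ⟩))
  exact hab ⟨k (α, β), hlt⟩

theorem dns_dense (S : Finset Idx) (s : Idx → Bool) : ∃ x ∈ Dns, ∀ α ∈ S, x α = s α := by
  classical
  obtain ⟨N, hN⟩ := exists_level S
  let ρ : (Fin N → Bool) → Bool := fun τ =>
    if h : ∃ β ∈ S, (fun i : Fin N => β i) = τ then s h.choose else false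
  refine ⟨fun α => ρ fun i => α i, ⟨N, ρ, rfl⟩, ?_⟩
  intro α hα
  have h : ∃ β ∈ S, (fun i : Fin N => β i) = fun i : Fin N => α i := ⟨α, hα, rfl⟩
  show (if h : ∃ β ∈ S, (fun i : Fin N => β i) = fun i : Fin N => α i then s h.choose else false)
    = s α
  rw [dif_pos h]
  congr 1
  exact hN _ h.choose_spec.1 _ hα fun i => congrFun h.choose_spec.2 i

theorem idx_uncountable (s : Set Idx) (hs : s.Countable) : ∃ α, α ∉ s := by
  by_contra hcon
  push Not at hcon
  have h2 : (Set.univ : Set Idx).Countable := hs.mono fun α _ => hcon α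
  have h3 : Countable Idx := Set.countable_univ_iff.mp h2
  obtain ⟨g, hg⟩ := exists_surjective_nat Idx
  obtain ⟨k, hk⟩ := hg fun n => !(g n n)
  have h3 : g k k = !(g k k) := congrFun hk k
  cases h4 : g k k <;> rw [h4] at h3 <;> exact absurd h3 (by decide)

theorem bigPi {K : Type u} [TopologicalSpace K] (e : Dns → K) (he : IsEmbedding e)
    (hd : DenseRange e) (p : Dns) : BigPi (e p) := by
  classical
  intro O hOc hO
  have h1 : ∀ A : O, ∃ S : Finset Idx, ∃ y : Dns, ∀ z : Dns,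
      (∀ α ∈ S, z.1 α = y.1 α) → e z ∈ A.1 := by
    rintro ⟨A, hA⟩
    obtain ⟨hAo, hAne⟩ := hO A hA
    obtain ⟨y, hy⟩ := hd.exists_mem_open hAo hAne
    have h2 : IsOpen (e ⁻¹' A) := hAo.preimage he.continuous
    obtain ⟨W, hW, hWe⟩ := isOpen_induced_iff.mp h2
    have hyW : y.1 ∈ W := by
      have : y ∈ Subtype.val ⁻¹' W := by rw [hWe]; exact hy
      exact this
    rw [isOpen_pi_iff] at hW
    obtain ⟨S, u, hu, hsub⟩ := hW y.1 hyW
    refine ⟨S, y, fun z hz => ?_⟩
    have : z ∈ Subtype.val ⁻¹' W := by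
      apply hsub
      intro α hα
      rw [hz α hα]
      exact (hu α hα).2
    rw [hWe] at this
    exact this
  choose S y hSy using h1
  have hOc' : Countable O := hOc.to_subtype
  obtain ⟨α, hα⟩ := idx_uncountable (⋃ A : O, (S A : Set Idx))
    (Set.countable_iUnion fun A => (S A).countable_toSet)
  have hc : Continuous fun x : Dns => x.1 α := (continuous_apply α).comp continuous_subtype_val
  have hV : IsOpen {x : Dns | x.1 α = p.1 α} :=
    (isOpen_discrete ({p.1 α} : Set Bool)).preimage hc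
  obtain ⟨U, hU, hUe⟩ := he.isOpen_iff.mp hV
  refine ⟨U, hU, ?_, ?_⟩
  · have : p ∈ e ⁻¹' U := by rw [hUe]; rfl
    exact this
  · intro A hA hAU
    obtain ⟨z, hz, hzS⟩ := dns_dense (insert α (S ⟨A, hA⟩))
      (Function.update (y ⟨A, hA⟩).1 α (!(p.1 α)))
    have h2 : e ⟨z, hz⟩ ∈ A := by
      apply hSy ⟨A, hA⟩
      intro β hβ
      have hne : β ≠ α := by
        rintro rfl
        exact hα (Set.mem_iUnion.mpr ⟨⟨A, hA⟩, hβ⟩)
      show z β = _
      rw [hzS β (Finset.mem_insert_of_mem hβ), Function.update_of_ne hne]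
    have h3 : (⟨z, hz⟩ : Dns) ∈ e ⁻¹' U := hAU h2
    rw [hUe] at h3
    have h4 : z α = p.1 α := h3
    rw [hzS α (Finset.mem_insert_self _ _), Function.update_self] at h4
    cases h5 : p.1 α <;> rw [h5] at h4 <;> exact absurd h4 (by decide)

theorem hcell_of_countable {X : Type u} [TopologicalSpace X] [Countable X] :
    HCellLE X Cardinal.aleph0 := by
  classical
  intro Y F hF hd
  rw [Cardinal.mk_le_aleph0_iff]
  have h1 : ∀ A : F, ∃ y : Y, y ∈ A.1 := fun A => (hF A.1 A.2).2
  choose y hy using h1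
  apply Function.Injective.countable (f := y)
  intro A B hAB
  by_contra hne
  have h2 : Disjoint A.1 B.1 := hd A.2 B.2 fun h => hne (Subtype.ext h)
  exact Set.disjoint_left.mp h2 (hy A) (hAB ▸ hy B)

end Pool.Agent.H20.Spread
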